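import Pool.Agent.Work.MP_0cd883_co.Exact.Final
import Pool.Agent.Work.MP_0cd883_co.PlaneMain2

/-!
The final statement with the closed form, for all `d ≥ 2`, from part (T).
-/

namespace Pool.Agent.Work.MP_0cd883_co.Exact

open Finset

/-- the number of points of `[N]^d` which are not in `Astar d N u`, in closed form -/
def gap (d N u : ℕ) : ℤ :=
  ∑ j ∈ range (d + 1), (-1 : ℤ) ^ j * (d.choose j : ℤ) *
    (((u - 1 - j * (N - 1)).choose d : ℤ) + ((d * (N + 1) - 2 * u - j * (N - 1)).choose d : ℤ))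

theorem astar_card {d N : ℕ} (hd : 1 ≤ d) (hN : 1 ≤ N) (u : ℕ) :
    ((Astar d N u).card : ℤ) = (N : ℤ) ^ d - gap d N u := by
  rw [Rig.Astar_eq_star]
  exact Rig.star_formula hd hN u

/-- the statement of the exact theorem in dimension `d` -/
def Ex (d : ℕ) : Prop := ∃ N₀ : ℕ, ∀ N ≥ N₀,
      (∃ u, maxSumFree d N = (Astar d N u).card) ∧
      (∀ v, (Astar d N v).card ≤ maxSumFree d N) ∧
      ∀ A : Finset (Fin d → ℕ), A ⊆ grid d N →
        ((SumFree A ∧ A.card = maxSumFree d N) ↔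
          ∃ u, A = Astar d N u ∧ ∀ v, (Astar d N v).card ≤ (Astar d N u).card)

/-- in the plane the bands are extended slabs -/
theorem band_eq {N u : ℕ} (h1 : u ≤ N) (h2 : N + 2 ≤ 2 * u) :
    Plane.band N u (2 * u - 1) = Astar 2 N u := by
  unfold Plane.band Astar
  refine filter_congr fun x hx => ?_
  have hx' := Fintype.mem_piFinset.1 hx
  have h0 := mem_Icc.1 (hx' 0)
  have h3 := mem_Icc.1 (hx' 1)
  rw [Fin.sum_univ_two]
  constructor
  · rintro ⟨h4, h5⟩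
    exact ⟨Or.inl h4, Or.inl (by omega)⟩
  · rintro ⟨h4, h5⟩
    constructor
    · rcases h4 with h4 | ⟨i, hi⟩
      · exact h4
      · fin_cases i
        · simp only [Fin.mk_zero] at hi
          change x 0 = N at hi
          omega
        · change x 1 = N at hi
          omega
    · rcases h5 with h5 | ⟨i, hi⟩
      · omega
      · fin_cases i
        · change x 0 = 1 at hi
          omega
        · change x 1 = 1 at hi
          omega

theorem ex_two : Ex 2 := by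
  refine ⟨8, fun N hN => ?_⟩
  have hle : ∀ v, (Astar 2 N v).card ≤ maxSumFree 2 N := fun v =>
    card_le_max (astar_subset _ _ _) (astar_sumFree _ _ _)
  have key : ∀ A : Finset (Fin 2 → ℕ), A ⊆ grid 2 N → SumFree A → A.card = maxSumFree 2 N →
      ∃ u, A = Astar 2 N u := by
    intro A hA hs hc
    rcases (Plane.extremal_two N A hA hs).1 hc with h | ⟨h, h'⟩ | ⟨h, _⟩ | ⟨h, _⟩
    · exact ⟨_, h.trans (band_eq (by omega) (by omega))⟩
    · exact ⟨_, h'.trans (band_eq (by omega) (by omega))⟩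
    · omega
    · omega
  obtain ⟨B, hB, hBs, hBc⟩ := exists_max 2 N
  obtain ⟨u, hu⟩ := key B hB hBs hBc
  have hmax : maxSumFree 2 N = (Astar 2 N u).card := by rw [← hBc, hu]
  refine ⟨⟨u, hmax⟩, hle, fun A hA => ⟨?_, ?_⟩⟩
  · rintro ⟨hs, hc'⟩
    obtain ⟨w, hw⟩ := key A hA hs hc'
    refine ⟨w, hw, fun v => ?_⟩
    rw [← hw, hc']
    exact hle v
  · rintro ⟨w, hw, hwmax⟩
    refine ⟨hw ▸ astar_sumFree _ _ _, le_antisymm (card_le_max hA (hw ▸ astar_sumFree _ _ _)) ?_⟩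
    rw [hmax, hw]
    exact hwmax u

theorem ex_large (hT : ∀ m, 2 ≤ m → ∀ c : ℝ, (∃ u κ₁ κ₂, Cube.Good m c u κ₁ κ₂) → PartT m c)
    {d : ℕ} (hd : 3 ≤ d) : Ex d := by
  obtain ⟨m, rfl⟩ : ∃ m, d = m + 1 := ⟨d - 1, by omega⟩
  have hm : 2 ≤ m := by omega
  obtain ⟨c, u, κ₁, κ₂, hG⟩ := Cube.good_exists hm
  exact exact_of hm ⟨u, κ₁, κ₂, hG⟩ (hT m hm c ⟨u, κ₁, κ₂, hG⟩)

/-- the final statement -/
theorem final_of (hT : ∀ m, 2 ≤ m → ∀ c : ℝ, (∃ u κ₁ κ₂, Cube.Good m c u κ₁ κ₂) → PartT m c)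
    (d : ℕ) (hd : 2 ≤ d) : ∃ N₀ : ℕ, ∀ N ≥ N₀,
      (∃ u, (maxSumFree d N : ℤ) = (N : ℤ) ^ d - gap d N u) ∧
      (∀ u, (N : ℤ) ^ d - gap d N u ≤ maxSumFree d N) ∧
      ∀ A : Finset (Fin d → ℕ), A ⊆ grid d N →
        ((SumFree A ∧ A.card = maxSumFree d N) ↔
          ∃ u, A = Astar d N u ∧ ∀ v, gap d N u ≤ gap d N v) := by
  have hE : Ex d := by
    rcases Nat.lt_or_ge d 3 with h | h
    · have h2 : d = 2 := by omega
      subst h2
      exact ex_two
    · exact ex_large hT h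
  obtain ⟨N₀, hN₀⟩ := hE
  refine ⟨max 1 N₀, fun N hN => ?_⟩
  have hN1 : 1 ≤ N := (le_max_left _ _).trans hN
  obtain ⟨⟨u, hu⟩, h2, h3⟩ := hN₀ N ((le_max_right _ _).trans hN)
  have hc : ∀ v, ((Astar d N v).card : ℤ) = (N : ℤ) ^ d - gap d N v := fun v =>
    astar_card (by omega) hN1 v
  have hle : ∀ v w, (Astar d N v).card ≤ (Astar d N w).card ↔ gap d N w ≤ gap d N v := by
    intro v w
    rw [← Nat.cast_le (α := ℤ), hc v, hc w]
    constructor <;> intro h <;> linarith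
  refine ⟨⟨u, by rw [hu, hc]⟩, fun v => ?_, fun A hA => ?_⟩
  · rw [← hc]
    exact_mod_cast h2 v
  · rw [h3 A hA]
    simp only [hle]

end Pool.Agent.Work.MP_0cd883_co.Exact
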