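import Pool.Agent.Work.MP_0cd883_co.Exact.Pts
import Pool.Agent.Work.MP_0cd883_co.Exact.Final2

/-!
The minimisers of `gap d N`: the least `u ≥ d` at which the level `u` of `[N-1]^d` has at least as
many points as the levels `d(N+1)-2u` and `d(N+1)-2u-1` together, and, in case of equality, also
`u+1`.
-/

namespace Pool.Agent.Work.MP_0cd883_co.Exact

open Finset

theorem gap_low {d N : ℕ} (hd : 1 ≤ d) (hN : 1 ≤ N) (u : ℕ) :
    gap d N u = (Cube.low d (N - 1) (u - 1) : ℤ) + Cube.low d (N - 1) (d * (N + 1) - 2 * u) := by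
  have h1 := Cube.star_card hd hN u
  have h2 := astar_card hd hN u
  rw [Rig.Astar_eq_star] at h2
  have h3 : ((Cube.star d N u).card : ℤ) + (Cube.low d (N - 1) (u - 1) : ℤ) +
      (Cube.low d (N - 1) (d * (N + 1) - 2 * u) : ℤ) = (N : ℤ) ^ d := by exact_mod_cast h1
  linarith

/-- the difference of two consecutive values of `gap` -/
def D (d N : ℕ) (u : ℤ) : ℤ :=
  P (N - 1) d u - P (N - 1) d ((d : ℤ) * N + d - 2 * u) - P (N - 1) d ((d : ℤ) * N + d - 2 * u - 1)

theorem pts_S {d : ℕ} (hd : 1 ≤ d) (N n u : ℕ) :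
    (pts d n (d * (N + 1) - 2 * u) : ℤ) = P n d ((d : ℤ) * N + d - 2 * u) := by
  have h1 : (d : ℤ) * N + d = ((d * (N + 1) : ℕ) : ℤ) := by push_cast; ring
  rw [h1]
  rcases le_or_gt (2 * u) (d * (N + 1)) with h | h
  · rw [pts_eq, Nat.cast_sub h]
    push_cast
    rfl
  · rw [Nat.sub_eq_zero_of_le h.le, pts_zero hd, P_low]
    · rfl
    · have h2 : ((d * (N + 1) : ℕ) : ℤ) < ((2 * u : ℕ) : ℤ) := by exact_mod_cast h
      have h3 : (0 : ℤ) < d := by exact_mod_cast hd
      push_cast at h2 ⊢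
      linarith

theorem pts_S1 {d : ℕ} (hd : 1 ≤ d) (N n u : ℕ) :
    (pts d n (d * (N + 1) - 2 * u - 1) : ℤ) = P n d ((d : ℤ) * N + d - 2 * u - 1) := by
  have h1 : (d : ℤ) * N + d = ((d * (N + 1) : ℕ) : ℤ) := by push_cast; ring
  rw [h1]
  rcases le_or_gt (2 * u + 1) (d * (N + 1)) with h | h
  · rw [pts_eq, Nat.sub_sub, Nat.cast_sub h]
    congr 1
    push_cast
    ring
  · have h0 : d * (N + 1) - 2 * u - 1 = 0 := by omega
    rw [h0, pts_zero hd, P_low]
    · rfl
    · have h2 : ((d * (N + 1) : ℕ) : ℤ) < ((2 * u + 1 : ℕ) : ℤ) := by exact_mod_cast h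
      have h3 : (0 : ℤ) < d := by exact_mod_cast hd
      push_cast at h2 ⊢
      linarith

theorem gap_succ {d N : ℕ} (hd : 1 ≤ d) (hN : 1 ≤ N) (u : ℕ) :
    gap d N (u + 1) - gap d N u = D d N u := by
  rw [gap_low hd hN, gap_low hd hN]
  have h1 : (Cube.low d (N - 1) (u + 1 - 1) : ℤ) = Cube.low d (N - 1) (u - 1) +
      pts d (N - 1) u := by
    rw [Nat.add_sub_cancel]
    rcases Nat.eq_zero_or_pos u with rfl | hu
    · rw [pts_zero hd]
      simp
    · obtain ⟨w, rfl⟩ : ∃ w, u = w + 1 := ⟨u - 1, by omega⟩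
      rw [Nat.add_sub_cancel, low_sub]
      push_cast
      rfl
  have h2 : ∀ S : ℕ, (Cube.low d (N - 1) S : ℤ) = Cube.low d (N - 1) (S - 2) + pts d (N - 1) S +
      pts d (N - 1) (S - 1) := by
    intro S
    rcases Nat.lt_or_ge S 2 with hS | hS
    · rcases (by omega : S = 0 ∨ S = 1) with rfl | rfl
      · have h3 : pts d (N - 1) 0 = 0 := pts_zero hd _
        show (Cube.low d (N - 1) 0 : ℤ) = Cube.low d (N - 1) 0 + pts d (N - 1) 0 + pts d (N - 1) 0
        rw [h3]
        push_cast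
        ring
      · have h3 := low_sub (d := d) (N - 1) 0
        rw [zero_add] at h3
        have h4 : pts d (N - 1) 0 = 0 := pts_zero hd _
        show (Cube.low d (N - 1) 1 : ℤ) = Cube.low d (N - 1) 0 + pts d (N - 1) 1 + pts d (N - 1) 0
        rw [h3, h4]
        push_cast
        ring
    · obtain ⟨w, rfl⟩ : ∃ w, S = w + 2 := ⟨S - 2, by omega⟩
      have h3 := low_sub (d := d) (N - 1) w
      have h4 := low_sub (d := d) (N - 1) (w + 1)
      rw [show w + 2 - 2 = w from rfl, show w + 2 - 1 = w + 1 from rfl,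
        show w + 2 = w + 1 + 1 from rfl, h4, h3]
      push_cast
      ring
  have h5 := h2 (d * (N + 1) - 2 * u)
  have h6 : d * (N + 1) - 2 * (u + 1) = d * (N + 1) - 2 * u - 2 := by omega
  rw [h6, h1]
  rw [pts_S hd, pts_S1 hd] at h5
  rw [pts_eq]
  unfold D
  linarith

section

variable {d N : ℕ}

theorem D_zero (hN : 4 ≤ N) {u : ℕ} (hu : u < d) : D d N u = 0 := by
  have h1 : (u : ℤ) < d := by exact_mod_cast hu
  have h2 : ((N - 1 : ℕ) : ℤ) + 1 = N := by
    rw [Nat.cast_sub (by omega)]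
    push_cast
    ring
  unfold D
  rw [P_low _ _ _ h1]
  have h3 := P_symm (N - 1) d (2 * (u : ℤ) - d)
  have h4 := P_symm (N - 1) d (2 * (u : ℤ) - d + 1)
  rw [h2] at h3 h4
  rw [show (d : ℤ) * N + d - 2 * u = (d : ℤ) * N - (2 * u - d) by ring, h3,
    show (d : ℤ) * N - (2 * u - d) - 1 = (d : ℤ) * N - (2 * u - d + 1) by ring, h4,
    P_low _ _ _ (by linarith), P_low _ _ _ (by linarith)]
  norm_num

theorem D_neg (hd : 2 ≤ d) (hN : 4 ≤ N) {u : ℕ} (hu : d ≤ u) (h3 : 3 * u ≤ d * N + d) :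
    D d N u < 0 := by
  have e1 : ((N - 1 : ℕ) : ℤ) = N - 1 := by
    rw [Nat.cast_sub (by omega)]
    push_cast
    ring
  have h1 : (d : ℤ) ≤ u := by exact_mod_cast hu
  have h2 : 3 * (u : ℤ) ≤ d * N + d := by exact_mod_cast h3
  have h4 : (4 : ℤ) ≤ N := by exact_mod_cast hN
  have h5 : (2 : ℤ) ≤ d := by exact_mod_cast hd
  have h6 : 4 * (d : ℤ) ≤ d * N := by nlinarith
  have h7 := P_mono (N - 1) d u ((d : ℤ) * N + d - 2 * u) (by linarith)
    (by rw [e1]; linarith) (by omega)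
  have h8 := P_pos (n := N - 1) (by omega) hd (t := (d : ℤ) * N + d - 2 * u - 1)
    (by linarith) (by rw [e1]; linarith)
  unfold D
  linarith

theorem D_inc (hd : 2 ≤ d) (hN : 4 ≤ N) {u : ℕ} (h3 : d * N + d < 3 * u)
    (h2 : 2 * (u + 1) ≤ d * N) : D d N u < D d N ((u + 1 : ℕ) : ℤ) := by
  have e1 : ((N - 1 : ℕ) : ℤ) = N - 1 := by
    rw [Nat.cast_sub (by omega)]
    push_cast
    ring
  have h1 : (d : ℤ) * N + d < 3 * u := by exact_mod_cast h3
  have h2' : 2 * ((u : ℤ) + 1) ≤ d * N := by exact_mod_cast h2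
  have h4 : (4 : ℤ) ≤ N := by exact_mod_cast hN
  have h5 : (2 : ℤ) ≤ d := by exact_mod_cast hd
  have h6 : 4 * (d : ℤ) ≤ d * N := by nlinarith
  have h7 := P_lt_step (n := N - 1) (by omega) hd (u : ℤ) (by linarith)
    (by rw [e1]; linarith)
  have h8 := P_mono (N - 1) d ((d : ℤ) * N + d - 2 * (u + 1)) ((d : ℤ) * N + d - 2 * u)
    (by linarith) (by rw [e1]; linarith) (by omega)
  have h9 := P_mono (N - 1) d ((d : ℤ) * N + d - 2 * (u + 1) - 1) ((d : ℤ) * N + d - 2 * u - 1)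
    (by linarith) (by rw [e1]; linarith) (by omega)
  unfold D
  push_cast
  linarith

theorem D_high (hd : 2 ≤ d) (hN : 4 ≤ N) {u : ℕ} (h2 : d * N ≤ 2 * u) : 0 ≤ D d N u := by
  have e1 : ((N - 1 : ℕ) : ℤ) = N - 1 := by
    rw [Nat.cast_sub (by omega)]
    push_cast
    ring
  have h2' : (d : ℤ) * N ≤ 2 * u := by exact_mod_cast h2
  have h4 : (4 : ℤ) ≤ N := by exact_mod_cast hN
  have h5 : (2 : ℤ) ≤ d := by exact_mod_cast hd
  have h6 : 4 * (d : ℤ) ≤ d * N := by nlinarith
  unfold D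
  rw [P_low _ _ ((d : ℤ) * N + d - 2 * u - 1) (by linarith)]
  rcases h2'.lt_or_eq with h | h
  · rw [P_low _ _ ((d : ℤ) * N + d - 2 * u) (by linarith)]
    have := P_nonneg (N - 1) d u
    linarith
  · have h7 := P_mono (N - 1) d ((d : ℤ) * N + d - 2 * u) u (by linarith)
      (by rw [e1]; linarith) (by omega)
    linarith

theorem D_high_pos (hd : 2 ≤ d) (hN : 4 ≤ N) {u : ℕ} (h2 : d * N ≤ 2 * u)
    (h3 : u + d ≤ d * N) : 0 < D d N u := by
  have e1 : ((N - 1 : ℕ) : ℤ) = N - 1 := by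
    rw [Nat.cast_sub (by omega)]
    push_cast
    ring
  have h2' : (d : ℤ) * N ≤ 2 * u := by exact_mod_cast h2
  have h3' : (u : ℤ) + d ≤ d * N := by exact_mod_cast h3
  have h4 : (4 : ℤ) ≤ N := by exact_mod_cast hN
  have h5 : (2 : ℤ) ≤ d := by exact_mod_cast hd
  have h6 : 4 * (d : ℤ) ≤ d * N := by nlinarith
  unfold D
  rw [P_low _ _ ((d : ℤ) * N + d - 2 * u - 1) (by linarith)]
  rcases h2'.lt_or_eq with h | h
  · rw [P_low _ _ ((d : ℤ) * N + d - 2 * u) (by linarith)]
    have := P_pos (n := N - 1) (by omega) hd (t := (u : ℤ)) (by linarith)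
      (by rw [e1]; linarith)
    linarith
  · have h7 := P_lt (n := N - 1) (by omega) hd (s := (d : ℤ) * N + d - 2 * u) (t := (u : ℤ))
      (by linarith) (by rw [e1]; linarith) (by linarith) (by rw [e1]; linarith)
    linarith

/-- the least `u ≥ d` for which the level `u` of `[N-1]^d` has at least as many points as the levels
`d(N+1)-2u` and `d(N+1)-2u-1` together -/
noncomputable def thr (d N : ℕ) : ℕ :=
  sInf {u | d ≤ u ∧ pts d (N - 1) (d * (N + 1) - 2 * u) + pts d (N - 1) (d * (N + 1) - 2 * u - 1) ≤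
    pts d (N - 1) u}

theorem thr_set (hd : 1 ≤ d) (u : ℕ) :
    (pts d (N - 1) (d * (N + 1) - 2 * u) + pts d (N - 1) (d * (N + 1) - 2 * u - 1) ≤
    pts d (N - 1) u) ↔ 0 ≤ D d N u := by
  unfold D
  rw [← pts_S hd, ← pts_S1 hd, ← pts_eq]
  constructor
  · intro h
    have : ((pts d (N - 1) (d * (N + 1) - 2 * u) + pts d (N - 1) (d * (N + 1) - 2 * u - 1) : ℕ) :
      ℤ) ≤ pts d (N - 1) u := by exact_mod_cast h
    push_cast at this
    linarith
  · intro h
    have : ((pts d (N - 1) (d * (N + 1) - 2 * u) + pts d (N - 1) (d * (N + 1) - 2 * u - 1) : ℕ) :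
      ℤ) ≤ pts d (N - 1) u := by
      push_cast
      linarith
    exact_mod_cast this

theorem thr_eq_iff (hd : 1 ≤ d) (u : ℕ) :
    (pts d (N - 1) u =
      pts d (N - 1) (d * (N + 1) - 2 * u) + pts d (N - 1) (d * (N + 1) - 2 * u - 1)) ↔
      D d N u = 0 := by
  unfold D
  rw [← pts_S hd, ← pts_S1 hd, ← pts_eq]
  constructor
  · intro h
    rw [h]
    push_cast
    ring
  · intro h
    have : ((pts d (N - 1) u : ℕ) : ℤ) = ((pts d (N - 1) (d * (N + 1) - 2 * u) +
      pts d (N - 1) (d * (N + 1) - 2 * u - 1) : ℕ) : ℤ) := by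
      push_cast
      linarith
    exact_mod_cast this

theorem thr_spec (hd : 2 ≤ d) (hN : 4 ≤ N) : d ≤ thr d N ∧ 0 ≤ D d N (thr d N) ∧
    (∀ w, d ≤ w → w < thr d N → D d N w < 0) ∧ 2 * thr d N ≤ d * N + 1 := by
  have hd1 : 1 ≤ d := by omega
  have h0 : 4 * d ≤ d * N := by
    rw [mul_comm]
    exact Nat.mul_le_mul_left d hN
  have hw : (d * N + 1) / 2 ∈ {u | d ≤ u ∧ pts d (N - 1) (d * (N + 1) - 2 * u) +
      pts d (N - 1) (d * (N + 1) - 2 * u - 1) ≤ pts d (N - 1) u} := by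
    refine ⟨by omega, (thr_set hd1 _).2 (D_high hd hN (by omega))⟩
  have h1 := Nat.sInf_mem ⟨_, hw⟩
  have h2 := Nat.sInf_le hw
  refine ⟨h1.1, (thr_set hd1 _).1 h1.2, ?_, ?_⟩
  · intro w hw1 hw2
    by_contra h
    have h3 : w ∈ {u | d ≤ u ∧ pts d (N - 1) (d * (N + 1) - 2 * u) +
      pts d (N - 1) (d * (N + 1) - 2 * u - 1) ≤ pts d (N - 1) u} :=
      ⟨hw1, (thr_set hd1 _).2 (not_lt.1 h)⟩
    have h4 := Nat.sInf_le h3
    unfold thr at hw2
    omega
  · unfold thr
    omega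

theorem D_after (hd : 2 ≤ d) (hN : 4 ≤ N) {u : ℕ} (hu : thr d N < u) :
    0 ≤ D d N u ∧ (u + d ≤ d * N → 0 < D d N u) := by
  obtain ⟨h1, h2, h3, h4⟩ := thr_spec hd hN
  rcases le_or_gt (d * N) (2 * u) with h | h
  · exact ⟨D_high hd hN h, fun h' => D_high_pos hd hN h h'⟩
  · have h5 : d * N + d < 3 * thr d N := by
      by_contra h6
      exact absurd (D_neg hd hN h1 (not_lt.1 h6)) (not_lt.2 h2)
    have key : ∀ k : ℕ, 2 * (thr d N + k + 1) ≤ d * N → 0 < D d N ((thr d N + k + 1 : ℕ) : ℤ) := by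
      intro k
      induction k with
      | zero =>
        intro hk
        exact lt_of_le_of_lt h2 (D_inc hd hN h5 hk)
      | succ k ih =>
        intro hk
        exact (ih (by omega)).trans (D_inc hd hN (u := thr d N + k + 1) (by omega) (by omega))
    have h7 := key (u - thr d N - 1) (by omega)
    have h8 : thr d N + (u - thr d N - 1) + 1 = u := by omega
    rw [h8] at h7
    exact ⟨h7.le, fun _ => h7⟩

theorem gap_before (hd : 2 ≤ d) (hN : 4 ≤ N) {u : ℕ} (hu : u < thr d N) :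
    gap d N (thr d N) < gap d N u := by
  have hd1 : 1 ≤ d := by omega
  obtain ⟨h1, h2, h3, h4⟩ := thr_spec hd hN
  have h0 : 4 * d ≤ d * N := by
    rw [mul_comm]
    exact Nat.mul_le_mul_left d hN
  have h5 : d < thr d N := by
    rcases h1.lt_or_eq with h | h
    · exact h
    · rw [← h] at h2
      exact absurd (D_neg hd hN (u := d) le_rfl (by omega)) (not_lt.2 h2)
  have h6 : ∀ w, w < thr d N → D d N w ≤ 0 := by
    intro w hw
    rcases Nat.lt_or_ge w d with h | h
    · exact (D_zero hN h).le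
    · exact (h3 w h hw).le
  have h7 : ∀ k : ℕ, ∀ w, w + k + 1 = thr d N → gap d N (w + k) ≤ gap d N w := by
    intro k
    induction k with
    | zero => intro w _; exact le_rfl
    | succ k ih =>
      intro w hw
      have h8 := ih (w + 1) (by omega)
      have h9 := gap_succ hd1 (by omega : 1 ≤ N) w
      have h10 := h6 w (by omega)
      rw [show w + (k + 1) = w + 1 + k by ring]
      linarith
  have h11 := h7 (thr d N - u - 1) u (by omega)
  have h12 : u + (thr d N - u - 1) = thr d N - 1 := by omega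
  rw [h12] at h11
  have h13 := gap_succ hd1 (by omega : 1 ≤ N) (thr d N - 1)
  have h14 := h3 (thr d N - 1) (by omega) (by omega)
  have h15 : thr d N - 1 + 1 = thr d N := by omega
  rw [h15] at h13
  linarith

theorem gap_after (hd : 2 ≤ d) (hN : 4 ≤ N) {u : ℕ} (hu : thr d N + 1 < u) :
    gap d N (thr d N + 1) < gap d N u := by
  have hd1 : 1 ≤ d := by omega
  obtain ⟨h1, h2, h3, h4⟩ := thr_spec hd hN
  have h0 : 4 * d ≤ d * N := by
    rw [mul_comm]
    exact Nat.mul_le_mul_left d hN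
  have h5 := (D_after hd hN (u := thr d N + 1) (by omega)).2 (by omega)
  have h6 := gap_succ hd1 (by omega : 1 ≤ N) (thr d N + 1)
  have h7 : ∀ k : ℕ, gap d N (thr d N + 2) ≤ gap d N (thr d N + 2 + k) := by
    intro k
    induction k with
    | zero => exact le_rfl
    | succ k ih =>
      have h8 := gap_succ hd1 (by omega : 1 ≤ N) (thr d N + 2 + k)
      have h9 := (D_after hd hN (u := thr d N + 2 + k) (by omega)).1
      rw [← add_assoc]
      linarith
  have h10 := h7 (u - thr d N - 2)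
  have h11 : thr d N + 2 + (u - thr d N - 2) = u := by omega
  rw [h11] at h10
  have h12 : thr d N + 1 + 1 = thr d N + 2 := rfl
  rw [h12] at h6
  linarith

/-- the minimum of `gap d N` is attained at `thr d N` -/
theorem thr_min (hd : 2 ≤ d) (hN : 4 ≤ N) (v : ℕ) : gap d N (thr d N) ≤ gap d N v := by
  have hd1 : 1 ≤ d := by omega
  obtain ⟨h1, h2, h3, h4⟩ := thr_spec hd hN
  have h5 := gap_succ hd1 (by omega : 1 ≤ N) (thr d N)
  rcases (by omega : v < thr d N ∨ v = thr d N ∨ v = thr d N + 1 ∨ thr d N + 1 < v)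
    with h | h | h | h
  · exact (gap_before hd hN h).le
  · rw [h]
  · rw [h]
    linarith
  · have := gap_after hd hN h
    linarith

/-- the minimisers of `gap d N` -/
theorem min_iff (hd : 2 ≤ d) (hN : 4 ≤ N) (u : ℕ) : (∀ v, gap d N u ≤ gap d N v) ↔
    u = thr d N ∨ u = thr d N + 1 ∧ D d N (thr d N) = 0 := by
  have hd1 : 1 ≤ d := by omega
  obtain ⟨h1, h2, h3, h4⟩ := thr_spec hd hN
  have h5 := gap_succ hd1 (by omega : 1 ≤ N) (thr d N)
  constructor
  · intro hu
    rcases (by omega : u < thr d N ∨ u = thr d N ∨ u = thr d N + 1 ∨ thr d N + 1 < u)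
      with h | h | h | h
    · exact absurd (hu (thr d N)) (not_le.2 (gap_before hd hN h))
    · exact Or.inl h
    · refine Or.inr ⟨h, ?_⟩
      have := hu (thr d N)
      rw [h] at this
      linarith
    · have h6 := gap_after hd hN h
      have h7 := hu (thr d N)
      linarith
  · rintro (h | ⟨h, h'⟩) v
    · rw [h]
      exact thr_min hd hN v
    · have := thr_min hd hN v
      rw [h]
      linarith

end

end Pool.Agent.Work.MP_0cd883_co.Exact
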