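import Pool.Agent.Work.MP_0cd883_co.Exact.Defs

/-!
The two line inequalities: the extra points of a sum-free set on a line in direction `i` are at
most as many as the holes of the set in `Astar` on two partner lines. Only the deepest extra point
is used.
-/

namespace Pool.Agent.Work.MP_0cd883_co.Exact

open Finset

theorem sum_upd {d : ℕ} (f : Fin d → ℕ) (i : Fin d) (v : ℕ) :
    ∑ j, Function.update f i v j = v + ∑ j ∈ univ.erase i, f j := by
  rw [← add_sum_erase _ _ (mem_univ i), Function.update_self]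
  congr 1
  exact sum_congr rfl fun j hj => Function.update_of_ne (ne_of_mem_erase hj) _ _

theorem mem_grid {d N : ℕ} {x : Fin d → ℕ} : x ∈ grid d N ↔ ∀ j, 1 ≤ x j ∧ x j ≤ N := by
  simp only [grid, Fintype.mem_piFinset, mem_Icc]

theorem mem_Astar {d N u : ℕ} {x : Fin d → ℕ} : x ∈ Astar d N u ↔ (∀ j, 1 ≤ x j ∧ x j ≤ N) ∧
    (u ≤ ∑ i, x i ∨ ∃ i, x i = N) ∧ (∑ i, x i + 1 ≤ 2 * u ∨ ∃ i, x i = 1) := by
  simp only [Astar, mem_filter, mem_grid]

theorem line_low {d N u T : ℕ} {A : Finset (Fin d → ℕ)} (hA : A ⊆ grid d N) (hs : SumFree A)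
    (i : Fin d) {q x z : Fin d → ℕ} (hz : ∀ j ≠ i, z j = q j + x j)
    (hx : ∀ j ≠ i, 1 ≤ x j) (hzN : ∀ j ≠ i, z j ≤ N) (hT : T < N)
    (hτ : (1 ≤ (u : ℤ) - ∑ j ∈ univ.erase i, (x j : ℤ) ∧
        (u : ℤ) - ∑ j ∈ univ.erase i, (x j : ℤ) ≤ N + ∑ j ∈ univ.erase i, (q j : ℤ) - u + 1) ∨
      ((N : ℤ) + ∑ j ∈ univ.erase i, (q j : ℤ) - u + 1 ≤ (u : ℤ) - ∑ j ∈ univ.erase i, (x j : ℤ) ∧
        (u : ℤ) - ∑ j ∈ univ.erase i, (x j : ℤ) ≤ 1)) :
    ((Icc 1 T).filter fun k => Function.update q i (N - k) ∈ A ∧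
        ∑ j, Function.update q i (N - k) j < u).card
      ≤ ((Icc 1 T).filter fun l => Function.update x i l ∈ Astar d N u \ A).card
        + ((range T).filter fun l => Function.update z i (N - l) ∈ Astar d N u \ A).card := by
  classical
  set F := (Icc 1 T).filter fun k => Function.update q i (N - k) ∈ A ∧
        ∑ j, Function.update q i (N - k) j < u with hF
  rcases F.eq_empty_or_nonempty with h0 | h0
  · rw [h0]
    simp
  -- the deepest extra point
  obtain ⟨k, hkF, hkmax⟩ := F.exists_max_image (fun k => k) h0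
  rw [hF, mem_filter, mem_Icc] at hkF
  obtain ⟨⟨hk1, hkT⟩, hkA, hku⟩ := hkF
  obtain ⟨Sq, hSq⟩ : ∃ Sq : ℕ, ∑ j ∈ univ.erase i, q j = Sq := ⟨_, rfl⟩
  obtain ⟨Sx, hSx⟩ : ∃ Sx : ℕ, ∑ j ∈ univ.erase i, x j = Sx := ⟨_, rfl⟩
  have hSz : ∑ j ∈ univ.erase i, z j = Sq + Sx := by
    rw [← hSq, ← hSx, ← sum_add_distrib]
    exact sum_congr rfl fun j hj => hz j (ne_of_mem_erase hj)
  have hSq' : ∑ j ∈ univ.erase i, (q j : ℤ) = Sq := by
    rw [← hSq]
    push_cast
    rfl
  have hSx' : ∑ j ∈ univ.erase i, (x j : ℤ) = Sx := by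
    rw [← hSx]
    push_cast
    rfl
  rw [hSq', hSx'] at hτ
  rw [sum_upd, hSq] at hku
  -- all extra points are between `k0` and `k`
  have hFsub : F ⊆ Icc (max 1 (Sq + N + 1 - u)) k := by
    intro l hl
    have h1 := hkmax l hl
    rw [hF, mem_filter, mem_Icc, sum_upd, hSq] at hl
    obtain ⟨⟨hl1, hlT⟩, _, hlu⟩ := hl
    rw [mem_Icc]
    refine ⟨max_le hl1 (by omega), h1⟩
  have hFc : F.card ≤ k + 1 - max 1 (Sq + N + 1 - u) := by
    have := card_le_card hFsub
    rwa [Nat.card_Icc] at this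
  -- the window of the partners
  set a : ℕ := max 1 (u - Sx) with ha
  set b : ℕ := min k (k + u + u - Sx - Sq - N - 1) with hb
  have hab : k + 1 - max 1 (Sq + N + 1 - u) ≤ b + 1 - a := by
    rw [ha, hb]
    rcases hτ with ⟨h1, h2⟩ | ⟨h1, h2⟩ <;> omega
  have key : ∀ l ∈ Icc a b, (Function.update x i l ∈ Astar d N u \ A) ∨
      (Function.update z i (N - (k - l)) ∈ Astar d N u \ A) := by
    intro l hl
    rw [mem_Icc, ha, hb] at hl
    obtain ⟨hl1, hl2⟩ := hl
    have hl3 : 1 ≤ l := le_trans (le_max_left _ _) hl1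
    have hl4 : u - Sx ≤ l := le_trans (le_max_right _ _) hl1
    have hl5 : l ≤ k := le_trans hl2 (min_le_left _ _)
    have hl6 : l ≤ k + u + u - Sx - Sq - N - 1 := le_trans hl2 (min_le_right _ _)
    have hp := hA hkA
    rw [mem_grid] at hp
    have hq1 : ∀ j ≠ i, 1 ≤ q j := fun j hj => by
      have := (hp j).1
      rwa [Function.update_of_ne hj] at this
    have hxA : Function.update x i l ∈ Astar d N u := by
      rw [mem_Astar]
      refine ⟨fun j => ?_, ?_, ?_⟩
      · by_cases hj : j = i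
        · subst hj
          rw [Function.update_self]
          omega
        · rw [Function.update_of_ne hj]
          have h1 := hz j hj
          have h2 := hzN j hj
          exact ⟨hx j hj, by omega⟩
      · left
        rw [sum_upd, hSx]
        omega
      · left
        rw [sum_upd, hSx]
        rcases hτ with ⟨h1, h2⟩ | ⟨h1, h2⟩ <;> omega
    have hzA : Function.update z i (N - (k - l)) ∈ Astar d N u := by
      rw [mem_Astar]
      refine ⟨fun j => ?_, ?_, ?_⟩
      · by_cases hj : j = i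
        · subst hj
          rw [Function.update_self]
          omega
        · rw [Function.update_of_ne hj]
          have h1 := hz j hj
          have h2 := hzN j hj
          have h3 := hx j hj
          exact ⟨by omega, h2⟩
      · left
        rw [sum_upd, hSz]
        omega
      · left
        rw [sum_upd, hSz]
        rcases hτ with ⟨h1, h2⟩ | ⟨h1, h2⟩ <;> omega
    by_contra hcon
    push Not at hcon
    simp only [mem_sdiff, hxA, hzA, true_and, not_not] at hcon
    refine hs _ hkA _ hcon.1 _ hcon.2 ?_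
    funext j
    by_cases hj : j = i
    · subst hj
      simp only [Pi.add_apply, Function.update_self]
      omega
    · simp only [Pi.add_apply, Function.update_of_ne hj]
      exact (hz j hj).symm
  have hcov : Icc a b ⊆ ((Icc 1 T).filter fun l => Function.update x i l ∈ Astar d N u \ A) ∪
      ((Icc a b).filter fun l => Function.update z i (N - (k - l)) ∈ Astar d N u \ A) := by
    intro l hl
    rw [mem_union, mem_filter, mem_filter]
    rcases key l hl with h | h
    · left
      rw [mem_Icc, ha, hb] at hl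
      obtain ⟨hl1, hl2⟩ := hl
      have hl3 : 1 ≤ l := le_trans (le_max_left _ _) hl1
      have hl5 : l ≤ k := le_trans hl2 (min_le_left _ _)
      exact ⟨mem_Icc.2 ⟨hl3, hl5.trans hkT⟩, h⟩
    · exact Or.inr ⟨hl, h⟩
  have h2 : ((Icc a b).filter fun l => Function.update z i (N - (k - l)) ∈ Astar d N u \ A).card
      ≤ ((range T).filter fun l => Function.update z i (N - l) ∈ Astar d N u \ A).card := by
    refine card_le_card_of_injOn (fun l => k - l) ?_ ?_
    · intro l hl
      rw [mem_coe, mem_filter, mem_Icc, ha, hb] at hl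
      obtain ⟨⟨hl1, hl2⟩, h⟩ := hl
      have hl3 : 1 ≤ l := le_trans (le_max_left _ _) hl1
      have hl5 : l ≤ k := le_trans hl2 (min_le_left _ _)
      rw [mem_coe, mem_filter, mem_range]
      refine ⟨?_, h⟩
      show k - l < T
      omega
    · intro l hl l' hl' h
      rw [mem_coe, mem_filter, mem_Icc, ha, hb] at hl hl'
      have h1 : l ≤ k := le_trans hl.1.2 (min_le_left _ _)
      have h2 : l' ≤ k := le_trans hl'.1.2 (min_le_left _ _)
      have h3 : k - l = k - l' := h
      omega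
  calc F.card ≤ k + 1 - max 1 (Sq + N + 1 - u) := hFc
    _ ≤ b + 1 - a := hab
    _ = (Icc a b).card := (Nat.card_Icc _ _).symm
    _ ≤ _ := card_le_card hcov
    _ ≤ _ := card_union_le _ _
    _ ≤ _ := Nat.add_le_add_left h2 _

theorem line_high {d N u T : ℕ} {A : Finset (Fin d → ℕ)} (hA : A ⊆ grid d N) (hs : SumFree A)
    (i : Fin d) {z x y : Fin d → ℕ} (hz : ∀ j ≠ i, z j = x j + y j)
    (hx : ∀ j ≠ i, 1 ≤ x j) (hy : ∀ j ≠ i, 1 ≤ y j) (hzN : ∀ j ≠ i, z j ≤ N) (hT : T ≤ N)
    (hu : d * N + 1 ≤ 3 * u)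
    (hτ : (1 ≤ (u : ℤ) - ∑ j ∈ univ.erase i, (x j : ℤ) ∧
        (u : ℤ) - ∑ j ∈ univ.erase i, (x j : ℤ) + 1 ≤ 2 * u - ∑ j ∈ univ.erase i, (z j : ℤ)) ∨
      ((2 : ℤ) * u - ∑ j ∈ univ.erase i, (z j : ℤ) ≤ (u : ℤ) - ∑ j ∈ univ.erase i, (x j : ℤ) + 1 ∧
        (u : ℤ) - ∑ j ∈ univ.erase i, (x j : ℤ) ≤ 1)) :
    ((Icc 2 T).filter fun k => Function.update z i k ∈ A ∧
        2 * u ≤ ∑ j, Function.update z i k j).card
      ≤ ((Icc 1 T).filter fun l => Function.update x i l ∈ Astar d N u \ A).card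
        + ((Icc 1 T).filter fun l => Function.update y i l ∈ Astar d N u \ A).card := by
  classical
  set F := (Icc 2 T).filter fun k => Function.update z i k ∈ A ∧
        2 * u ≤ ∑ j, Function.update z i k j with hF
  rcases F.eq_empty_or_nonempty with h0 | h0
  · rw [h0]
    simp
  -- the deepest extra point
  obtain ⟨k, hkF, hkmax⟩ := F.exists_max_image (fun k => k) h0
  rw [hF, mem_filter, mem_Icc] at hkF
  obtain ⟨⟨hk1, hkT⟩, hkA, hku⟩ := hkF
  obtain ⟨Sx, hSx⟩ : ∃ Sx : ℕ, ∑ j ∈ univ.erase i, x j = Sx := ⟨_, rfl⟩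
  obtain ⟨Sy, hSy⟩ : ∃ Sy : ℕ, ∑ j ∈ univ.erase i, y j = Sy := ⟨_, rfl⟩
  have hSz : ∑ j ∈ univ.erase i, z j = Sx + Sy := by
    rw [← hSy, ← hSx, ← sum_add_distrib]
    exact sum_congr rfl fun j hj => hz j (ne_of_mem_erase hj)
  have hSx' : ∑ j ∈ univ.erase i, (x j : ℤ) = Sx := by
    rw [← hSx]
    push_cast
    rfl
  have hSz' : ∑ j ∈ univ.erase i, (z j : ℤ) = Sx + Sy := by
    rw [← Nat.cast_add, ← hSz]
    push_cast
    rfl
  rw [hSz', hSx'] at hτ
  rw [sum_upd, hSz] at hku
  -- the levels are bounded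
  have hSzN : Sx + Sy + N ≤ d * N := by
    have h1 : ∑ j ∈ univ.erase i, z j ≤ ∑ j ∈ univ.erase i, N :=
      sum_le_sum fun j hj => hzN j (ne_of_mem_erase hj)
    rw [hSz, sum_const, smul_eq_mul, card_erase_of_mem (mem_univ i), card_univ,
      Fintype.card_fin] at h1
    have h2 : 1 ≤ d := Nat.succ_le_of_lt (lt_of_le_of_lt (Nat.zero_le _) i.isLt)
    obtain ⟨e, rfl⟩ := Nat.exists_eq_add_of_le h2
    have h3 : 1 + e - 1 = e := by omega
    rw [h3] at h1
    nlinarith
  -- all extra points are between `k0` and `k`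
  have hFsub : F ⊆ Icc (max 2 (2 * u - (Sx + Sy))) k := by
    intro l hl
    have h1 := hkmax l hl
    rw [hF, mem_filter, mem_Icc, sum_upd, hSz] at hl
    obtain ⟨⟨hl1, hlT⟩, _, hlu⟩ := hl
    rw [mem_Icc]
    exact ⟨max_le hl1 (by omega), h1⟩
  have hFc : F.card ≤ k + 1 - max 2 (2 * u - (Sx + Sy)) := by
    have := card_le_card hFsub
    rwa [Nat.card_Icc] at this
  -- the window of the partners
  set a : ℕ := max 1 (u - Sx) with ha
  set b : ℕ := min (k - 1) (k + Sy - u) with hb
  have hab : k + 1 - max 2 (2 * u - (Sx + Sy)) ≤ b + 1 - a := by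
    rw [ha, hb]
    rcases hτ with ⟨h1, h2⟩ | ⟨h1, h2⟩ <;> omega
  have key : ∀ l ∈ Icc a b, (Function.update x i l ∈ Astar d N u \ A) ∨
      (Function.update y i (k - l) ∈ Astar d N u \ A) := by
    intro l hl
    rw [mem_Icc, ha, hb] at hl
    obtain ⟨hl1, hl2⟩ := hl
    have hl3 : 1 ≤ l := le_trans (le_max_left _ _) hl1
    have hl4 : u - Sx ≤ l := le_trans (le_max_right _ _) hl1
    have hl5 : l ≤ k - 1 := le_trans hl2 (min_le_left _ _)
    have hl6 : l ≤ k + Sy - u := le_trans hl2 (min_le_right _ _)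
    have hxA : Function.update x i l ∈ Astar d N u := by
      rw [mem_Astar]
      refine ⟨fun j => ?_, ?_, ?_⟩
      · by_cases hj : j = i
        · subst hj
          rw [Function.update_self]
          omega
        · rw [Function.update_of_ne hj]
          have h1 := hz j hj
          have h2 := hzN j hj
          exact ⟨hx j hj, by omega⟩
      · left
        rw [sum_upd, hSx]
        omega
      · left
        rw [sum_upd, hSx]
        rcases hτ with ⟨h1, h2⟩ | ⟨h1, h2⟩ <;> omega
    have hyA : Function.update y i (k - l) ∈ Astar d N u := by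
      rw [mem_Astar]
      refine ⟨fun j => ?_, ?_, ?_⟩
      · by_cases hj : j = i
        · subst hj
          rw [Function.update_self]
          omega
        · rw [Function.update_of_ne hj]
          have h1 := hz j hj
          have h2 := hzN j hj
          exact ⟨hy j hj, by omega⟩
      · left
        rw [sum_upd, hSy]
        omega
      · left
        rw [sum_upd, hSy]
        rcases hτ with ⟨h1, h2⟩ | ⟨h1, h2⟩ <;> omega
    by_contra hcon
    push Not at hcon
    simp only [mem_sdiff, hxA, hyA, true_and, not_not] at hcon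
    refine hs _ hcon.1 _ hcon.2 _ hkA ?_
    funext j
    by_cases hj : j = i
    · subst hj
      simp only [Pi.add_apply, Function.update_self]
      omega
    · simp only [Pi.add_apply, Function.update_of_ne hj]
      exact (hz j hj).symm
  have hcov : Icc a b ⊆ ((Icc 1 T).filter fun l => Function.update x i l ∈ Astar d N u \ A) ∪
      ((Icc a b).filter fun l => Function.update y i (k - l) ∈ Astar d N u \ A) := by
    intro l hl
    rw [mem_union, mem_filter, mem_filter]
    rcases key l hl with h | h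
    · left
      rw [mem_Icc, ha, hb] at hl
      obtain ⟨hl1, hl2⟩ := hl
      have hl3 : 1 ≤ l := le_trans (le_max_left _ _) hl1
      have hl5 : l ≤ k - 1 := le_trans hl2 (min_le_left _ _)
      exact ⟨mem_Icc.2 ⟨hl3, by omega⟩, h⟩
    · exact Or.inr ⟨hl, h⟩
  have h2 : ((Icc a b).filter fun l => Function.update y i (k - l) ∈ Astar d N u \ A).card
      ≤ ((Icc 1 T).filter fun l => Function.update y i l ∈ Astar d N u \ A).card := by
    refine card_le_card_of_injOn (fun l => k - l) ?_ ?_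
    · intro l hl
      rw [mem_coe, mem_filter, mem_Icc, ha, hb] at hl
      obtain ⟨⟨hl1, hl2⟩, h⟩ := hl
      have hl3 : 1 ≤ l := le_trans (le_max_left _ _) hl1
      have hl5 : l ≤ k - 1 := le_trans hl2 (min_le_left _ _)
      rw [mem_coe, mem_filter, mem_Icc]
      refine ⟨?_, h⟩
      show 1 ≤ k - l ∧ k - l ≤ T
      omega
    · intro l hl l' hl' h
      rw [mem_coe, mem_filter, mem_Icc, ha, hb] at hl hl'
      have h1 : l ≤ k - 1 := le_trans hl.1.2 (min_le_left _ _)
      have h2 : l' ≤ k - 1 := le_trans hl'.1.2 (min_le_left _ _)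
      have h3 : k - l = k - l' := h
      omega
  calc F.card ≤ k + 1 - max 2 (2 * u - (Sx + Sy)) := hFc
    _ ≤ b + 1 - a := hab
    _ = (Icc a b).card := (Nat.card_Icc _ _).symm
    _ ≤ _ := card_le_card hcov
    _ ≤ _ := card_union_le _ _
    _ ≤ _ := Nat.add_le_add_left h2 _

end Pool.Agent.Work.MP_0cd883_co.Exact
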