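import Pool.Agent.Work.MP_0cd883_co.Exact.TypeAux
import Pool.Agent.Work.MP_0cd883_co.Exact.Line

/-!
The low extra points of one type: sum over the lines in one direction, over the distances to the
facets and over the levels of the other coordinates (helper25).
-/

namespace Pool.Agent.Work.MP_0cd883_co.Exact

open Finset

theorem fib_le {S : Finset ℕ} {f : ℕ → ℕ}
    (h : ∀ s ∈ S, ∀ s' ∈ S, s + 2 ≤ s' → f s ≠ f s') (j : ℕ) :
    (S.filter fun s => f s = j).card ≤ 2 := by
  classical
  rcases (S.filter fun s => f s = j).eq_empty_or_nonempty with h0 | h0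
  · rw [h0]
    simp
  · obtain ⟨a, ha, hmin⟩ := exists_min_image _ (fun s => s) h0
    have h1 : (S.filter fun s => f s = j) ⊆ {a, a + 1} := by
      intro s hs
      have h2 := hmin s hs
      rw [mem_filter] at ha hs
      by_contra h3
      rw [mem_insert, mem_singleton, not_or] at h3
      exact h a ha.1 s hs.1 (by omega) (ha.2.trans hs.2.symm)
    exact (card_le_card h1).trans card_le_two

/-- the lower depth of the line -/
def lowK (n k N u X s : ℕ) : ℤ := k * N - X + s + n - u + 1

/-- the level of the partner -/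
def lowS (n k N u g X C s : ℕ) : ℕ := (u - (lowK n k N u X s + 2) / 2 - C - n * g : ℤ).toNat

theorem low_num {n k d N u T g M X C s : ℕ} (hd : n + k = d)
    (hM : M + 2 * g + 1 = N) (hu1 : 2 * (d * g) + d + 2 + d * T ≤ 2 * u)
    (hu2 : 4 * u + d * T + 2 * (d * g) + 2 * d ≤ 2 * (d * N)) (h1 : X ≤ 2 * C)
    (h2 : 2 * C + 1 ≤ X + k) (h3 : X + T ≤ k * T) (hs : lowK n k N u X s ≤ T) :
    (lowS n k N u g X C s : ℤ) = u - (lowK n k N u X s + 2) / 2 - C - n * g ∧
    s + lowS n k N u g X C s ≤ n * M ∧ s + k * N ≤ u + k * T ∧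
    2 * lowS n k N u g X C s + s + k * N + 2 * n * g ≤ 3 * u ∧
    3 * u ≤ 2 * lowS n k N u g X C s + s + k * N + 2 * n * g + d + 2 := by
  have e1 : d * g = n * g + k * g := by rw [← hd]; ring
  have e2 : d * T = n * T + k * T := by rw [← hd]; ring
  have e3 : d * N = n * N + k * N := by rw [← hd]; ring
  have e4 : n * N = n * M + 2 * (n * g) + n := by rw [← hM]; ring
  have e5 : 2 * n * g = 2 * (n * g) := by ring
  rw [e1, e2] at hu1 hu2
  rw [e3, e4] at hu2
  rw [e5]
  unfold lowK at hs
  have h5 : (lowS n k N u g X C s : ℤ) = u - (lowK n k N u X s + 2) / 2 - C - n * g := by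
    unfold lowS
    rw [Int.toNat_of_nonneg]
    unfold lowK
    omega
  refine ⟨h5, ?_⟩
  unfold lowK at h5
  refine ⟨by omega, by omega, by omega, by omega⟩

/-- the low extras of one direction and one value of the distances to the other facets -/
theorem low_xi {d N u T g M : ℕ} {A : Finset (Fin d → ℕ)} (hA : A ⊆ grid d N) (hs : SumFree A)
    {K : Finset (Fin d)} {i : Fin d} (hi : i ∈ K)
    (hTg : T < g) (hM : M + 2 * g + 1 = N)
    (hu1 : 2 * (d * g) + d + 2 + d * T ≤ 2 * u)
    (hu2 : 4 * u + d * T + 2 * (d * g) + 2 * d ≤ 2 * (d * N))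
    {κ₁ κ₂ : ℝ} (hκ₁ : 0 ≤ κ₁) (hκ₂ : 0 ≤ κ₂) (hr : RatLow d K.card N u T g M κ₁ κ₂)
    {ξ : Fin d → ℕ} (hξ : ξ ∈ bx (K.erase i) (Icc 1 T)) :
    (∑ p ∈ bx (univ \ K) (range (M + 1)), (((Icc 1 T).filter fun k =>
      Function.update (gl (K.erase i) (fun m => N - m) (fun m => m + 1) ξ p) i (N - k) ∈
        lowE N u T g A K).card : ℝ)) ≤
      2 * κ₁ * (∑ x ∈ bx (univ \ K) (range (M + 1)), (((Icc 1 T).filter fun l =>
        Function.update (gl (K.erase i) (fun m => (m + 1) / 2) (fun m => m + g) ξ x) i l ∈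
          Astar d N u \ A).card : ℝ))
      + 2 * κ₂ * ∑ w ∈ bx (univ \ K) (range (M + 1)), (((range T).filter fun l =>
        Function.update (gl (K.erase i) (fun m => N - m / 2) (fun m => N - g - m) ξ w) i (N - l) ∈
          Astar d N u \ A).card : ℝ) := by
  classical
  rw [mem_bx] at hξ
  have hξ1 : ∀ t ∈ K.erase i, 1 ≤ ξ t ∧ ξ t ≤ T := fun t ht => mem_Icc.1 (hξ.1 t ht)
  have hKd : K.card ≤ d := by
    have := card_le_univ K
    rwa [Fintype.card_fin] at this
  have hk1 : 1 ≤ K.card := card_pos.2 ⟨i, hi⟩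
  have hke : (K.erase i).card = K.card - 1 := card_erase_of_mem hi
  obtain ⟨n, hn⟩ : ∃ n, (univ \ K : Finset (Fin d)).card = n := ⟨_, rfl⟩
  have hnk : n + K.card = d := by
    rw [← hn, card_sdiff_of_subset (subset_univ _), card_univ, Fintype.card_fin]
    omega
  have hn2 : d - K.card = n := by omega
  unfold RatLow at hr
  rw [hn2] at hr
  obtain ⟨X, hX⟩ : ∃ X, ∑ t ∈ K.erase i, ξ t = X := ⟨_, rfl⟩
  obtain ⟨C, hC⟩ : ∃ C, ∑ t ∈ K.erase i, (ξ t + 1) / 2 = C := ⟨_, rfl⟩
  have h1 : X ≤ 2 * C := by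
    rw [← hX, ← hC, mul_sum]
    exact sum_le_sum (fun t _ => by omega)
  have h2 : 2 * C + 1 ≤ X + K.card := by
    have h3 : 2 * C ≤ X + (K.erase i).card := by
      rw [← hX, ← hC, mul_sum, card_eq_sum_ones, ← sum_add_distrib]
      exact sum_le_sum (fun t _ => by omega)
    omega
  have h3 : X + T ≤ K.card * T := by
    have h4 : X ≤ (K.erase i).card * T := by
      rw [← hX, ← smul_eq_mul, ← sum_const]
      exact sum_le_sum (fun t ht => (hξ1 t ht).2)
    have h5 : K.card * T = (K.erase i).card * T + T := by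
      have h6 : K.card = (K.erase i).card + 1 := by omega
      rw [h6]
      ring
    omega
  have hnum : ∀ s, lowK n K.card N u X s ≤ T → _ :=
    fun s hs' => low_num hnk hM hu1 hu2 h1 h2 h3 hs'
  obtain ⟨S, hS⟩ : ∃ S : Finset ℕ, S = (range (n * M + 1)).filter
    (fun s => lowK n K.card N u X s ≤ T) := ⟨_, rfl⟩
  have hmS : ∀ s, s ∈ S ↔ s ≤ n * M ∧ lowK n K.card N u X s ≤ T := by
    intro s
    rw [hS, mem_filter, mem_range]
    omega
  have hTN : T < N := by omega
  have hsq : ∀ p ∈ bx (univ \ K) (range (M + 1)), ∑ j ∈ univ.erase i,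
      (gl (K.erase i) (fun m => N - m) (fun m => m + 1) ξ p j : ℤ) =
      K.card * N - N - X + ((∑ t, p t : ℕ) : ℤ) + n := by
    intro p hp
    rw [sum_gl hi, bx_sum hp, ← hX, ← hn]
    have h4 : ∑ j ∈ K.erase i, ((N - ξ j : ℕ) : ℤ) = K.card * N - N - ((∑ t ∈ K.erase i, ξ t : ℕ) : ℤ) := by
      have h5 : ∑ j ∈ K.erase i, ((N - ξ j : ℕ) : ℤ) = ∑ j ∈ K.erase i, ((N : ℤ) - ξ j) := by
        refine sum_congr rfl (fun j hj => ?_)
        have := (hξ1 j hj).2
        push_cast [Nat.cast_sub (show ξ j ≤ N by omega)]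
        rfl
      rw [h5, sum_sub_distrib, sum_const, hke, nsmul_eq_mul, Nat.cast_sub hk1]
      push_cast
      ring
    rw [h4]
    push_cast
    rw [sum_add_distrib, sum_const, nsmul_eq_mul]
    ring
  have hsM : ∀ p ∈ bx (univ \ K) (range (M + 1)), ∑ t, p t ≤ n * M := by
    intro p hp
    rw [bx_sum hp, ← hn, ← smul_eq_mul, ← sum_const]
    refine sum_le_sum (fun t ht => ?_)
    have := mem_range.1 ((mem_bx.1 hp).1 t ht)
    omega
  refine couple_sum (univ \ K) M S (lowS n K.card N u g X C)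
    (fun s => n * M - s - lowS n K.card N u g X C s) _ _ _ hκ₁ hκ₂ ?_ ?_ ?_ ?_ ?_ ?_
  · -- no extras off `S`
    intro p hp hpS
    rw [card_eq_zero, filter_eq_empty_iff]
    intro k hk hkE
    rw [mem_Icc] at hk
    have h4 := (mem_filter.1 hkE).2.1
    rw [sum_upd] at h4
    have h5 := hsq p hp
    have h6 : (((N - k) + ∑ j ∈ univ.erase i,
      gl (K.erase i) (fun m => N - m) (fun m => m + 1) ξ p j : ℕ) : ℤ) < u := by exact_mod_cast h4
    rw [Nat.cast_add, Nat.cast_sub (by omega), Nat.cast_sum, h5] at h6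
    refine hpS ((hmS _).2 ⟨hsM p hp, ?_⟩)
    unfold lowK
    omega
  · intro s hsS
    have h4 := hnum s ((hmS s).1 hsS).2
    rw [hn]
    have h5 := h4.2.1
    omega
  · intro s hsS
    have h4 := hnum s ((hmS s).1 hsS).2
    rw [hn]
    refine hr s _ _ ?_ h4.2.2.1 h4.2.2.2.1 h4.2.2.2.2
    have h5 := h4.2.1
    omega
  · refine fib_le ?_
    intro s hsS s' hsS' hss' h
    have h4 := (hnum s ((hmS s).1 hsS).2).1
    have h5 := (hnum s' ((hmS s').1 hsS').2).1
    rw [h] at h4
    unfold lowK at h4 h5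
    omega
  · refine fib_le ?_
    intro s hsS s' hsS' hss' h
    have h4 := hnum s ((hmS s).1 hsS).2
    have h5 := hnum s' ((hmS s').1 hsS').2
    have h6 := h4.1
    have h7 := h5.1
    have h8 := h4.2.1
    have h9 := h5.2.1
    unfold lowK at h6 h7
    omega
  · intro p hp x hx w hw hpxw hpS hxσ
    have h4 := (hnum _ ((hmS _).1 hpS).2).1
    have h5 := hsq p hp
    have h6 : ∑ j ∈ univ.erase i, (gl (K.erase i) (fun m => (m + 1) / 2) (fun m => m + g) ξ x j : ℤ)
        = C + ((∑ t, x t : ℕ) : ℤ) + n * g := by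
      rw [sum_gl hi, bx_sum hx, ← hC, ← hn]
      push_cast
      rw [sum_add_distrib, sum_const, nsmul_eq_mul]
      ring
    rw [hxσ] at h6
    rw [mem_bx] at hp hx hw
    refine le_trans (card_le_card ?_) (line_low hA hs i
      (q := gl (K.erase i) (fun m => N - m) (fun m => m + 1) ξ p)
      (x := gl (K.erase i) (fun m => (m + 1) / 2) (fun m => m + g) ξ x)
      (z := gl (K.erase i) (fun m => N - m / 2) (fun m => N - g - m) ξ w) ?_ ?_ ?_ hTN ?_)
    · intro k hk
      rw [mem_filter] at hk ⊢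
      have h7 := (mem_filter.1 hk.2).2.1
      exact ⟨hk.1, (mem_filter.1 hk.2).1, h7⟩
    · intro j hj
      by_cases hjK : j ∈ K.erase i
      · rw [gl_mem hjK, gl_mem hjK, gl_mem hjK]
        have := hξ1 j hjK
        omega
      · rw [gl_not_mem hjK, gl_not_mem hjK, gl_not_mem hjK]
        have h7 : j ∈ univ \ K := mem_sdiff.2 ⟨mem_univ _, fun h => hjK (mem_erase.2 ⟨hj, h⟩)⟩
        have h8 := hpxw j h7
        omega
    · intro j hj
      by_cases hjK : j ∈ K.erase i
      · rw [gl_mem hjK]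
        have := hξ1 j hjK
        omega
      · rw [gl_not_mem hjK]
        omega
    · intro j hj
      by_cases hjK : j ∈ K.erase i
      · rw [gl_mem hjK]
        omega
      · rw [gl_not_mem hjK]
        omega
    · rw [h5, h6]
      unfold lowK at h4
      omega

theorem type_low {d N u T g M : ℕ} {A : Finset (Fin d → ℕ)} (hA : A ⊆ grid d N) (hs : SumFree A)
    {K : Finset (Fin d)} (hK : K.Nonempty)
    (hTg : T < g) (hM : M + 2 * g + 1 = N)
    (hu1 : 2 * (d * g) + d + 2 + d * T ≤ 2 * u)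
    (hu2 : 4 * u + d * T + 2 * (d * g) + 2 * d ≤ 2 * (d * N))
    {κ₁ κ₂ : ℝ} (hκ₁ : 0 ≤ κ₁) (hκ₂ : 0 ≤ κ₂) (hr : RatLow d K.card N u T g M κ₁ κ₂) :
    ((lowE N u T g A K).card : ℝ) ≤
      2 ^ K.card * κ₁ * (Zs N T g (Astar d N u \ A) K).card
      + 2 ^ K.card * κ₂ * (Os N T g (Astar d N u \ A) K).card := by
  classical
  obtain ⟨i, hi⟩ := hK
  have hTN : T < N := by omega
  have hdis : Disjoint (K.erase i) (univ \ K) := by
    rw [disjoint_left]
    intro t ht ht'
    exact (mem_sdiff.1 ht').2 (mem_of_mem_erase ht)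
  have hiK : i ∉ K.erase i := fun h => (mem_erase.1 h).1 rfl
  have hiJ : i ∉ univ \ K := fun h => (mem_sdiff.1 h).2 hi
  have hke : (K.erase i).card + 1 = K.card := card_erase_add_one hi
  have hcov : (lowE N u T g A K).card ≤ ∑ ξ ∈ bx (K.erase i) (Icc 1 T),
      ∑ p ∈ bx (univ \ K) (range (M + 1)), ((Icc 1 T).filter fun k =>
      Function.update (gl (K.erase i) (fun m => N - m) (fun m => m + 1) ξ p) i (N - k) ∈
        lowE N u T g A K).card := by
    refine cover_le (c := fun k => N - k) ?_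
    intro p hp
    have hp1 := mem_filter.1 hp
    obtain ⟨hpA, -, hpK, hpJ⟩ := hp1
    have hpg := mem_grid.1 (hA hpA)
    refine ⟨fun t => if t ∈ K.erase i then N - p t else 0, ?_,
      fun t => if t ∈ univ \ K then p t - 1 else 0, ?_, N - p i, ?_, ?_⟩
    · rw [mem_bx]
      refine ⟨fun t ht => ?_, fun t ht => if_neg ht⟩
      rw [if_pos ht, mem_Icc]
      have := hpK t (mem_of_mem_erase ht)
      omega
    · rw [mem_bx]
      refine ⟨fun t ht => ?_, fun t ht => if_neg ht⟩
      rw [if_pos ht, mem_range]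
      have := hpJ t (mem_sdiff.1 ht).2
      omega
    · rw [mem_Icc]
      have := hpK i hi
      omega
    · funext t
      by_cases hti : t = i
      · rw [hti, Function.update_self]
        have := hpK i hi
        omega
      · rw [Function.update_of_ne hti]
        by_cases htK : t ∈ K.erase i
        · rw [gl_mem htK]
          simp only [if_pos htK]
          have := hpK t (mem_of_mem_erase htK)
          omega
        · rw [gl_not_mem htK]
          have h7 : t ∈ univ \ K := mem_sdiff.2 ⟨mem_univ _, fun h => htK (mem_erase.2 ⟨hti, h⟩)⟩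
          simp only [if_pos h7]
          have := hpg t
          omega
  have hZ : ∑ ξ ∈ bx (K.erase i) (Icc 1 T), ∑ x ∈ bx (univ \ K) (range (M + 1)),
      ((Icc 1 T).filter fun l =>
        Function.update (gl (K.erase i) (fun m => (m + 1) / 2) (fun m => m + g) ξ x) i l ∈
          Astar d N u \ A).card ≤
      2 ^ (K.erase i).card * (Zs N T g (Astar d N u \ A) K).card := by
    refine mult_le (c := fun l => l) hdis hiK hiJ ?_ ?_ ?_ ?_
    · intro m hm m' hm' h1 h2
      omega
    · intro m hm m' hm' h1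
      omega
    · intro m hm m' hm' h1
      exact h1
    · intro ξ hξ x hx l hl hH
      rw [mem_bx] at hξ hx
      rw [mem_Icc] at hl
      refine mem_filter.2 ⟨hH, fun t ht => ?_, fun t ht => ?_⟩
      · by_cases hti : t = i
        · rw [hti, Function.update_self]
          exact hl.2
        · have htK : t ∈ K.erase i := mem_erase.2 ⟨hti, ht⟩
          rw [Function.update_of_ne hti, gl_mem htK]
          have := mem_Icc.1 (hξ.1 t htK)
          omega
      · have hti : t ≠ i := fun h => ht (h ▸ hi)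
        rw [Function.update_of_ne hti, gl_not_mem (fun h => ht (mem_of_mem_erase h))]
        have := mem_range.1 (hx.1 t (mem_sdiff.2 ⟨mem_univ _, ht⟩))
        omega
  have hO : ∑ ξ ∈ bx (K.erase i) (Icc 1 T), ∑ w ∈ bx (univ \ K) (range (M + 1)),
      ((range T).filter fun l =>
        Function.update (gl (K.erase i) (fun m => N - m / 2) (fun m => N - g - m) ξ w) i (N - l) ∈
          Astar d N u \ A).card ≤
      2 ^ (K.erase i).card * (Os N T g (Astar d N u \ A) K).card := by
    refine mult_le (c := fun l => N - l) hdis hiK hiJ ?_ ?_ ?_ ?_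
    · intro m hm m' hm' h1 h2
      rw [mem_Icc] at hm hm'
      omega
    · intro m hm m' hm' h1
      rw [mem_range] at hm hm'
      omega
    · intro m hm m' hm' h1
      rw [mem_range] at hm hm'
      omega
    · intro ξ hξ x hx l hl hH
      rw [mem_bx] at hξ hx
      rw [mem_range] at hl
      refine mem_filter.2 ⟨hH, fun t ht => ?_, fun t ht => ?_⟩
      · by_cases hti : t = i
        · rw [hti, Function.update_self]
          omega
        · have htK : t ∈ K.erase i := mem_erase.2 ⟨hti, ht⟩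
          rw [Function.update_of_ne hti, gl_mem htK]
          have := mem_Icc.1 (hξ.1 t htK)
          omega
      · have hti : t ≠ i := fun h => ht (h ▸ hi)
        rw [Function.update_of_ne hti, gl_not_mem (fun h => ht (mem_of_mem_erase h))]
        have := mem_range.1 (hx.1 t (mem_sdiff.2 ⟨mem_univ _, ht⟩))
        omega
  have hcov' : ((lowE N u T g A K).card : ℝ) ≤ ∑ ξ ∈ bx (K.erase i) (Icc 1 T),
      ∑ p ∈ bx (univ \ K) (range (M + 1)), (((Icc 1 T).filter fun k =>
      Function.update (gl (K.erase i) (fun m => N - m) (fun m => m + 1) ξ p) i (N - k) ∈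
        lowE N u T g A K).card : ℝ) := by exact_mod_cast hcov
  have hZ' : (∑ ξ ∈ bx (K.erase i) (Icc 1 T), ∑ x ∈ bx (univ \ K) (range (M + 1)),
      (((Icc 1 T).filter fun l =>
        Function.update (gl (K.erase i) (fun m => (m + 1) / 2) (fun m => m + g) ξ x) i l ∈
          Astar d N u \ A).card : ℝ)) ≤
      2 ^ (K.erase i).card * (Zs N T g (Astar d N u \ A) K).card := by exact_mod_cast hZ
  have hO' : (∑ ξ ∈ bx (K.erase i) (Icc 1 T), ∑ w ∈ bx (univ \ K) (range (M + 1)),
      (((range T).filter fun l =>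
        Function.update (gl (K.erase i) (fun m => N - m / 2) (fun m => N - g - m) ξ w) i (N - l) ∈
          Astar d N u \ A).card : ℝ)) ≤
      2 ^ (K.erase i).card * (Os N T g (Astar d N u \ A) K).card := by exact_mod_cast hO
  refine hcov'.trans ((sum_le_sum (fun ξ hξ =>
    low_xi hA hs hi hTg hM hu1 hu2 hκ₁ hκ₂ hr hξ)).trans ?_)
  rw [sum_add_distrib, ← mul_sum, ← mul_sum, ← hke, pow_succ]
  have h1 := mul_le_mul_of_nonneg_left hZ' (mul_nonneg zero_le_two hκ₁)
  have h2 := mul_le_mul_of_nonneg_left hO' (mul_nonneg zero_le_two hκ₂)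
  refine (add_le_add h1 h2).trans (le_of_eq ?_)
  ring

end Pool.Agent.Work.MP_0cd883_co.Exact
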