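import Pool.Agent.Work.MP_0cd883_co.Exact.AssemblyCore
import Pool.Agent.Work.MP_0cd883_co.Exact.TypeLow
import Pool.Agent.Work.MP_0cd883_co.Exact.TypeHigh

/-! All types at one scale. -/

namespace Pool.Agent.Work.MP_0cd883_co.Exact

open Finset

/-! ## Assembly: all types at one scale `T`, `g = 2 T` -/
theorem assembly {d N u T : ℕ} {A : Finset (Fin d → ℕ)} (hA : A ⊆ grid d N) (hs : SumFree A)
    (hT : 1 ≤ T) (hTN : 4 * T + 1 ≤ N) (hu : d * N + 1 ≤ 3 * u)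
    (hu1 : 5 * (d * T) + d + 2 ≤ 2 * u) (hu2 : 4 * u + 5 * (d * T) + 2 * d ≤ 2 * (d * N))
    {ρ : ℝ}
    (hrat : ∀ k, 1 ≤ k → k ≤ d → ∃ κ₁ κ₂ κ₃ : ℝ, 0 ≤ κ₁ ∧ 0 ≤ κ₂ ∧ 0 ≤ κ₃ ∧
      2 ^ k * κ₁ + 2 ^ (k + 1) * κ₃ ≤ ρ ∧ 2 ^ k * κ₂ ≤ ρ ∧
      RatLow d k N u T (2 * T) (N - 4 * T - 1) κ₁ κ₂ ∧
      RatHigh d k N u T (2 * T) (N - 4 * T) κ₃) :
    (((A.filter fun p => (∑ j, p j < u ∧ (∀ j, p j < N) ∧ (∃ j, N ≤ p j + T) ∧
          ∀ j, N ≤ p j + T ∨ p j + 4 * T ≤ N) ∨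
        (2 * u ≤ ∑ j, p j ∧ (∀ j, 2 ≤ p j) ∧ (∃ j, p j ≤ T) ∧
          ∀ j, p j ≤ T ∨ 4 * T ≤ p j)).card : ℕ) : ℝ)
      ≤ ρ * (Astar d N u \ A).card := by
  have hd : 1 ≤ d := by
    rcases Nat.eq_zero_or_pos d with h | h
    · subst h
      omega
    · exact h
  have hρ : 0 ≤ ρ := by
    obtain ⟨κ₁, κ₂, κ₃, -, h2, -, -, h5, -, -⟩ := hrat 1 le_rfl hd
    exact le_trans (by positivity) h5
  refine assembly_core hT hTN hρ fun K hK => ?_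
  obtain ⟨κ₁, κ₂, κ₃, h1, h2, h3, h4, h5, h6, h7⟩ := hrat K.card hK.card_pos
    ((card_le_univ K).trans (by rw [Fintype.card_fin]))
  have e1 : d * (2 * T) = 2 * (d * T) := by ring
  have hlow := type_low (g := 2 * T) (M := N - 4 * T - 1) hA hs hK (by omega) (by omega)
    (by rw [e1]; omega) (by rw [e1]; omega) h1 h2 h6
  have hhigh := type_high (g := 2 * T) (M := N - 4 * T) hA hs hK (by omega) (by omega) hu
    (by rw [e1]; omega) h3 h7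
  have hZ : (0 : ℝ) ≤ (Zs N T (2 * T) (Astar d N u \ A) K).card := Nat.cast_nonneg _
  have hO : (0 : ℝ) ≤ (Os N T (2 * T) (Astar d N u \ A) K).card := Nat.cast_nonneg _
  have h8 := mul_le_mul_of_nonneg_right h4 hZ
  have h9 := mul_le_mul_of_nonneg_right h5 hO
  rw [add_mul] at h8
  rw [mul_add]
  linarith

end Pool.Agent.Work.MP_0cd883_co.Exact
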