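import Pool.Agent.Work.MP_0cd883_co.Exact.Defs

/-!
Summation over the types at one scale, and the pigeonhole over the scales.
-/

namespace Pool.Agent.Work.MP_0cd883_co.Exact

open Finset

theorem Zs_disjoint {d N T g : ℕ} (H : Finset (Fin d → ℕ)) (hTg : T < g) {K K' : Finset (Fin d)}
    (hKK : K ≠ K') : Disjoint (Zs N T g H K) (Zs N T g H K') := by
  rw [disjoint_left]
  intro x hx hx'
  have h1 := (mem_filter.1 hx).2
  have h2 := (mem_filter.1 hx').2
  refine hKK (Finset.ext fun j => ⟨fun hj => ?_, fun hj => ?_⟩)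
  · by_contra hj'
    have := h1.1 j hj
    have := (h2.2 j hj').1
    omega
  · by_contra hj'
    have := h2.1 j hj
    have := (h1.2 j hj').1
    omega

theorem Os_disjoint {d N T g : ℕ} (H : Finset (Fin d → ℕ)) (hTg : T < g) {K K' : Finset (Fin d)}
    (hKK : K ≠ K') : Disjoint (Os N T g H K) (Os N T g H K') := by
  rw [disjoint_left]
  intro x hx hx'
  have h1 := (mem_filter.1 hx).2
  have h2 := (mem_filter.1 hx').2
  refine hKK (Finset.ext fun j => ⟨fun hj => ?_, fun hj => ?_⟩)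
  · by_contra hj'
    have := h1.1 j hj
    have := (h2.2 j hj').2
    omega
  · by_contra hj'
    have := h2.1 j hj
    have := (h1.2 j hj').2
    omega

theorem Zs_Os_disjoint {d N T g : ℕ} (H : Finset (Fin d → ℕ)) (hTg : T < g) (hN : 2 * T < N)
    {K K' : Finset (Fin d)} (hK : K.Nonempty) : Disjoint (Zs N T g H K) (Os N T g H K') := by
  rw [disjoint_left]
  intro x hx hx'
  have h1 := (mem_filter.1 hx).2
  have h2 := (mem_filter.1 hx').2
  obtain ⟨j, hj⟩ := hK
  have h3 := h1.1 j hj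
  by_cases hj' : j ∈ K'
  · have := h2.1 j hj'
    omega
  · have := (h2.2 j hj').1
    omega

/-- the charged sets of the nonempty types are disjoint -/
theorem sum_charged {d N T g : ℕ} (H : Finset (Fin d → ℕ)) (hTg : T < g) (hN : 2 * T < N) :
    ∑ K ∈ (univ : Finset (Finset (Fin d))).filter (fun K => K.Nonempty),
      ((Zs N T g H K).card + (Os N T g H K).card) ≤ H.card := by
  classical
  set P := (univ : Finset (Finset (Fin d))).filter (fun K => K.Nonempty) with hP
  have h1 : (P.biUnion fun K => Zs N T g H K).card = ∑ K ∈ P, (Zs N T g H K).card :=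
    card_biUnion fun K _ K' _ hKK => Zs_disjoint H hTg hKK
  have h2 : (P.biUnion fun K => Os N T g H K).card = ∑ K ∈ P, (Os N T g H K).card :=
    card_biUnion fun K _ K' _ hKK => Os_disjoint H hTg hKK
  have h3 : Disjoint (P.biUnion fun K => Zs N T g H K) (P.biUnion fun K => Os N T g H K) := by
    rw [disjoint_biUnion_left]
    intro K hK
    rw [disjoint_biUnion_right]
    intro K' _
    exact Zs_Os_disjoint H hTg hN (mem_filter.1 hK).2
  have h4 : (P.biUnion fun K => Zs N T g H K) ∪ (P.biUnion fun K => Os N T g H K) ⊆ H := by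
    refine union_subset (biUnion_subset.2 fun K _ => filter_subset _ _)
      (biUnion_subset.2 fun K _ => filter_subset _ _)
  have h5 := card_le_card h4
  rw [card_union_of_disjoint h3, h1, h2] at h5
  rw [sum_add_distrib]
  exact h5

/-- the summation over the types -/
theorem assembly_core {d N u T : ℕ} {A : Finset (Fin d → ℕ)} (hT : 1 ≤ T) (hTN : 4 * T + 1 ≤ N)
    {ρ : ℝ} (hρ : 0 ≤ ρ)
    (h : ∀ K : Finset (Fin d), K.Nonempty →
      ((lowE N u T (2 * T) A K).card : ℝ) + (highE u T (2 * T) A K).card ≤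
        ρ * ((Zs N T (2 * T) (Astar d N u \ A) K).card + (Os N T (2 * T) (Astar d N u \ A) K).card)) :
    (((A.filter fun p => (∑ j, p j < u ∧ (∀ j, p j < N) ∧ (∃ j, N ≤ p j + T) ∧
          ∀ j, N ≤ p j + T ∨ p j + 4 * T ≤ N) ∨
        (2 * u ≤ ∑ j, p j ∧ (∀ j, 2 ≤ p j) ∧ (∃ j, p j ≤ T) ∧
          ∀ j, p j ≤ T ∨ 4 * T ≤ p j)).card : ℕ) : ℝ)
      ≤ ρ * (Astar d N u \ A).card := by
  classical
  set P := (univ : Finset (Finset (Fin d))).filter (fun K => K.Nonempty) with hP
  have h1 : (A.filter fun p => (∑ j, p j < u ∧ (∀ j, p j < N) ∧ (∃ j, N ≤ p j + T) ∧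
          ∀ j, N ≤ p j + T ∨ p j + 4 * T ≤ N) ∨
        (2 * u ≤ ∑ j, p j ∧ (∀ j, 2 ≤ p j) ∧ (∃ j, p j ≤ T) ∧
          ∀ j, p j ≤ T ∨ 4 * T ≤ p j)) ⊆
      P.biUnion fun K => lowE N u T (2 * T) A K ∪ highE u T (2 * T) A K := by
    intro p hp
    obtain ⟨hpA, hp'⟩ := mem_filter.1 hp
    rcases hp' with ⟨hlt, hN, ⟨j₀, hj₀⟩, hc⟩ | ⟨hge, h2, ⟨j₀, hj₀⟩, hc⟩
    · refine mem_biUnion.2 ⟨univ.filter fun j => N ≤ p j + T, ?_, mem_union_left _ ?_⟩
      · exact mem_filter.2 ⟨mem_univ _, ⟨j₀, mem_filter.2 ⟨mem_univ _, hj₀⟩⟩⟩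
      · refine mem_filter.2 ⟨hpA, hlt, fun j hj => ⟨(mem_filter.1 hj).2, hN j⟩, fun j hj => ?_⟩
        rcases hc j with h3 | h3
        · exact absurd (show j ∈ univ.filter fun j => N ≤ p j + T from
            mem_filter.2 ⟨mem_univ j, h3⟩) hj
        · omega
    · refine mem_biUnion.2 ⟨univ.filter fun j => p j ≤ T, ?_, mem_union_right _ ?_⟩
      · exact mem_filter.2 ⟨mem_univ _, ⟨j₀, mem_filter.2 ⟨mem_univ _, hj₀⟩⟩⟩
      · refine mem_filter.2 ⟨hpA, hge, fun j hj => ⟨h2 j, (mem_filter.1 hj).2⟩, fun j hj => ?_⟩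
        rcases hc j with h3 | h3
        · exact absurd (show j ∈ univ.filter fun j => p j ≤ T from
            mem_filter.2 ⟨mem_univ j, h3⟩) hj
        · omega
  have h2 : ((A.filter fun p => (∑ j, p j < u ∧ (∀ j, p j < N) ∧ (∃ j, N ≤ p j + T) ∧
          ∀ j, N ≤ p j + T ∨ p j + 4 * T ≤ N) ∨
        (2 * u ≤ ∑ j, p j ∧ (∀ j, 2 ≤ p j) ∧ (∃ j, p j ≤ T) ∧
          ∀ j, p j ≤ T ∨ 4 * T ≤ p j)).card : ℕ) ≤
      ∑ K ∈ P, ((lowE N u T (2 * T) A K).card + (highE u T (2 * T) A K).card) :=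
    (card_le_card h1).trans (card_biUnion_le.trans (sum_le_sum fun K _ => card_union_le _ _))
  have h3 : ((∑ K ∈ P, ((lowE N u T (2 * T) A K).card + (highE u T (2 * T) A K).card) : ℕ) : ℝ) ≤
      ρ * ((∑ K ∈ P, ((Zs N T (2 * T) (Astar d N u \ A) K).card +
        (Os N T (2 * T) (Astar d N u \ A) K).card) : ℕ) : ℝ) := by
    push_cast
    rw [mul_sum]
    exact sum_le_sum fun K hK => h K (mem_filter.1 hK).2
  have h4 : ((∑ K ∈ P, ((Zs N T (2 * T) (Astar d N u \ A) K).card +
        (Os N T (2 * T) (Astar d N u \ A) K).card) : ℕ) : ℝ) ≤ ((Astar d N u \ A).card : ℝ) := by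
    exact_mod_cast sum_charged (Astar d N u \ A) (by omega : T < 2 * T) (by omega : 2 * T < N)
  calc _ ≤ ((∑ K ∈ P, ((lowE N u T (2 * T) A K).card + (highE u T (2 * T) A K).card) : ℕ) : ℝ) := by
        exact_mod_cast h2
    _ ≤ _ := h3
    _ ≤ _ := mul_le_mul_of_nonneg_left h4 hρ

/-- at most one scale is bad for a given distance -/
theorem bad_scale_unique {T D r s : ℕ} (hr : 4 ^ r * T < D) (hr' : D < 4 * (4 ^ r * T))
    (hs : 4 ^ s * T < D) (hs' : D < 4 * (4 ^ s * T)) : r = s := by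
  have key : ∀ a b : ℕ, 4 ^ a * T < D → D < 4 * (4 ^ a * T) → 4 ^ b * T < D → ¬ a < b := by
    intro a b _ h2 h3 hab
    have h4 : 4 ^ (a + 1) * T ≤ 4 ^ b * T :=
      Nat.mul_le_mul_right T (Nat.pow_le_pow_right (by norm_num) hab)
    have h5 : 4 ^ (a + 1) * T = 4 * (4 ^ a * T) := by ring
    omega
  have h1 := key r s hr hr' hs
  have h2 := key s r hs hs' hr
  omega

theorem scales {d N u T : ℕ} (hd : 1 ≤ d) {A : Finset (Fin d → ℕ)} (hA : A ⊆ grid d N)
    {ρ : ℝ} (_hρ : 0 ≤ ρ)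
    (h1 : ∀ r < 100 * d, (((A.filter fun p => (∑ j, p j < u ∧ (∀ j, p j < N) ∧
          (∃ j, N ≤ p j + 4 ^ r * T) ∧ ∀ j, N ≤ p j + 4 ^ r * T ∨ p j + 4 * (4 ^ r * T) ≤ N) ∨
        (2 * u ≤ ∑ j, p j ∧ (∀ j, 2 ≤ p j) ∧ (∃ j, p j ≤ 4 ^ r * T) ∧
          ∀ j, p j ≤ 4 ^ r * T ∨ 4 * (4 ^ r * T) ≤ p j)).card : ℕ) : ℝ)
      ≤ ρ * (Astar d N u \ A).card)
    (hTl : ∀ p ∈ A, ∑ j, p j < u → (∀ j, p j < N) → ∃ j, N ≤ p j + T)
    (hTh : ∀ p ∈ A, 2 * u ≤ ∑ j, p j → (∀ j, 2 ≤ p j) → ∃ j, p j ≤ T) :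
    99 / 100 * ((A \ Astar d N u).card : ℝ) ≤ ρ * (Astar d N u \ A).card := by
  classical
  -- the clear sets
  set C : ℕ → Finset (Fin d → ℕ) := fun r => A.filter fun p => (∑ j, p j < u ∧ (∀ j, p j < N) ∧
          (∃ j, N ≤ p j + 4 ^ r * T) ∧ ∀ j, N ≤ p j + 4 ^ r * T ∨ p j + 4 * (4 ^ r * T) ≤ N) ∨
        (2 * u ≤ ∑ j, p j ∧ (∀ j, 2 ≤ p j) ∧ (∃ j, p j ≤ 4 ^ r * T) ∧
          ∀ j, p j ≤ 4 ^ r * T ∨ 4 * (4 ^ r * T) ≤ p j) with hC
  have hpow : ∀ r : ℕ, T ≤ 4 ^ r * T := fun r =>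
    Nat.le_mul_of_pos_left T (pow_pos (by norm_num) r)
  -- every extra point is clear for all but `d` scales
  have hclear : ∀ p ∈ A \ Astar d N u,
      100 * d ≤ ((range (100 * d)).filter fun r => p ∈ C r).card + d := by
    intro p hp
    obtain ⟨hpA, hpS⟩ := mem_sdiff.1 hp
    have hgr : ∀ j, 1 ≤ p j ∧ p j ≤ N := by
      intro j
      have := hA hpA
      unfold grid at this
      exact mem_Icc.1 (Fintype.mem_piFinset.1 this j)
    have hcases : (∑ j, p j < u ∧ ∀ j, p j < N) ∨ (2 * u ≤ ∑ j, p j ∧ ∀ j, 2 ≤ p j) := by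
      by_contra hcon
      rw [not_or] at hcon
      refine hpS (mem_filter.2 ⟨hA hpA, ?_, ?_⟩)
      · by_contra h2
        rw [not_or, not_le, not_exists] at h2
        exact hcon.1 ⟨h2.1, fun j => lt_of_le_of_ne (hgr j).2 (h2.2 j)⟩
      · by_contra h2
        rw [not_or, not_le, not_exists] at h2
        exact hcon.2 ⟨by omega, fun j => lt_of_le_of_ne (hgr j).1 (Ne.symm (h2.2 j))⟩
    rcases hcases with ⟨hlt, hN⟩ | ⟨hge, h2⟩
    · obtain ⟨j₀, hj₀⟩ := hTl p hpA hlt hN
      -- a scale is not clear only if some distance is bad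
      have hsub : ((range (100 * d)).filter fun r => ¬ p ∈ C r) ⊆
          (univ : Finset (Fin d)).biUnion fun j => (range (100 * d)).filter fun r =>
            4 ^ r * T < N - p j ∧ N - p j < 4 * (4 ^ r * T) := by
        intro r hr
        obtain ⟨hr1, hr2⟩ := mem_filter.1 hr
        by_contra hcon
        refine hr2 (mem_filter.2 ⟨hpA, Or.inl ⟨hlt, hN, ⟨j₀, ?_⟩, fun j => ?_⟩⟩)
        · have := hpow r
          omega
        · by_contra h3
          rw [not_or] at h3
          refine hcon (mem_biUnion.2 ⟨j, mem_univ _, mem_filter.2 ⟨hr1, ?_⟩⟩)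
          have := hN j
          omega
      have hone : ∀ j : Fin d, ((range (100 * d)).filter fun r =>
            4 ^ r * T < N - p j ∧ N - p j < 4 * (4 ^ r * T)).card ≤ 1 := by
        intro j
        rw [card_le_one]
        intro a ha b hb
        have h3 := (mem_filter.1 ha).2
        have h4 := (mem_filter.1 hb).2
        exact bad_scale_unique h3.1 h3.2 h4.1 h4.2
      have h3 := (card_le_card hsub).trans (card_biUnion_le.trans (sum_le_sum fun j _ => hone j))
      rw [sum_const, card_univ, Fintype.card_fin, smul_eq_mul, mul_one] at h3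
      have h4 := card_filter_add_card_filter_not (s := range (100 * d)) (fun r => p ∈ C r)
      rw [card_range] at h4
      omega
    · obtain ⟨j₀, hj₀⟩ := hTh p hpA hge h2
      have hsub : ((range (100 * d)).filter fun r => ¬ p ∈ C r) ⊆
          (univ : Finset (Fin d)).biUnion fun j => (range (100 * d)).filter fun r =>
            4 ^ r * T < p j ∧ p j < 4 * (4 ^ r * T) := by
        intro r hr
        obtain ⟨hr1, hr2⟩ := mem_filter.1 hr
        by_contra hcon
        refine hr2 (mem_filter.2 ⟨hpA, Or.inr ⟨hge, h2, ⟨j₀, ?_⟩, fun j => ?_⟩⟩)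
        · have := hpow r
          omega
        · by_contra h3
          rw [not_or] at h3
          refine hcon (mem_biUnion.2 ⟨j, mem_univ _, mem_filter.2 ⟨hr1, ?_⟩⟩)
          omega
      have hone : ∀ j : Fin d, ((range (100 * d)).filter fun r =>
            4 ^ r * T < p j ∧ p j < 4 * (4 ^ r * T)).card ≤ 1 := by
        intro j
        rw [card_le_one]
        intro a ha b hb
        have h3 := (mem_filter.1 ha).2
        have h4 := (mem_filter.1 hb).2
        exact bad_scale_unique h3.1 h3.2 h4.1 h4.2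
      have h3 := (card_le_card hsub).trans (card_biUnion_le.trans (sum_le_sum fun j _ => hone j))
      rw [sum_const, card_univ, Fintype.card_fin, smul_eq_mul, mul_one] at h3
      have h4 := card_filter_add_card_filter_not (s := range (100 * d)) (fun r => p ∈ C r)
      rw [card_range] at h4
      omega
  -- double counting
  have hdc : (A \ Astar d N u).card * (100 * d) ≤
      (∑ r ∈ range (100 * d), (C r).card) + (A \ Astar d N u).card * d := by
    have h2 : ∑ p ∈ A \ Astar d N u, ((range (100 * d)).filter fun r => p ∈ C r).card ≤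
        ∑ r ∈ range (100 * d), (C r).card := by
      rw [sum_congr rfl fun p _ => card_filter (fun r => p ∈ C r) (range (100 * d)), sum_comm]
      refine sum_le_sum fun r _ => ?_
      rw [← card_filter]
      refine card_le_card fun p hp => ?_
      exact (mem_filter.1 hp).2
    have h3 := sum_le_sum hclear
    rw [sum_const, smul_eq_mul, sum_add_distrib, sum_const, smul_eq_mul] at h3
    omega
  have hsum : ((∑ r ∈ range (100 * d), (C r).card : ℕ) : ℝ) ≤
      100 * d * (ρ * (Astar d N u \ A).card) := by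
    push_cast
    have h2 : ∑ r ∈ range (100 * d), ((C r).card : ℝ) ≤
        ∑ _r ∈ range (100 * d), ρ * ((Astar d N u \ A).card : ℝ) :=
      sum_le_sum fun r hr => h1 r (mem_range.1 hr)
    rw [sum_const, card_range, nsmul_eq_mul] at h2
    push_cast at h2
    exact h2
  have hdc' : ((A \ Astar d N u).card : ℝ) * (100 * d) ≤
      ((∑ r ∈ range (100 * d), (C r).card : ℕ) : ℝ) + (A \ Astar d N u).card * d := by
    exact_mod_cast hdc
  have hd' : (1 : ℝ) ≤ d := by exact_mod_cast hd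
  have h5 : (d : ℝ) * (99 * ((A \ Astar d N u).card : ℝ)) ≤
      d * (100 * (ρ * (Astar d N u \ A).card)) := by
    nlinarith [hsum, hdc']
  have h6 := le_of_mul_le_mul_left h5 (by linarith)
  linarith

end Pool.Agent.Work.MP_0cd883_co.Exact
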