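import Pool.Agent.Work.MP_0cd883_co.Exact.Argmin

/-!
From the description of the extremal sets to its explicit form, with the threshold level.
-/

namespace Pool.Agent.Work.MP_0cd883_co.Exact

open Finset

/-- the exact theorem for one `N` -/
def At (d N : ℕ) : Prop :=
  (∃ u, maxSumFree d N = (Astar d N u).card) ∧
  (∀ v, (Astar d N v).card ≤ maxSumFree d N) ∧
  ∀ A : Finset (Fin d → ℕ), A ⊆ grid d N →
    ((SumFree A ∧ A.card = maxSumFree d N) ↔
      ∃ u, A = Astar d N u ∧ ∀ v, (Astar d N v).card ≤ (Astar d N u).card)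

theorem at_two {N : ℕ} (hN : 8 ≤ N) : At 2 N := by
  have hle : ∀ v, (Astar 2 N v).card ≤ maxSumFree 2 N := fun v =>
    card_le_max (astar_subset _ _ _) (astar_sumFree _ _ _)
  have key : ∀ A : Finset (Fin 2 → ℕ), A ⊆ grid 2 N → SumFree A → A.card = maxSumFree 2 N →
      ∃ u, A = Astar 2 N u := by
    intro A hA hs hc
    rcases (Plane.extremal_two N A hA hs).1 hc with h | ⟨h, h'⟩ | ⟨h, _⟩ | ⟨h, _⟩
    · exact ⟨_, h.trans (band_eq (by omega) (by omega))⟩
    · exact ⟨_, h'.trans (band_eq (by omega) (by omega))⟩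
    · omega
    · omega
  obtain ⟨B, hB, hBs, hBc⟩ := exists_max 2 N
  obtain ⟨u, hu⟩ := key B hB hBs hBc
  have hmax : maxSumFree 2 N = (Astar 2 N u).card := by rw [← hBc, hu]
  refine ⟨⟨u, hmax⟩, hle, fun A hA => ⟨?_, ?_⟩⟩
  · rintro ⟨hs, hc'⟩
    obtain ⟨w, hw⟩ := key A hA hs hc'
    refine ⟨w, hw, fun v => ?_⟩
    rw [← hw, hc']
    exact hle v
  · rintro ⟨w, hw, hwmax⟩
    refine ⟨hw ▸ astar_sumFree _ _ _, le_antisymm (card_le_max hA (hw ▸ astar_sumFree _ _ _)) ?_⟩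
    rw [hmax, hw]
    exact hwmax u

theorem at_large {m : ℕ} (hm : 2 ≤ m) {c : ℝ} (hc : ∃ u κ₁ κ₂, Cube.Good m c u κ₁ κ₂)
    (hT : PartT m c) : ∃ N₀ : ℕ, ∀ N ≥ N₀, At (m + 1) N := exact_of hm hc hT

/-- the explicit form -/
theorem closed_of {d N : ℕ} (hd : 2 ≤ d) (hN : 4 ≤ N) (h : At d N) :
    (maxSumFree d N : ℤ) = (N : ℤ) ^ d - gap d N (thr d N) ∧
    (∀ u, gap d N (thr d N) ≤ gap d N u) ∧
    ∀ A : Finset (Fin d → ℕ), A ⊆ grid d N →
      ((SumFree A ∧ A.card = maxSumFree d N) ↔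
        A = Astar d N (thr d N) ∨
        (pts d (N - 1) (thr d N) = pts d (N - 1) (d * (N + 1) - 2 * thr d N) +
            pts d (N - 1) (d * (N + 1) - 2 * thr d N - 1) ∧
          A = Astar d N (thr d N + 1))) := by
  obtain ⟨⟨u, hu⟩, h2, h3⟩ := h
  have hc : ∀ v, ((Astar d N v).card : ℤ) = (N : ℤ) ^ d - gap d N v := fun v =>
    astar_card (by omega) (by omega) v
  have hle : ∀ v w, (Astar d N v).card ≤ (Astar d N w).card ↔ gap d N w ≤ gap d N v := by
    intro v w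
    rw [← Nat.cast_le (α := ℤ), hc v, hc w]
    constructor <;> intro h <;> linarith
  refine ⟨?_, thr_min hd hN, fun A hA => ?_⟩
  · have h4 : (maxSumFree d N : ℤ) = (N : ℤ) ^ d - gap d N u := by rw [hu, hc]
    have h5 : ((Astar d N (thr d N)).card : ℤ) ≤ maxSumFree d N := by exact_mod_cast h2 _
    rw [hc] at h5
    have h6 := thr_min hd hN u
    linarith
  · rw [h3 A hA]
    simp only [hle]
    constructor
    · rintro ⟨w, hw, hm⟩
      rcases (min_iff hd hN w).1 hm with h | ⟨h, h'⟩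
      · exact Or.inl (by rw [hw, h])
      · exact Or.inr ⟨(thr_eq_iff (by omega) _).2 h', by rw [hw, h]⟩
    · rintro (h | ⟨h', h⟩)
      · exact ⟨_, h, (min_iff hd hN _).2 (Or.inl rfl)⟩
      · exact ⟨_, h, (min_iff hd hN _).2 (Or.inr ⟨rfl, (thr_eq_iff (by omega) _).1 h'⟩)⟩

end Pool.Agent.Work.MP_0cd883_co.Exact
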