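import Pool.Agent.Work.MP_0cd883_co.Exact.Defs

/-!
Summed form of the exact level inequality `Lev.li`: if `e p ≤ h₀ x + h₁ w` whenever
`p + x + w = (M, .., M)` on `J` and the level of `x` is a given function of the level of `p`, then
the sum of `e` is at most `2 κ₁` times the sum of `h₀` plus `2 κ₂` times the sum of `h₁`.
-/

namespace Pool.Agent.Work.MP_0cd883_co.Exact

open Finset

/-- extension by zero -/
noncomputable def ext {d : ℕ} (J : Finset (Fin d)) (M : ℕ) (a : Fin J.card → Fin (M + 1)) : Fin d → ℕ :=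
  fun t => if h : t ∈ J then (a (J.equivFin ⟨t, h⟩) : ℕ) else 0

theorem ext_of_mem {d : ℕ} {J : Finset (Fin d)} {M : ℕ} (a : Fin J.card → Fin (M + 1)) {t : Fin d}
    (h : t ∈ J) : ext J M a t = (a (J.equivFin ⟨t, h⟩) : ℕ) := by
  unfold ext
  rw [dif_pos h]

theorem ext_of_not_mem {d : ℕ} {J : Finset (Fin d)} {M : ℕ} (a : Fin J.card → Fin (M + 1))
    {t : Fin d} (h : t ∉ J) : ext J M a t = 0 := by
  unfold ext
  rw [dif_neg h]

theorem mem_bx {d : ℕ} {J : Finset (Fin d)} {s : Finset ℕ} {p : Fin d → ℕ} :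
    p ∈ bx J s ↔ (∀ t ∈ J, p t ∈ s) ∧ ∀ t ∉ J, p t = 0 := by
  unfold bx
  rw [Fintype.mem_piFinset]
  constructor
  · intro h
    refine ⟨fun t ht => ?_, fun t ht => ?_⟩
    · have := h t
      rwa [if_pos ht] at this
    · have := h t
      rwa [if_neg ht, mem_singleton] at this
  · rintro ⟨h1, h2⟩ t
    by_cases ht : t ∈ J
    · rw [if_pos ht]
      exact h1 t ht
    · rw [if_neg ht, mem_singleton]
      exact h2 t ht

theorem ext_mem {d : ℕ} {J : Finset (Fin d)} {M : ℕ} (a : Fin J.card → Fin (M + 1)) :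
    ext J M a ∈ bx J (range (M + 1)) := by
  rw [mem_bx]
  refine ⟨fun t ht => ?_, fun t ht => ext_of_not_mem a ht⟩
  rw [ext_of_mem a ht, mem_range]
  exact (a _).isLt

theorem ext_surj {d : ℕ} {J : Finset (Fin d)} {M : ℕ} {p : Fin d → ℕ}
    (hp : p ∈ bx J (range (M + 1))) : ∃ a : Fin J.card → Fin (M + 1), ext J M a = p := by
  rw [mem_bx] at hp
  refine ⟨fun i => ⟨p (J.equivFin.symm i), mem_range.1 (hp.1 _ (J.equivFin.symm i).2)⟩, ?_⟩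
  funext t
  by_cases ht : t ∈ J
  · rw [ext_of_mem _ ht]
    simp
  · rw [ext_of_not_mem _ ht, hp.2 t ht]

theorem ext_inj {d : ℕ} {J : Finset (Fin d)} {M : ℕ} {a b : Fin J.card → Fin (M + 1)}
    (h : ext J M a = ext J M b) : a = b := by
  funext i
  have h1 := congrFun h (J.equivFin.symm i)
  rw [ext_of_mem _ (J.equivFin.symm i).2, ext_of_mem _ (J.equivFin.symm i).2] at h1
  simp only [Subtype.coe_eta, Equiv.apply_symm_apply] at h1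
  exact Fin.ext h1

theorem sum_bx {d : ℕ} (J : Finset (Fin d)) (M : ℕ) (F : (Fin d → ℕ) → ℝ) :
    ∑ p ∈ bx J (range (M + 1)), F p = ∑ a : Fin J.card → Fin (M + 1), F (ext J M a) := by
  symm
  refine sum_nbij (ext J M) (fun a _ => ext_mem a) (fun a _ b _ h => ext_inj h) ?_ fun _ _ => rfl
  intro p hp
  obtain ⟨a, ha⟩ := ext_surj (mem_coe.1 hp)
  exact ⟨a, mem_coe.2 (mem_univ _), ha⟩

theorem sum_ext {d : ℕ} {J : Finset (Fin d)} {M : ℕ} (a : Fin J.card → Fin (M + 1)) :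
    ∑ t, ext J M a t = ∑ i, (a i : ℕ) := by
  have h1 : ∑ t, ext J M a t = ∑ t ∈ J, ext J M a t := by
    symm
    refine sum_subset (subset_univ _) fun t _ ht => ext_of_not_mem a ht
  rw [h1, ← sum_coe_sort, ← Equiv.sum_comp J.equivFin]
  exact sum_congr rfl fun t _ => ext_of_mem a t.2

/-- one level -/
theorem couple_level {n M : ℕ} {s σ₁ σ₂ : ℕ} {e h₀ h₁ : (Fin n → Fin (M + 1)) → ℝ} {κ₁ κ₂ : ℝ}
    (hκ₁ : 0 ≤ κ₁) (hκ₂ : 0 ≤ κ₂) (hh₀ : ∀ x, 0 ≤ h₀ x) (hh₁ : ∀ x, 0 ≤ h₁ x)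
    (hσ : s + σ₁ + σ₂ = n * M) (hL₁ : (L n M s : ℝ) ≤ κ₁ * L n M σ₁)
    (hL₂ : (L n M s : ℝ) ≤ κ₂ * L n M σ₂)
    (hrel : ∀ p ∈ Lev.lev n M s, ∀ x ∈ Lev.lev n M σ₁, ∀ w ∈ Lev.lev n M σ₂,
      (∀ j, (p j : ℕ) + x j + w j = M) → e p ≤ h₀ x + h₁ w) :
    ∑ p ∈ Lev.lev n M s, e p ≤ κ₁ * ∑ x ∈ Lev.lev n M σ₁, h₀ x
      + κ₂ * ∑ w ∈ Lev.lev n M σ₂, h₁ w := by
  have h1 := Lev.li (n := n) (M := M) (j := ![s, σ₁, σ₂]) (κ := 0)
    (g := ![fun p => - e p, h₀, h₁]) (by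
      rw [Fin.sum_univ_three]
      exact hσ) (by
      intro x hx hs
      have h2 := hrel (x 0) (hx 0) (x 1) (hx 1) (x 2) (hx 2) (fun j => by
        have := hs j
        rwa [Fin.sum_univ_three] at this)
      rw [Fin.sum_univ_three]
      show 0 ≤ - e (x 0) + h₀ (x 1) + h₁ (x 2)
      linarith)
  rw [Fin.sum_univ_three] at h1
  have h2 : 0 ≤ (∑ p ∈ Lev.lev n M s, - e p) / ((Lev.lev n M s).card : ℝ)
      + (∑ x ∈ Lev.lev n M σ₁, h₀ x) / ((Lev.lev n M σ₁).card : ℝ)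
      + (∑ w ∈ Lev.lev n M σ₂, h₁ w) / ((Lev.lev n M σ₂).card : ℝ) := h1
  unfold L at hL₁ hL₂
  have hs0 : 0 ≤ ∑ x ∈ Lev.lev n M σ₁, h₀ x := sum_nonneg fun x _ => hh₀ x
  have hs1 : 0 ≤ ∑ w ∈ Lev.lev n M σ₂, h₁ w := sum_nonneg fun x _ => hh₁ x
  rcases (Lev.lev n M s).eq_empty_or_nonempty with h0 | h0
  · rw [h0, sum_empty]
    positivity
  have hp : (0 : ℝ) < ((Lev.lev n M s).card : ℝ) := by exact_mod_cast card_pos.2 h0
  have hp1 : (0 : ℝ) < ((Lev.lev n M σ₁).card : ℝ) := by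
    by_contra hcon
    have h3 : ((Lev.lev n M σ₁).card : ℝ) = 0 :=
      le_antisymm (not_lt.1 hcon) (Nat.cast_nonneg _)
    rw [h3, mul_zero] at hL₁
    linarith
  have hp2 : (0 : ℝ) < ((Lev.lev n M σ₂).card : ℝ) := by
    by_contra hcon
    have h3 : ((Lev.lev n M σ₂).card : ℝ) = 0 :=
      le_antisymm (not_lt.1 hcon) (Nat.cast_nonneg _)
    rw [h3, mul_zero] at hL₂
    linarith
  have h3 := mul_le_mul_of_nonneg_left h2 hp.le
  rw [mul_zero, sum_neg_distrib] at h3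
  have h4 : ((Lev.lev n M s).card : ℝ) * ((∑ x ∈ Lev.lev n M σ₁, h₀ x) /
      ((Lev.lev n M σ₁).card : ℝ)) ≤ κ₁ * ∑ x ∈ Lev.lev n M σ₁, h₀ x := by
    rw [mul_div_assoc', div_le_iff₀ hp1]
    nlinarith [mul_le_mul_of_nonneg_right hL₁ hs0]
  have h5 : ((Lev.lev n M s).card : ℝ) * ((∑ x ∈ Lev.lev n M σ₂, h₁ x) /
      ((Lev.lev n M σ₂).card : ℝ)) ≤ κ₂ * ∑ x ∈ Lev.lev n M σ₂, h₁ x := by
    rw [mul_div_assoc', div_le_iff₀ hp2]
    nlinarith [mul_le_mul_of_nonneg_right hL₂ hs1]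
  have h6 : ((Lev.lev n M s).card : ℝ) * (-(∑ p ∈ Lev.lev n M s, e p) /
      ((Lev.lev n M s).card : ℝ)) = -(∑ p ∈ Lev.lev n M s, e p) := by
    field_simp
  rw [mul_add, mul_add, h6] at h3
  linarith

/-- sums over the images of an at most 2 to 1 level map -/
theorem two_to_one {n M : ℕ} (S : Finset ℕ) (σ : ℕ → ℕ) {h : (Fin n → Fin (M + 1)) → ℝ}
    (hh : ∀ x, 0 ≤ h x) (hf : ∀ j, (S.filter fun s => σ s = j).card ≤ 2) :
    ∑ s ∈ S, ∑ x ∈ Lev.lev n M (σ s), h x ≤ 2 * ∑ x, h x := by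
  have h1 : ∑ s ∈ S, ∑ x ∈ Lev.lev n M (σ s), h x
      = ∑ j ∈ S.image σ, (S.filter fun s => σ s = j).card • ∑ x ∈ Lev.lev n M j, h x :=
    sum_comp (fun j => ∑ x ∈ Lev.lev n M j, h x) σ
  have h2 : ∑ j ∈ S.image σ, (S.filter fun s => σ s = j).card • ∑ x ∈ Lev.lev n M j, h x
      ≤ ∑ j ∈ S.image σ, 2 * ∑ x ∈ Lev.lev n M j, h x := by
    refine sum_le_sum fun j _ => ?_
    rw [nsmul_eq_mul]
    refine mul_le_mul_of_nonneg_right ?_ (sum_nonneg fun x _ => hh x)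
    exact_mod_cast hf j
  have h3 : ∑ j ∈ S.image σ, ∑ x ∈ Lev.lev n M j, h x ≤ ∑ x, h x := by
    have h4 : ∑ j ∈ S.image σ, ∑ x ∈ Lev.lev n M j, h x
        = ∑ j ∈ S.image σ, ∑ x ∈ (univ.filter fun x : Fin n → Fin (M + 1) =>
            ∑ i, (x i : ℕ) ∈ S.image σ).filter (fun x => ∑ i, (x i : ℕ) = j), h x := by
      refine sum_congr rfl fun j hj => sum_congr ?_ fun _ _ => rfl
      ext x
      rw [Lev.mem_lev, mem_filter, mem_filter]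
      constructor
      · intro hx
        exact ⟨⟨mem_univ _, by rw [hx]; exact hj⟩, hx⟩
      · exact fun hx => hx.2
    rw [h4, sum_fiberwise_of_maps_to (fun x hx => (mem_filter.1 hx).2)]
    exact sum_le_sum_of_subset_of_nonneg (subset_univ _) fun x _ _ => hh x
  rw [h1]
  refine h2.trans ?_
  rw [← mul_sum]
  linarith

theorem couple_sum {d : ℕ} (J : Finset (Fin d)) (M : ℕ) (S : Finset ℕ) (σ₁ σ₂ : ℕ → ℕ)
    (e h₀ h₁ : (Fin d → ℕ) → ℕ) {κ₁ κ₂ : ℝ} (hκ₁ : 0 ≤ κ₁) (hκ₂ : 0 ≤ κ₂)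
    (he : ∀ p ∈ bx J (range (M + 1)), ∑ t, p t ∉ S → e p = 0)
    (hσ : ∀ s ∈ S, s + σ₁ s + σ₂ s = J.card * M)
    (hL : ∀ s ∈ S, (L J.card M s : ℝ) ≤ κ₁ * L J.card M (σ₁ s) ∧
      (L J.card M s : ℝ) ≤ κ₂ * L J.card M (σ₂ s))
    (hf₁ : ∀ j, (S.filter fun s => σ₁ s = j).card ≤ 2)
    (hf₂ : ∀ j, (S.filter fun s => σ₂ s = j).card ≤ 2)
    (hrel : ∀ p ∈ bx J (range (M + 1)), ∀ x ∈ bx J (range (M + 1)), ∀ w ∈ bx J (range (M + 1)),
      (∀ j ∈ J, p j + x j + w j = M) → ∑ t, p t ∈ S → ∑ t, x t = σ₁ (∑ t, p t) →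
      e p ≤ h₀ x + h₁ w) :
    (∑ p ∈ bx J (range (M + 1)), (e p : ℝ)) ≤
      2 * κ₁ * (∑ x ∈ bx J (range (M + 1)), (h₀ x : ℝ))
      + 2 * κ₂ * ∑ w ∈ bx J (range (M + 1)), (h₁ w : ℝ) := by
  rw [sum_bx, sum_bx, sum_bx]
  have h1 : ∑ a : Fin J.card → Fin (M + 1), (e (ext J M a) : ℝ)
      = ∑ s ∈ S, ∑ a ∈ Lev.lev J.card M s, (e (ext J M a) : ℝ) := by
    have h2 : ∑ s ∈ S, ∑ a ∈ Lev.lev J.card M s, (e (ext J M a) : ℝ)
        = ∑ s ∈ S, ∑ a ∈ (univ.filter fun a : Fin J.card → Fin (M + 1) =>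
            ∑ i, (a i : ℕ) ∈ S).filter (fun a => ∑ i, (a i : ℕ) = s), (e (ext J M a) : ℝ) := by
      refine sum_congr rfl fun s hs => sum_congr ?_ fun _ _ => rfl
      ext a
      rw [Lev.mem_lev, mem_filter, mem_filter]
      constructor
      · intro hx
        exact ⟨⟨mem_univ _, by rw [hx]; exact hs⟩, hx⟩
      · exact fun hx => hx.2
    rw [h2, sum_fiberwise_of_maps_to (fun x hx => (mem_filter.1 hx).2), sum_filter]
    refine sum_congr rfl fun a _ => ?_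
    by_cases ha : ∑ i, (a i : ℕ) ∈ S
    · rw [if_pos ha]
    · rw [if_neg ha, he _ (ext_mem a) (by rwa [sum_ext]), Nat.cast_zero]
  rw [h1]
  have h2 : ∀ s ∈ S, ∑ a ∈ Lev.lev J.card M s, (e (ext J M a) : ℝ)
      ≤ κ₁ * ∑ x ∈ Lev.lev J.card M (σ₁ s), (h₀ (ext J M x) : ℝ)
        + κ₂ * ∑ w ∈ Lev.lev J.card M (σ₂ s), (h₁ (ext J M w) : ℝ) := by
    intro s hs
    refine couple_level hκ₁ hκ₂ (fun x => Nat.cast_nonneg _) (fun x => Nat.cast_nonneg _)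
      (hσ s hs) (hL s hs).1 (hL s hs).2 fun p hp x hx w hw hpxw => ?_
    rw [Lev.mem_lev] at hp hx hw
    have h3 := hrel _ (ext_mem p) _ (ext_mem x) _ (ext_mem w) (fun j hj => by
      rw [ext_of_mem _ hj, ext_of_mem _ hj, ext_of_mem _ hj]
      exact hpxw _) (by rw [sum_ext, hp]; exact hs) (by rw [sum_ext, sum_ext, hp, hx])
    exact_mod_cast h3
  have h3 := two_to_one (n := J.card) (M := M) S σ₁ (h := fun x => (h₀ (ext J M x) : ℝ))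
    (fun x => Nat.cast_nonneg _) hf₁
  have h4 := two_to_one (n := J.card) (M := M) S σ₂ (h := fun x => (h₁ (ext J M x) : ℝ))
    (fun x => Nat.cast_nonneg _) hf₂
  refine (sum_le_sum h2).trans ?_
  rw [sum_add_distrib, ← mul_sum, ← mul_sum]
  nlinarith [mul_le_mul_of_nonneg_left h3 hκ₁, mul_le_mul_of_nonneg_left h4 hκ₂]

end Pool.Agent.Work.MP_0cd883_co.Exact
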