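import Pool.Agent.Work.MP_0cd883_co.Defs
import Pool.Agent.Work.MP_0cd883_co.Lev.Lev2

/-!
Definitions for the exact theorem: the extended slab `Astar`, boxes, the sets of extra points and
of charged holes of a type `K`, and the two conditions on the numbers of points of the levels.
-/

namespace Pool.Agent.Work.MP_0cd883_co.Exact

open Finset

/-- The extended slab: the points of `[N]^d` of level in `[u, 2u-1]`, the points of level below `u`
with a coordinate `N` and those of level above `2u-1` with a coordinate `1`. -/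
def Astar (d N u : ℕ) : Finset (Fin d → ℕ) :=
  (grid d N).filter fun x => (u ≤ ∑ i, x i ∨ ∃ i, x i = N) ∧ (∑ i, x i + 1 ≤ 2 * u ∨ ∃ i, x i = 1)

/-- functions with values in `s` on `J` and `0` off `J` -/
def bx {d : ℕ} (J : Finset (Fin d)) (s : Finset ℕ) : Finset (Fin d → ℕ) :=
  Fintype.piFinset fun t => if t ∈ J then s else {0}

/-- number of points of level `s` in `{0..M}^n` -/
def L (n M s : ℕ) : ℕ := (Lev.lev n M s).card

/-- low extra points of type `K`: coordinates in `K` within `T` of `N`, the others at least `2g`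
away from `N` -/
def lowE {d : ℕ} (N u T g : ℕ) (A : Finset (Fin d → ℕ)) (K : Finset (Fin d)) :
    Finset (Fin d → ℕ) :=
  A.filter fun p => ∑ j, p j < u ∧ (∀ j ∈ K, N ≤ p j + T ∧ p j < N) ∧ ∀ j ∉ K, p j + 2 * g ≤ N

/-- high extra points of type `K`: coordinates in `K` in `[2, T]`, the others at least `2g` -/
def highE {d : ℕ} (u T g : ℕ) (A : Finset (Fin d → ℕ)) (K : Finset (Fin d)) :
    Finset (Fin d → ℕ) :=
  A.filter fun z => 2 * u ≤ ∑ j, z j ∧ (∀ j ∈ K, 2 ≤ z j ∧ z j ≤ T) ∧ ∀ j ∉ K, 2 * g ≤ z j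

/-- coordinates in `K` at most `T`, the others in `[g, N-g]` -/
def Zs {d : ℕ} (N T g : ℕ) (H : Finset (Fin d → ℕ)) (K : Finset (Fin d)) : Finset (Fin d → ℕ) :=
  H.filter fun x => (∀ j ∈ K, x j ≤ T) ∧ ∀ j ∉ K, g ≤ x j ∧ x j + g ≤ N

/-- coordinates in `K` at least `N-T`, the others in `[g, N-g]` -/
def Os {d : ℕ} (N T g : ℕ) (H : Finset (Fin d → ℕ)) (K : Finset (Fin d)) : Finset (Fin d → ℕ) :=
  H.filter fun x => (∀ j ∈ K, N ≤ x j + T) ∧ ∀ j ∉ K, g ≤ x j ∧ x j + g ≤ N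

/-- condition on the levels for the low extras of a type of size `k` -/
def RatLow (d k N u T g M : ℕ) (κ₁ κ₂ : ℝ) : Prop :=
  ∀ s σ₁ σ₂ : ℕ, s + σ₁ + σ₂ = (d - k) * M → s + k * N ≤ u + k * T →
    2 * σ₁ + s + k * N + 2 * (d - k) * g ≤ 3 * u →
    3 * u ≤ 2 * σ₁ + s + k * N + 2 * (d - k) * g + d + 2 →
    (L (d - k) M s : ℝ) ≤ κ₁ * L (d - k) M σ₁ ∧ (L (d - k) M s : ℝ) ≤ κ₂ * L (d - k) M σ₂

/-- condition on the levels for the high extras of a type of size `k` -/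
def RatHigh (d k N u T g M : ℕ) (κ : ℝ) : Prop :=
  ∀ s σ₁ σ₂ : ℕ, s + σ₁ + σ₂ = (d - k) * M → s + 2 * u ≤ (d - k) * N + k * T →
    2 * σ₁ + s + 2 * (d - k) * g ≤ (d - k) * N →
    (d - k) * N ≤ 2 * σ₁ + s + 2 * (d - k) * g + d →
    (L (d - k) M s : ℝ) ≤ κ * L (d - k) M σ₁ ∧ (L (d - k) M s : ℝ) ≤ κ * L (d - k) M σ₂

end Pool.Agent.Work.MP_0cd883_co.Exact
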