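import Pool.Agent.Work.MP_0cd883_co.Exact.PartC
import Pool.Agent.Work.MP_0cd883_co.Rig.LowFormula

/-!
The exact value of `maxSumFree d N` and the extremal sets, from parts (C) and (T).
-/

namespace Pool.Agent.Work.MP_0cd883_co.Exact

open Finset

/-- part (T): location of the extra points -/
def PartT (m : ℕ) (c : ℝ) : Prop :=
  ∀ ε : ℝ, 0 < ε → ∃ N₀ : ℕ, ∀ N : ℕ, N₀ ≤ N → ∀ A : Finset (Fin (m + 1) → ℕ),
    A ⊆ grid (m + 1) N → SumFree A → (∀ v, (Astar (m + 1) N v).card ≤ A.card) →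
    ∃ u : ℕ, |(u : ℝ) - c * N| ≤ ε * N ∧
      (∀ p ∈ A, ∑ j, p j < u → (∀ j, p j < N) → ∃ j, (N : ℝ) - p j ≤ ε * N) ∧
      (∀ p ∈ A, 2 * u ≤ ∑ j, p j → (∀ j, 2 ≤ p j) → ∃ j, (p j : ℝ) ≤ ε * N)

theorem astar_subset (d N u : ℕ) : Astar d N u ⊆ grid d N := filter_subset _ _

theorem astar_sumFree (d N u : ℕ) : SumFree (Astar d N u) := by
  rw [Rig.Astar_eq_star]
  exact Cube.star_sumFree d N u

/-- large sum-free sets are extended slabs -/
theorem eq_astar {m : ℕ} (hm : 2 ≤ m) {c : ℝ} (hc : ∃ u κ₁ κ₂, Cube.Good m c u κ₁ κ₂)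
    (hT : PartT m c) : ∃ N₀ : ℕ, ∀ N ≥ N₀, ∀ A : Finset (Fin (m + 1) → ℕ),
      A ⊆ grid (m + 1) N → SumFree A → (∀ v, (Astar (m + 1) N v).card ≤ A.card) →
      ∃ u : ℕ, A = Astar (m + 1) N u := by
  classical
  obtain ⟨ε, hε, N₁, hC⟩ := part_c hm hc
  obtain ⟨N₂, hN₂⟩ := hT ε hε
  refine ⟨max N₁ N₂, fun N hN A hA hs hbig => ?_⟩
  obtain ⟨u, hu, hl, hh⟩ := hN₂ N ((le_max_right _ _).trans hN) A hA hs hbig
  have h1 := hC N ((le_max_left _ _).trans hN) u hu A hA hs hl hh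
  refine ⟨u, ?_⟩
  have h2 := card_inter_add_card_sdiff A (Astar (m + 1) N u)
  have h3 := card_inter_add_card_sdiff (Astar (m + 1) N u) A
  rw [inter_comm] at h3
  have h4 := hbig u
  have h5 : ((Astar (m + 1) N u \ A).card : ℝ) ≤ (A \ Astar (m + 1) N u).card := by
    exact_mod_cast (by omega : (Astar (m + 1) N u \ A).card ≤ (A \ Astar (m + 1) N u).card)
  have h6 : (0 : ℝ) ≤ (Astar (m + 1) N u \ A).card := Nat.cast_nonneg _
  have h7 : ((Astar (m + 1) N u \ A).card : ℝ) = 0 := by linarith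
  have h8 : ((A \ Astar (m + 1) N u).card : ℝ) = 0 := by
    have : (0 : ℝ) ≤ (A \ Astar (m + 1) N u).card := Nat.cast_nonneg _
    linarith
  have h9 : (Astar (m + 1) N u \ A).card = 0 := by exact_mod_cast h7
  have h10 : (A \ Astar (m + 1) N u).card = 0 := by exact_mod_cast h8
  rw [card_eq_zero, sdiff_eq_empty_iff_subset] at h9 h10
  exact Subset.antisymm h10 h9

/-- a largest sum-free set exists -/
theorem exists_max (d N : ℕ) : ∃ A : Finset (Fin d → ℕ), A ⊆ grid d N ∧ SumFree A ∧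
    A.card = maxSumFree d N := by
  classical
  unfold maxSumFree
  obtain ⟨A, hA, hAc⟩ := exists_mem_eq_sup ((grid d N).powerset.filter fun A => SumFree A)
    ⟨∅, mem_filter.2 ⟨empty_mem_powerset _, fun x hx => absurd hx (notMem_empty x)⟩⟩ Finset.card
  rw [mem_filter, mem_powerset] at hA
  exact ⟨A, hA.1, hA.2, hAc.symm⟩

theorem card_le_max {d N : ℕ} {A : Finset (Fin d → ℕ)} (hA : A ⊆ grid d N) (hs : SumFree A) :
    A.card ≤ maxSumFree d N := by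
  classical
  unfold maxSumFree
  exact le_sup (f := Finset.card) (mem_filter.2 ⟨mem_powerset.2 hA, hs⟩)

/-- the exact value and the extremal sets -/
theorem exact_of {m : ℕ} (hm : 2 ≤ m) {c : ℝ} (hc : ∃ u κ₁ κ₂, Cube.Good m c u κ₁ κ₂)
    (hT : PartT m c) : ∃ N₀ : ℕ, ∀ N ≥ N₀,
      (∃ u, maxSumFree (m + 1) N = (Astar (m + 1) N u).card) ∧
      (∀ v, (Astar (m + 1) N v).card ≤ maxSumFree (m + 1) N) ∧
      ∀ A : Finset (Fin (m + 1) → ℕ), A ⊆ grid (m + 1) N →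
        ((SumFree A ∧ A.card = maxSumFree (m + 1) N) ↔
          ∃ u, A = Astar (m + 1) N u ∧
            ∀ v, (Astar (m + 1) N v).card ≤ (Astar (m + 1) N u).card) := by
  obtain ⟨N₀, hN₀⟩ := eq_astar hm hc hT
  refine ⟨N₀, fun N hN => ?_⟩
  have hle : ∀ v, (Astar (m + 1) N v).card ≤ maxSumFree (m + 1) N := fun v =>
    card_le_max (astar_subset _ _ _) (astar_sumFree _ _ _)
  obtain ⟨B, hB, hBs, hBc⟩ := exists_max (m + 1) N
  obtain ⟨u, hu⟩ := hN₀ N hN B hB hBs fun v => by rw [hBc]; exact hle v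
  have hmax : maxSumFree (m + 1) N = (Astar (m + 1) N u).card := by rw [← hBc, hu]
  refine ⟨⟨u, hmax⟩, hle, fun A hA => ⟨?_, ?_⟩⟩
  · rintro ⟨hs, hc'⟩
    obtain ⟨w, hw⟩ := hN₀ N hN A hA hs fun v => by rw [hc']; exact hle v
    refine ⟨w, hw, fun v => ?_⟩
    rw [← hw, hc']
    exact hle v
  · rintro ⟨w, hw, hwmax⟩
    refine ⟨hw ▸ astar_sumFree _ _ _, le_antisymm (card_le_max hA (hw ▸ astar_sumFree _ _ _)) ?_⟩
    rw [hmax, hw]
    exact hwmax u

end Pool.Agent.Work.MP_0cd883_co.Exact
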