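import Pool.Agent.Work.MP_0cd883_co.Exact.Defs
import Pool.Agent.Work.MP_0cd883_co.Cube.ModM

/-!
The number of points of a level of the discrete cube against the Irwin-Hall density, and the
comparison of two levels.
-/

namespace Pool.Agent.Work.MP_0cd883_co.Exact

open Finset

theorem sum_cons_nat {n M : ℕ} (x : Fin (n + 1) → Fin (M + 1)) :
    ∑ i, (x i : ℕ) = (x 0 : ℕ) + ∑ i, (Fin.tail x i : ℕ) := by
  rw [Fin.sum_univ_succ]
  rfl

theorem L_eq (n M j : ℕ) : L (n + 1) M j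
    = ((univ : Finset (Fin n → Fin (M + 1))).filter fun x =>
        ∑ i, (x i : ℕ) ≤ j ∧ j ≤ ∑ i, (x i : ℕ) + M).card := by
  unfold L
  refine card_bij (fun x _ => Fin.tail x) ?_ ?_ ?_
  · intro x hx
    rw [Lev.mem_lev, sum_cons_nat] at hx
    rw [mem_filter]
    have := (x 0).isLt
    exact ⟨mem_univ _, by omega, by omega⟩
  · intro x hx y hy h
    rw [Lev.mem_lev, sum_cons_nat] at hx hy
    rw [← h] at hy
    have h0 : x 0 = y 0 := Fin.ext (by omega)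
    rw [← Fin.cons_self_tail x, ← Fin.cons_self_tail y, h0, h]
  · intro y hy
    rw [mem_filter] at hy
    refine ⟨Fin.cons ⟨j - ∑ i, (y i : ℕ), by omega⟩ y, ?_, ?_⟩
    · rw [Lev.mem_lev, sum_cons_nat, Fin.cons_zero, Fin.tail_cons]
      show j - ∑ i, (y i : ℕ) + ∑ i, (y i : ℕ) = j
      omega
    · exact Fin.tail_cons _ _

theorem Av_ind_eq {n M : ℕ} (p : (Fin n → Fin (M + 1)) → Prop) [DecidablePred p] :
    Cube.Av (fun x => Cube.ind (p x)) = ((univ.filter p).card : ℝ) / ((M : ℝ) + 1) ^ n := by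
  unfold Cube.Av
  rw [Cube.sum_ind_card]
  push_cast
  rfl

theorem lev_eq_div {n M : ℕ} (x : Fin n → Fin (M + 1)) :
    Cube.lev x = ((∑ i, (x i : ℕ) : ℕ) : ℝ) / ((M : ℝ) + 1) := by
  unfold Cube.lev
  push_cast
  rfl

theorem cntA_le {n M : ℕ} (hn : 1 ≤ n) (j : ℕ) :
    (((univ : Finset (Fin n → Fin (M + 1))).filter fun x => ∑ i, (x i : ℕ) ≤ j).card : ℝ)
      / ((M : ℝ) + 1) ^ n ≤ Cube.F n ((j + n) / ((M : ℝ) + 1)) := by
  have h := Cube.count_upper (m := n) (N := M + 1) hn (by omega) ((j : ℝ) / ((M : ℝ) + 1))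
  rw [← Av_ind_eq]
  have hM : (0 : ℝ) < (M : ℝ) + 1 := by positivity
  have e : (j : ℝ) / ((M : ℝ) + 1) + (n : ℝ) / ((M + 1 : ℕ) : ℝ) = (j + n) / ((M : ℝ) + 1) := by
    push_cast
    ring
  rw [e] at h
  refine le_trans (Cube.Av_mono fun x => Cube.ind_mono fun hx => ?_) h
  rw [lev_eq_div]
  have : ((∑ i, (x i : ℕ) : ℕ) : ℝ) ≤ j := by exact_mod_cast hx
  gcongr

theorem cntA_ge {n M : ℕ} (hn : 1 ≤ n) (j : ℕ) :
    Cube.F n ((j + 1) / ((M : ℝ) + 1)) ≤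
    (((univ : Finset (Fin n → Fin (M + 1))).filter fun x => ∑ i, (x i : ℕ) ≤ j).card : ℝ)
      / ((M : ℝ) + 1) ^ n := by
  have h := Cube.count_lower (m := n) (N := M + 1) hn (by omega) (((j : ℝ) + 1) / ((M : ℝ) + 1))
  rw [← Av_ind_eq]
  have hM : (0 : ℝ) < (M : ℝ) + 1 := by positivity
  refine le_trans h (Cube.Av_mono fun x => Cube.ind_mono fun hx => ?_)
  rw [lev_eq_div, div_lt_div_iff_of_pos_right hM] at hx
  have : (∑ i, (x i : ℕ)) < j + 1 := by exact_mod_cast hx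
  omega

theorem cntB_le {n M : ℕ} (hn : 1 ≤ n) (j : ℕ) :
    (((univ : Finset (Fin n → Fin (M + 1))).filter fun x => ∑ i, (x i : ℕ) + M < j).card : ℝ)
      / ((M : ℝ) + 1) ^ n ≤ Cube.F n ((j + n) / ((M : ℝ) + 1) - 1) := by
  have h := Cube.count_upper (m := n) (N := M + 1) hn (by omega) (((j : ℝ) - M - 1) / ((M : ℝ) + 1))
  rw [← Av_ind_eq]
  have hM : (0 : ℝ) < (M : ℝ) + 1 := by positivity
  have e : ((j : ℝ) - M - 1) / ((M : ℝ) + 1) + (n : ℝ) / ((M + 1 : ℕ) : ℝ)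
      = (j + n) / ((M : ℝ) + 1) - 1 := by
    push_cast
    field_simp
    ring
  rw [e] at h
  refine le_trans (Cube.Av_mono fun x => Cube.ind_mono fun hx => ?_) h
  rw [lev_eq_div]
  have h1 : (∑ i, (x i : ℕ)) + M + 1 ≤ j := hx
  have : ((∑ i, (x i : ℕ) : ℕ) : ℝ) + M + 1 ≤ j := by exact_mod_cast h1
  gcongr
  linarith

theorem cntB_ge {n M : ℕ} (hn : 1 ≤ n) (j : ℕ) :
    Cube.F n ((j + 1) / ((M : ℝ) + 1) - 1) ≤
    (((univ : Finset (Fin n → Fin (M + 1))).filter fun x => ∑ i, (x i : ℕ) + M < j).card : ℝ)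
      / ((M : ℝ) + 1) ^ n := by
  have h := Cube.count_lower (m := n) (N := M + 1) hn (by omega) (((j : ℝ) - M) / ((M : ℝ) + 1))
  rw [← Av_ind_eq]
  have hM : (0 : ℝ) < (M : ℝ) + 1 := by positivity
  have e : ((j : ℝ) - M) / ((M : ℝ) + 1) = (j + 1) / ((M : ℝ) + 1) - 1 := by
    field_simp
    ring
  rw [e] at h
  refine le_trans h (Cube.Av_mono fun x => Cube.ind_mono fun hx => ?_)
  rw [← e, lev_eq_div, div_lt_div_iff_of_pos_right hM] at hx
  have : ((∑ i, (x i : ℕ) : ℕ) : ℝ) + M < j := by linarith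
  exact_mod_cast this

theorem pow_bound (n : ℕ) {t : ℝ} (h0 : 0 ≤ t) (h1 : t ≤ 1) : (1 + t) ^ n ≤ 1 + (2 ^ n - 1) * t := by
  induction n with
  | zero => simp
  | succ n ih =>
    have h2 : (1 : ℝ) ≤ 2 ^ n := one_le_pow₀ (by norm_num)
    rw [pow_succ, pow_succ]
    nlinarith [mul_le_mul_of_nonneg_right ih (by linarith : (0 : ℝ) ≤ 1 + t),
      mul_nonneg (mul_nonneg (by linarith : (0 : ℝ) ≤ 2 ^ n - 1) h0) (by linarith : (0 : ℝ) ≤ 1 - t)]

theorem lev_count {n : ℕ} (hn : 1 ≤ n) : ∃ C : ℝ, 0 ≤ C ∧ ∀ M : ℕ, 1 ≤ M → ∀ j : ℕ,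
    |(L (n + 1) M j : ℝ) / (M : ℝ) ^ n - Cube.f (n + 1) (j / M)| ≤ C / M := by
  refine ⟨2 * (n + 1) + 2 ^ n, by positivity, fun M hM j => ?_⟩
  have hM0 : (0 : ℝ) < M := by exact_mod_cast hM
  have hM1 : (1 : ℝ) ≤ M := by exact_mod_cast hM
  have hM' : (0 : ℝ) < (M : ℝ) + 1 := by positivity
  have hC : (0 : ℝ) ≤ 2 * (n + 1) + 2 ^ n := by positivity
  rcases Nat.lt_or_ge ((n + 1) * M) j with hj | hj
  · -- empty level
    have h1 : L (n + 1) M j = 0 := by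
      unfold L
      rw [card_eq_zero, eq_empty_iff_forall_notMem]
      intro x hx
      rw [Lev.mem_lev] at hx
      have h2 : ∑ i, (x i : ℕ) ≤ ∑ _i : Fin (n + 1), M :=
        sum_le_sum fun i _ => by have := (x i).isLt; omega
      rw [sum_const, card_univ, Fintype.card_fin, smul_eq_mul] at h2
      omega
    have h2 : Cube.f (n + 1) (j / M) = 0 := by
      refine Cube.f_eq_zero_right (by omega) ?_
      rw [le_div_iff₀ hM0]
      exact_mod_cast hj.le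
    rw [h1, h2, Nat.cast_zero, zero_div, sub_zero, abs_zero]
    positivity
  -- main case
  have hj' : (j : ℝ) ≤ (n + 1) * M := by exact_mod_cast hj
  have hL : (L (n + 1) M j : ℝ)
      = (((univ : Finset (Fin n → Fin (M + 1))).filter fun x => ∑ i, (x i : ℕ) ≤ j).card : ℝ)
        - (((univ : Finset (Fin n → Fin (M + 1))).filter fun x => ∑ i, (x i : ℕ) + M < j).card : ℝ)
      := by
    have h1 : ((univ : Finset (Fin n → Fin (M + 1))).filter fun x => ∑ i, (x i : ℕ) + M < j)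
        ⊆ ((univ : Finset (Fin n → Fin (M + 1))).filter fun x => ∑ i, (x i : ℕ) ≤ j) := by
      intro x hx
      rw [mem_filter] at hx ⊢
      exact ⟨mem_univ _, by omega⟩
    have h2 : ((univ : Finset (Fin n → Fin (M + 1))).filter fun x =>
        ∑ i, (x i : ℕ) ≤ j ∧ j ≤ ∑ i, (x i : ℕ) + M)
        = ((univ : Finset (Fin n → Fin (M + 1))).filter fun x => ∑ i, (x i : ℕ) ≤ j) \
          ((univ : Finset (Fin n → Fin (M + 1))).filter fun x => ∑ i, (x i : ℕ) + M < j) := by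
      ext x
      simp only [mem_filter, mem_univ, true_and, mem_sdiff, not_lt]
    rw [L_eq, h2, card_sdiff_of_subset h1, Nat.cast_sub (card_le_card h1)]
  have a1 := cntA_le (M := M) hn j
  have a2 := cntA_ge (M := M) hn j
  have b1 := cntB_le (M := M) hn j
  have b2 := cntB_ge (M := M) hn j
  have hup : (L (n + 1) M j : ℝ) / ((M : ℝ) + 1) ^ n
      ≤ Cube.F n ((j + n) / ((M : ℝ) + 1)) - Cube.F n ((j + 1) / ((M : ℝ) + 1) - 1) := by
    rw [hL, sub_div]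
    linarith
  have hlo : Cube.F n ((j + 1) / ((M : ℝ) + 1)) - Cube.F n ((j + n) / ((M : ℝ) + 1) - 1)
      ≤ (L (n + 1) M j : ℝ) / ((M : ℝ) + 1) ^ n := by
    rw [hL, sub_div]
    linarith
  -- the arguments are close to `j / M`
  have hn0 : (1 : ℝ) ≤ n := by exact_mod_cast hn
  have hj0 : (0 : ℝ) ≤ j := Nat.cast_nonneg j
  have e1 : |((j : ℝ) + n) / ((M : ℝ) + 1) - j / M| ≤ (n + 1) / ((M : ℝ) + 1) := by
    have e : ((j : ℝ) + n) / ((M : ℝ) + 1) - j / M = (n - j / M) / ((M : ℝ) + 1) := by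
      field_simp
      ring
    have h3 : (j : ℝ) / M ≤ n + 1 := by
      rw [div_le_iff₀ hM0]
      exact hj'
    have h4 : (0 : ℝ) ≤ j / M := by positivity
    rw [e, abs_div, abs_of_pos hM']
    refine div_le_div_of_nonneg_right ?_ hM'.le
    rw [abs_le]
    constructor <;> linarith
  have e2 : |((j : ℝ) + 1) / ((M : ℝ) + 1) - j / M| ≤ (n + 1) / ((M : ℝ) + 1) := by
    have e : ((j : ℝ) + 1) / ((M : ℝ) + 1) - j / M = (1 - j / M) / ((M : ℝ) + 1) := by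
      field_simp
      ring
    have h3 : (j : ℝ) / M ≤ n + 1 := by
      rw [div_le_iff₀ hM0]
      exact hj'
    have h4 : (0 : ℝ) ≤ j / M := by positivity
    rw [e, abs_div, abs_of_pos hM']
    refine div_le_div_of_nonneg_right ?_ hM'.le
    rw [abs_le]
    constructor <;> linarith
  have f1 := Cube.F_lip hn ((j + n) / ((M : ℝ) + 1)) (j / M)
  have f2 := Cube.F_lip hn ((j + 1) / ((M : ℝ) + 1) - 1) (j / M - 1)
  have f3 := Cube.F_lip hn ((j + 1) / ((M : ℝ) + 1)) (j / M)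
  have f4 := Cube.F_lip hn ((j + n) / ((M : ℝ) + 1) - 1) (j / M - 1)
  rw [sub_sub_sub_cancel_right] at f2 f4
  have g1 := abs_le.1 (f1.trans e1)
  have g2 := abs_le.1 (f2.trans e2)
  have g3 := abs_le.1 (f3.trans e2)
  have g4 := abs_le.1 (f4.trans e1)
  have hlast : (n + 1) / ((M : ℝ) + 1) ≤ (n + 1) / (M : ℝ) := by gcongr; linarith
  have h5 : |(L (n + 1) M j : ℝ) / ((M : ℝ) + 1) ^ n - Cube.f (n + 1) (j / M)|
      ≤ 2 * ((n + 1) / (M : ℝ)) := by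
    rw [Cube.f_succ, abs_le]
    constructor <;> linarith [g1.1, g1.2, g2.1, g2.2, g3.1, g3.2, g4.1, g4.2]
  -- change of the normalisation
  have h6 : (L (n + 1) M j : ℝ) / ((M : ℝ) + 1) ^ n ≤ 1 := by
    have := Cube.F_le_one n ((j + n) / ((M : ℝ) + 1))
    have := Cube.F_nonneg n ((j + 1) / ((M : ℝ) + 1) - 1)
    linarith
  have h60 : 0 ≤ (L (n + 1) M j : ℝ) / ((M : ℝ) + 1) ^ n := by positivity
  have h7 : (L (n + 1) M j : ℝ) / (M : ℝ) ^ n
      = (L (n + 1) M j : ℝ) / ((M : ℝ) + 1) ^ n * (1 + 1 / (M : ℝ)) ^ n := by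
    have e : (1 + 1 / (M : ℝ)) = ((M : ℝ) + 1) / M := by field_simp
    rw [e, div_pow]
    field_simp
  have h8 := pow_bound n (t := 1 / (M : ℝ)) (by positivity) (by rw [div_le_one hM0]; exact hM1)
  have h9 : (1 : ℝ) ≤ (1 + 1 / (M : ℝ)) ^ n := one_le_pow₀ (by
    have : (0 : ℝ) ≤ 1 / (M : ℝ) := by positivity
    linarith)
  have h10 : |(L (n + 1) M j : ℝ) / (M : ℝ) ^ n - (L (n + 1) M j : ℝ) / ((M : ℝ) + 1) ^ n|
      ≤ (2 ^ n) * (1 / (M : ℝ)) := by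
    rw [h7, abs_of_nonneg (by nlinarith)]
    have h11 : (0 : ℝ) ≤ 1 / (M : ℝ) := by positivity
    nlinarith
  have h12 : 2 * ((n + 1) / (M : ℝ)) + (2 ^ n) * (1 / (M : ℝ)) = (2 * (n + 1) + 2 ^ n) / (M : ℝ) := by
    ring
  rw [← h12]
  have h13 := abs_add_le ((L (n + 1) M j : ℝ) / (M : ℝ) ^ n - (L (n + 1) M j : ℝ) / ((M : ℝ) + 1) ^ n)
    ((L (n + 1) M j : ℝ) / ((M : ℝ) + 1) ^ n - Cube.f (n + 1) (j / M))
  rw [sub_add_sub_cancel] at h13
  linarith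

theorem ratio_core {n : ℕ} (hn : 2 ≤ n) {f₀ δ : ℝ} (hf : 0 < f₀) (hδ : 0 < δ) :
    ∃ ε > 0, ∃ M₀ : ℕ, ∀ M ≥ M₀, ∀ κ a b : ℝ, ∀ s σ : ℕ, 0 ≤ κ → κ ≤ 1 →
      Cube.f n a ≤ κ * Cube.f n b → f₀ ≤ Cube.f n b → |(s : ℝ) / M - a| ≤ ε →
      |(σ : ℝ) / M - b| ≤ ε → (L n M s : ℝ) ≤ (κ + δ) * L n M σ := by
  obtain ⟨n, rfl⟩ : ∃ n', n = n' + 1 := ⟨n - 1, by omega⟩
  obtain ⟨C, hC0, hC⟩ := lev_count (n := n) (by omega)
  refine ⟨δ * f₀ / (2 * (2 + δ)), by positivity, Nat.ceil (2 * (2 + δ) * C / (δ * f₀)) + 1,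
    fun M hM κ a b s σ hκ0 hκ1 hab hfb hs hσ => ?_⟩
  have hM1 : 1 ≤ M := by omega
  have hM0 : (0 : ℝ) < M := by exact_mod_cast hM1
  have hCM : C / M ≤ δ * f₀ / (2 * (2 + δ)) := by
    have h1 : 2 * (2 + δ) * C / (δ * f₀) ≤ M := by
      have h2 := Nat.le_ceil (2 * (2 + δ) * C / (δ * f₀))
      have h3 : ((Nat.ceil (2 * (2 + δ) * C / (δ * f₀)) + 1 : ℕ) : ℝ) ≤ M := by exact_mod_cast hM
      push_cast at h3
      linarith
    rw [div_le_iff₀ (by positivity)] at h1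
    rw [div_le_div_iff₀ hM0 (by positivity)]
    linarith
  have h1 := abs_le.1 (hC M hM1 s)
  have h2 := abs_le.1 (hC M hM1 σ)
  have h3 := abs_le.1 ((Cube.f_lip (n := n + 1) hn (s / M) a).trans hs)
  have h4 := abs_le.1 ((Cube.f_lip (n := n + 1) hn (σ / M) b).trans hσ)
  set ε := δ * f₀ / (2 * (2 + δ)) with hε
  have hε' : (2 + δ) * (2 * ε) = δ * f₀ := by
    rw [hε]
    field_simp
  have hpow : (0 : ℝ) < (M : ℝ) ^ n := by positivity
  have h5 : (L (n + 1) M s : ℝ) / (M : ℝ) ^ n ≤ Cube.f (n + 1) a + 2 * ε := by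
    linarith [h1.2, h3.2]
  have h6 : Cube.f (n + 1) b - 2 * ε ≤ (L (n + 1) M σ : ℝ) / (M : ℝ) ^ n := by
    linarith [h2.1, h4.1]
  have hεpos : 0 < ε := by positivity
  have h7 : (L (n + 1) M s : ℝ) / (M : ℝ) ^ n ≤ (κ + δ) * ((L (n + 1) M σ : ℝ) / (M : ℝ) ^ n) := by
    have h8 : (κ + δ) * (Cube.f (n + 1) b - 2 * ε) ≤ (κ + δ) * ((L (n + 1) M σ : ℝ) / (M : ℝ) ^ n) :=
      mul_le_mul_of_nonneg_left h6 (by linarith)
    nlinarith [mul_le_mul_of_nonneg_left hfb hδ.le, mul_nonneg hεpos.le (by linarith : 0 ≤ 1 - κ)]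
  rw [← mul_div_assoc, div_le_div_iff_of_pos_right hpow] at h7
  exact h7

end Pool.Agent.Work.MP_0cd883_co.Exact
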