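import Pool.Agent.Work.MP_0cd883_co.Exact.Defs
import Pool.Agent.Work.MP_0cd883_co.Cube.ModI2

/-!
The numerical inequalities for all types: `k = 1` from `Good` and `k ≥ 2` from `Cube.f_log'`.
-/

namespace Pool.Agent.Work.MP_0cd883_co.Exact

open Finset

namespace NumK

/-- an inequality between continuous functions extends to the closed interval -/
theorem close {φ : ℝ → ℝ} (hφ : Continuous φ) {b : ℝ} (hb : 0 < b)
    (h : ∀ t, 0 < t → t < b → 0 ≤ φ t) : ∀ t, 0 ≤ t → t ≤ b → 0 ≤ φ t := by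
  intro t h0 h1
  have hcl : IsClosed {t : ℝ | 0 ≤ φ t} := isClosed_le continuous_const hφ
  have hsub : Set.Ioo 0 b ⊆ {t : ℝ | 0 ≤ φ t} := fun t ht => h t ht.1 ht.2
  have h2 := closure_minimal hsub hcl
  rw [closure_Ioo hb.ne] at h2
  exact h2 ⟨h0, h1⟩

theorem exp_small : Real.exp (-(8 / 5)) ≤ 202 / 1000 := Cube.ModI.exp_a

/-- types of size at least two -/
theorem two {m : ℕ} (hm : 2 ≤ m) {c u κ₁ κ₂ : ℝ} (hc : Cube.Good m c u κ₁ κ₂) {k : ℕ}
    (hk : 2 ≤ k) (hkc : (k : ℝ) ≤ c) : ∃ κ₁ κ₂ κ₃ : ℝ, 0 ≤ κ₁ ∧ 0 ≤ κ₂ ∧ 0 ≤ κ₃ ∧ κ₁ ≤ 1 ∧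
      κ₂ ≤ 1 ∧ κ₃ ≤ 1 ∧ 2 ^ k * κ₁ + 2 ^ (k + 1) * κ₃ ≤ 49 / 50 ∧ 2 ^ k * κ₂ ≤ 49 / 50 ∧
      (∀ t : ℝ, 0 ≤ t → t ≤ c - k →
        Cube.f (m + 1 - k) (c - k - t) ≤ κ₁ * Cube.f (m + 1 - k) (c + t / 2) ∧
        Cube.f (m + 1 - k) (c - k - t) ≤ κ₂ * Cube.f (m + 1 - k) (m + 1 - 2 * c + t / 2)) ∧
      (∀ t : ℝ, 0 ≤ t → t ≤ m + 1 - 2 * c - k →
        Cube.f (m + 1 - k) (m + 1 - 2 * c - k - t) ≤ κ₃ * Cube.f (m + 1 - k) (c + t / 2)) := by
  have hcl := hc.lt_c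
  have hcu := hc.c_lt
  have hk2 : (2 : ℝ) ≤ k := by exact_mod_cast hk
  have hcast : ((m + 1 : ℕ) : ℝ) = m + 1 := by push_cast; ring
  rw [hcast] at hcl hcu
  have hm4 : 4 ≤ m := by
    have : (3 : ℝ) < m := by linarith
    have : 3 < m := by exact_mod_cast this
    omega
  obtain ⟨h, hh⟩ : ∃ h : ℝ, h = c - ((m + 1 : ℕ) : ℝ) / 3 := ⟨_, rfl⟩
  have ec : c = ((m + 1 : ℕ) : ℝ) / 3 + h := by rw [hh]; ring
  have hh0 : 0 < h := by rw [hh, hcast]; linarith
  have hh1 : h < ((m + 1 : ℕ) : ℝ) / 6 := by rw [hh, hcast]; linarith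
  have hu : u = m + 1 - 2 * c := by have := hc.sum; linarith
  have h2 : Cube.f (m + 1) (((m + 1 : ℕ) : ℝ) / 3 + h) =
      2 * Cube.f (m + 1) (((m + 1 : ℕ) : ℝ) / 3 - 2 * h) := by
    rw [← ec, hc.crit, hu]
    congr 2
    rw [ec, hcast]; ring
  obtain ⟨hlo, hhi⟩ := Cube.ModI.crit_bounds (by omega) hh0 hh1 h2
  rw [hcast] at ec
  have hm5 : (4 : ℝ) < m := by linarith
  have hm5' : 5 ≤ m := by
    have : 4 < m := by exact_mod_cast hm5
    omega
  have hkm : (k : ℝ) + 3 < m + 1 := by linarith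
  have hkm' : k + 3 < m + 1 := by exact_mod_cast hkm
  obtain ⟨n, hn⟩ : ∃ n : ℕ, n = m + 1 - k := ⟨_, rfl⟩
  have hn4 : 4 ≤ n := by omega
  have hnc : (n : ℝ) = m + 1 - k := by
    rw [hn, Nat.cast_sub (by omega)]
    push_cast
    ring
  have hqpos : 0 < Real.exp (-(8 / 5)) := Real.exp_pos _
  have hq := exp_small
  set q := Real.exp (-(8 / 5)) with hqd
  have hqk : Real.exp (-(8 / 5 * k)) = q ^ k := by
    rw [hqd, ← Real.exp_nat_mul]
    congr 1
    ring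
  have hpow : (2 * q) ^ k ≤ 164 / 1000 := by
    calc (2 * q) ^ k ≤ (2 * q) ^ 2 := pow_le_pow_of_le_one (by positivity) (by linarith) hk
      _ ≤ (404 / 1000) ^ 2 := by gcongr; linarith
      _ ≤ 164 / 1000 := by norm_num
  have hpow1 : q ^ k ≤ 41 / 1000 := by
    calc q ^ k ≤ q ^ 2 := pow_le_pow_of_le_one (by positivity) (by linarith) hk
      _ ≤ (202 / 1000) ^ 2 := by gcongr
      _ ≤ 41 / 1000 := by norm_num
  have he : Real.exp 1 < 272 / 100 := by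
    have := Real.exp_one_lt_d9
    linarith
  have he0 := Real.exp_pos 1
  have hqk0 : 0 < q ^ k := by positivity
  refine ⟨q ^ k, q ^ k * Real.exp 1, q ^ k, hqk0.le, by positivity, hqk0.le, by linarith, ?_,
    by linarith, ?_, ?_, ?_, ?_⟩
  · nlinarith
  · have e1 : (2 : ℝ) ^ k * q ^ k + 2 ^ (k + 1) * q ^ k = 3 * (2 * q) ^ k := by
      rw [mul_pow, pow_succ]; ring
    rw [e1]
    linarith
  · have e1 : (2 : ℝ) ^ k * (q ^ k * Real.exp 1) = (2 * q) ^ k * Real.exp 1 := by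
      rw [mul_pow]; ring
    rw [e1]
    have : 0 < (2 * q) ^ k := by positivity
    nlinarith
  · intro t ht0 ht1
    rw [← hn]
    constructor
    · have := Cube.ModI.f_log' hn4 (x := c + t / 2) (y := c - k - t) (E := 8 / 5 * k)
        (by linarith) (by rw [hnc]; linarith) (by
          rw [hnc]
          have e2 : (c + t / 2 - (c - k - t)) * ((m : ℝ) + 1 - k - (c + t / 2) - (c - k - t)) =
              (k + 3 * t / 2) * ((m + 1 - 2 * c) + t / 2) := by ring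
          rw [e2]
          have e3 : (m : ℝ) + 1 - 2 * c = (m + 1) / 3 - 2 * h := by rw [ec]; ring
          rw [e3]
          nlinarith [mul_nonneg ht0 (by linarith : (0 : ℝ) ≤ k), mul_nonneg ht0 ht0,
            mul_nonneg ht0 (by linarith : (0 : ℝ) ≤ (m + 1) / 3 - 2 * h)])
      rw [hqk] at this
      linarith
    · have := Cube.ModI.f_log' hn4 (x := m + 1 - 2 * c + t / 2) (y := c - k - t)
        (E := 8 / 5 * (k - 3 * h))
        (by linarith) (by rw [hnc]; linarith) (by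
          rw [hnc]
          have e2 : ((m : ℝ) + 1 - 2 * c + t / 2 - (c - k - t)) *
              ((m : ℝ) + 1 - k - (m + 1 - 2 * c + t / 2) - (c - k - t)) =
              ((m + 1 - 3 * c) + k + 3 * t / 2) * (c + t / 2) := by ring
          rw [e2]
          have e3 : (m : ℝ) + 1 - 3 * c = - (3 * h) := by rw [ec]; ring
          rw [e3, ec]
          nlinarith [mul_nonneg ht0 (by linarith : (0 : ℝ) ≤ k - 3 * h), mul_nonneg ht0 ht0,
            mul_nonneg ht0 (by linarith : (0 : ℝ) ≤ (m + 1) / 3 + h),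
            mul_nonneg (by linarith : (0 : ℝ) ≤ k - 3 * h) (by linarith : (0 : ℝ) ≤ k + 3 * h)])
      refine this.trans ?_
      have e4 : Real.exp (-(8 / 5 * (k - 3 * h))) ≤ q ^ k * Real.exp 1 := by
        rw [← hqk, ← Real.exp_add]
        exact Real.exp_le_exp.2 (by linarith)
      have := mul_le_mul_of_nonneg_left e4 (Cube.f_nonneg n (m + 1 - 2 * c + t / 2))
      linarith
  · intro t ht0 ht1
    rw [← hn]
    have := Cube.ModI.f_log' hn4 (x := c + t / 2) (y := m + 1 - 2 * c - k - t) (E := 8 / 5 * k)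
      (by linarith) (by rw [hnc]; linarith) (by
        rw [hnc]
        have e2 : (c + t / 2 - ((m : ℝ) + 1 - 2 * c - k - t)) *
            ((m : ℝ) + 1 - k - (c + t / 2) - (m + 1 - 2 * c - k - t)) =
            ((3 * c - (m + 1)) + k + 3 * t / 2) * (c + t / 2) := by ring
        rw [e2]
        have e3 : 3 * c - ((m : ℝ) + 1) = 3 * h := by rw [ec]; ring
        rw [e3, ec]
        nlinarith [mul_nonneg ht0 (by linarith : (0 : ℝ) ≤ k + 3 * h), mul_nonneg ht0 ht0,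
          mul_nonneg ht0 (by linarith : (0 : ℝ) ≤ (m + 1) / 3 + h),
          mul_nonneg hh0.le (by linarith : (0 : ℝ) ≤ (m + 1) / 3 + h),
          mul_nonneg hh0.le (by linarith : (0 : ℝ) ≤ k)])
    rw [hqk] at this
    linarith

end NumK

/-- the numerical inequalities for all types -/
theorem num_k {m : ℕ} (hm : 2 ≤ m) {c : ℝ} (hc : ∃ u κ₁ κ₂, Cube.Good m c u κ₁ κ₂) :
    ∀ k : ℕ, 1 ≤ k → (k : ℝ) ≤ c → ∃ κ₁ κ₂ κ₃ : ℝ, 0 ≤ κ₁ ∧ 0 ≤ κ₂ ∧ 0 ≤ κ₃ ∧ κ₁ ≤ 1 ∧ κ₂ ≤ 1 ∧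
      κ₃ ≤ 1 ∧ 2 ^ k * κ₁ + 2 ^ (k + 1) * κ₃ ≤ 49 / 50 ∧ 2 ^ k * κ₂ ≤ 49 / 50 ∧
      (∀ t : ℝ, 0 ≤ t → t ≤ c - k →
        Cube.f (m + 1 - k) (c - k - t) ≤ κ₁ * Cube.f (m + 1 - k) (c + t / 2) ∧
        Cube.f (m + 1 - k) (c - k - t) ≤ κ₂ * Cube.f (m + 1 - k) (m + 1 - 2 * c + t / 2)) ∧
      (∀ t : ℝ, 0 ≤ t → t ≤ m + 1 - 2 * c - k →
        Cube.f (m + 1 - k) (m + 1 - 2 * c - k - t) ≤ κ₃ * Cube.f (m + 1 - k) (c + t / 2)) := by
  obtain ⟨u, κ₁, κ₂, hG⟩ := hc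
  intro k hk1 hkc
  rcases (by omega : k = 1 ∨ 2 ≤ k) with rfl | hk2
  swap
  · exact NumK.two hm hG hk2 hkc
  have hu : u = m + 1 - 2 * c := by have := hG.sum; linarith
  have hfc := Cube.f_continuous hm
  have h1c := hG.one_lt
  have hl := hG.load
  have hk1' := hG.k1_nonneg
  have hk2' := hG.k2_nonneg
  have hcm : m + 1 - 1 = m := by omega
  rw [hcm]
  refine ⟨κ₁, 49 / 100, κ₂, hk1', by norm_num, hk2', by linarith, by norm_num, by linarith,
    by norm_num; linarith, by norm_num, ?_, ?_⟩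
  · intro t ht0 ht1
    push_cast at ht1 ⊢
    constructor
    · have := NumK.close (φ := fun t => κ₁ * Cube.f m (c + t / 2) - Cube.f m (c - 1 - t))
        (by fun_prop) (b := c - 1) (by linarith) (fun t h0 h1 => by
          have := hG.b1 t h0 h1
          linarith) t ht0 ht1
      linarith
    · have := NumK.close (φ := fun t => 49 / 100 * Cube.f m (m + 1 - 2 * c + t / 2) -
          Cube.f m (c - 1 - t))
        (by fun_prop) (b := c - 1) (by linarith) (fun t h0 h1 => by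
          have := hG.b2 t h0 h1
          rw [hu] at this
          linarith) t ht0 ht1
      linarith
  · intro t ht0 ht1
    push_cast at ht1 ⊢
    rcases lt_or_ge 0 ((m : ℝ) + 1 - 2 * c - 1) with hp | hp
    · have := NumK.close (φ := fun t => κ₂ * Cube.f m (c + t / 2) -
          Cube.f m (m + 1 - 2 * c - 1 - t))
        (by fun_prop) (b := m + 1 - 2 * c - 1) hp (fun t h0 h1 => by
          have := hG.b3 t h0 (by rw [hu]; exact h1)
          rw [hu] at this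
          linarith) t ht0 ht1
      linarith
    · rw [Cube.f_eq_zero_left hm (by linarith)]
      exact mul_nonneg hk2' (Cube.f_nonneg _ _)

end Pool.Agent.Work.MP_0cd883_co.Exact
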