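import Pool.Agent.Work.MP_0cd883_co.Exact.NumK

/-!
The conditions on the numbers of points of the levels hold, given the estimate `RC` of the ratio of
two levels.
-/

namespace Pool.Agent.Work.MP_0cd883_co.Exact

open Finset

/-- estimate of the ratio of two levels -/
def RC (n : ℕ) : Prop := ∀ f₀ δ : ℝ, 0 < f₀ → 0 < δ → ∃ ε > 0, ∃ M₀ : ℕ, ∀ M ≥ M₀,
    ∀ κ a b : ℝ, ∀ s σ : ℕ, 0 ≤ κ → κ ≤ 1 → Cube.f n a ≤ κ * Cube.f n b → f₀ ≤ Cube.f n b →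
      |(s : ℝ) / M - a| ≤ ε → |(σ : ℝ) / M - b| ≤ ε → (L n M s : ℝ) ≤ (κ + δ) * L n M σ

namespace RatAll

theorem fmin {n : ℕ} (hn : 2 ≤ n) {x₀ x₁ : ℝ} (h0 : 0 < x₀) (h1 : x₁ < n) :
    ∃ f₀ : ℝ, 0 < f₀ ∧ ∀ b, x₀ ≤ b → b ≤ x₁ → f₀ ≤ Cube.f n b := by
  rcases lt_or_ge x₁ x₀ with h | h
  · exact ⟨1, one_pos, fun b hb hb' => by linarith⟩
  · obtain ⟨b, hb, hmin⟩ := (isCompact_Icc (a := x₀) (b := x₁)).exists_isMinOn
      ⟨x₀, le_rfl, h⟩ (Cube.f_continuous hn).continuousOn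
    exact ⟨Cube.f n b, Cube.f_pos hn (h0.trans_le hb.1) (hb.2.trans_lt h1),
      fun b' h2 h3 => hmin ⟨h2, h3⟩⟩

/-- the abstract form of both conditions -/
theorem use {n : ℕ} (hn : 2 ≤ n) (hR : RC n) {A c B : ℝ} (hA : 0 ≤ A) (hsum : A + c + B = n)
    (hc : 0 < c) (hB : 0 < B) (hcA : c + A / 2 < n) (hBA : B + A / 2 < n) {κ₁ κ₂ : ℝ}
    (h1 : 0 ≤ κ₁) (h1' : κ₁ ≤ 1) (h2 : 0 ≤ κ₂) (h2' : κ₂ ≤ 1)
    (H : ∀ t : ℝ, 0 ≤ t → t ≤ A → Cube.f n (A - t) ≤ κ₁ * Cube.f n (c + t / 2) ∧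
      Cube.f n (A - t) ≤ κ₂ * Cube.f n (B + t / 2)) {δ : ℝ} (hδ : 0 < δ) :
    ∃ e > 0, ∃ M₀ : ℕ, ∀ M ≥ M₀, ∀ s σ₁ σ₂ : ℕ, s + σ₁ + σ₂ = n * M →
      -(e * M) ≤ A * M - s → |2 * (σ₁ : ℝ) + s - (2 * c + A) * M| ≤ e * M →
      (L n M s : ℝ) ≤ (κ₁ + δ) * L n M σ₁ ∧ (L n M s : ℝ) ≤ (κ₂ + δ) * L n M σ₂ := by
  obtain ⟨f₁, hf₁, hf₁'⟩ := fmin hn (x₀ := c) (x₁ := c + A / 2) hc hcA
  obtain ⟨f₂, hf₂, hf₂'⟩ := fmin hn (x₀ := B) (x₁ := B + A / 2) hB hBA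
  obtain ⟨ε₁, hε₁, M₁, hM₁⟩ := hR f₁ δ hf₁ hδ
  obtain ⟨ε₂, hε₂, M₂, hM₂⟩ := hR f₂ δ hf₂ hδ
  refine ⟨min ε₁ ε₂ / 3, by positivity, max (max M₁ M₂) 1, ?_⟩
  intro M hM s σ₁ σ₂ hs hlow hab
  have hMM₁ : M₁ ≤ M := le_trans (le_trans (le_max_left _ _) (le_max_left _ _)) hM
  have hMM₂ : M₂ ≤ M := le_trans (le_trans (le_max_right _ _) (le_max_left _ _)) hM
  have hM1 : 1 ≤ M := le_trans (le_max_right _ _) hM
  have hM0 : (0 : ℝ) < M := by exact_mod_cast hM1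
  set e := min ε₁ ε₂ / 3 with he
  have he1 : 3 * e ≤ ε₁ := by rw [he]; have := min_le_left ε₁ ε₂; linarith
  have he2 : 3 * e ≤ ε₂ := by rw [he]; have := min_le_right ε₁ ε₂; linarith
  have he0 : 0 < e := by rw [he]; positivity
  obtain ⟨t, ht⟩ : ∃ t : ℝ, t = A - s / M := ⟨_, rfl⟩
  have hsM : (s : ℝ) = (A - t) * M := by rw [ht]; field_simp; ring
  have hs0 : (0 : ℝ) ≤ s := Nat.cast_nonneg s
  have htA : t ≤ A := by
    rw [ht]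
    have : 0 ≤ (s : ℝ) / M := by positivity
    linarith
  have hte : -e ≤ t := by
    have h3 : -(e * M) ≤ t * M := by rw [hsM] at hlow; linarith
    by_contra hcon
    push Not at hcon
    nlinarith
  obtain ⟨σ, hσ⟩ : ∃ σ : ℝ, σ = σ₁ / M := ⟨_, rfl⟩
  have hσM : (σ₁ : ℝ) = σ * M := by rw [hσ]; field_simp
  have hσb : |2 * σ - 2 * c - t| ≤ e := by
    have e1 : 2 * (σ₁ : ℝ) + s - (2 * c + A) * M = (2 * σ - 2 * c - t) * M := by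
      rw [hσM, hsM]; ring
    rw [e1, abs_mul, abs_of_pos hM0] at hab
    exact le_of_mul_le_mul_right hab hM0
  have hσ₂ : (σ₂ : ℝ) / M = n - (A - t) - σ := by
    have h3 : (s : ℝ) + σ₁ + σ₂ = n * M := by exact_mod_cast hs
    rw [div_eq_iff hM0.ne']
    rw [hsM, hσM] at h3
    linarith
  have hsd : (s : ℝ) / M = A - t := by rw [hsM]; field_simp
  rw [abs_le] at hσb
  have ht' : |t - max t 0| ≤ e := by
    rcases le_total t 0 with h | h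
    · rw [max_eq_right h, abs_le]; constructor <;> linarith
    · rw [max_eq_left h, sub_self, abs_zero]; exact he0.le
  rw [abs_le] at ht'
  obtain ⟨H1, H2⟩ := H (max t 0) (le_max_right _ _) (max_le htA hA)
  have hm0 : (0 : ℝ) ≤ max t 0 := le_max_right _ _
  have hmA : max t 0 ≤ A := max_le htA hA
  constructor
  · refine hM₁ M hMM₁ κ₁ (A - max t 0) (c + max t 0 / 2) s σ₁ h1 h1' H1
      (hf₁' _ (by linarith) (by linarith)) ?_ ?_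
    · rw [hsd, abs_le]; constructor <;> linarith
    · rw [← hσ, abs_le]; constructor <;> linarith
  · refine hM₂ M hMM₂ κ₂ (A - max t 0) (B + max t 0 / 2) s σ₂ h2 h2' H2
      (hf₂' _ (by linarith) (by linarith)) ?_ ?_
    · rw [hsd, abs_le]; constructor <;> linarith
    · rw [hσ₂, abs_le]; constructor <;> linarith

/-- choice of the small parameters -/
theorem params {C e : ℝ} (hC : 0 ≤ C) (he : 0 < e) (M₀ : ℕ) : ∃ ε > 0, ∃ N₀ : ℕ, ∀ N ≥ N₀,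
    ∀ T M : ℕ, (T : ℝ) ≤ ε * N → N ≤ M + 4 * T + 1 → 4 * T + 1 ≤ N ∧ M₀ ≤ M ∧
      C * (ε * N + 1) ≤ e * M := by
  refine ⟨min (1 / 16) (e / (8 * (C + 1))), by positivity,
    max 16 (max (2 * M₀) ⌈8 * (C + 1) / e⌉₊), ?_⟩
  intro N hN T M hT hM
  set ε := min (1 / 16) (e / (8 * (C + 1))) with hε
  have e1 : ε ≤ 1 / 16 := min_le_left _ _
  have e2 : ε ≤ e / (8 * (C + 1)) := min_le_right _ _
  have hN16 : 16 ≤ N := le_trans (le_max_left _ _) hN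
  have hNM : 2 * M₀ ≤ N := le_trans (le_trans (le_max_left _ _) (le_max_right _ _)) hN
  have hNC : ⌈8 * (C + 1) / e⌉₊ ≤ N := le_trans (le_trans (le_max_right _ _) (le_max_right _ _)) hN
  have hNC' : 8 * (C + 1) / e ≤ N := (Nat.le_ceil _).trans (by exact_mod_cast hNC)
  have hN16' : (16 : ℝ) ≤ N := by exact_mod_cast hN16
  have hN0 : (0 : ℝ) < N := by linarith
  have hT16 : (T : ℝ) ≤ N / 16 := by
    have := mul_le_mul_of_nonneg_right e1 hN0.le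
    linarith
  have hT4 : 4 * T + 1 ≤ N := by
    have : (4 * (T : ℝ) + 1) ≤ N := by linarith
    exact_mod_cast this
  have hMr : (N : ℝ) ≤ M + 4 * T + 1 := by exact_mod_cast hM
  have hM2 : (N : ℝ) / 2 ≤ M := by linarith
  refine ⟨hT4, ?_, ?_⟩
  · have : (2 * (M₀ : ℝ)) ≤ N := by exact_mod_cast hNM
    have h3 : (M₀ : ℝ) ≤ M := by linarith
    exact_mod_cast h3
  · have h4 : C * (ε * N) ≤ e * N / 8 := by
      have h5 : ε * (8 * (C + 1)) ≤ e := by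
        rwa [le_div_iff₀ (by positivity)] at e2
      have h6 : C * ε ≤ e / 8 := by
        have : 0 < ε := by rw [hε]; positivity
        nlinarith
      nlinarith
    have h7 : C ≤ e * N / 8 := by
      rw [div_le_iff₀ he] at hNC'
      linarith
    nlinarith

section
variable {m : ℕ} {c : ℝ}

theorem low_main {k : ℕ} (hk1 : 1 ≤ k) (hkc : (k : ℝ) ≤ c) (hc3 : ((m : ℝ) + 1) / 3 < c)
    (hc2 : c < ((m : ℝ) + 1) / 2) (hR : RC (m + 1 - k)) {κ₁ κ₂ : ℝ}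
    (h1 : 0 ≤ κ₁) (h1' : κ₁ ≤ 1) (h2 : 0 ≤ κ₂) (h2' : κ₂ ≤ 1)
    (H : ∀ t : ℝ, 0 ≤ t → t ≤ c - k →
        Cube.f (m + 1 - k) (c - k - t) ≤ κ₁ * Cube.f (m + 1 - k) (c + t / 2) ∧
        Cube.f (m + 1 - k) (c - k - t) ≤ κ₂ * Cube.f (m + 1 - k) (m + 1 - 2 * c + t / 2))
    {δ : ℝ} (hδ : 0 < δ) :
    ∃ ε > 0, ∃ N₀ : ℕ, ∀ N ≥ N₀, ∀ u T : ℕ, |(u : ℝ) - c * N| ≤ ε * N → (T : ℝ) ≤ ε * N →
      RatLow (m + 1) k N u T (2 * T) (N - 4 * T - 1) (κ₁ + δ) (κ₂ + δ) := by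
  have hk1' : (1 : ℝ) ≤ k := by exact_mod_cast hk1
  have hkd : (k : ℝ) < m + 1 := by linarith
  have hkd' : k < m + 1 := by exact_mod_cast hkd
  obtain ⟨n, hn⟩ : ∃ n : ℕ, n = m + 1 - k := ⟨_, rfl⟩
  have hnc : (n : ℝ) = m + 1 - k := by
    rw [hn, Nat.cast_sub (by omega)]
    push_cast
    ring
  rw [← hn] at H hR
  have hn2 : 2 ≤ n := by
    have : (1 : ℝ) < n := by rw [hnc]; linarith
    exact_mod_cast this
  obtain ⟨e, he, M₀, hM₀⟩ := use hn2 hR (A := c - k) (c := c) (B := m + 1 - 2 * c) (by linarith)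
    (by rw [hnc]; ring) (by linarith) (by linarith) (by rw [hnc]; linarith) (by rw [hnc]; linarith)
    h1 h1' h2 h2' H hδ
  obtain ⟨C, hC⟩ : ∃ C : ℝ, C = 20 * (m + 3) := ⟨_, rfl⟩
  have hC0 : 0 ≤ C := by rw [hC]; positivity
  obtain ⟨ε, hε, N₀, hN₀⟩ := params hC0 he M₀
  refine ⟨ε, hε, N₀, ?_⟩
  intro N hN u T hu hT
  obtain ⟨g1, g2, g3⟩ := hN₀ N hN T (N - 4 * T - 1) hT (by omega)
  obtain ⟨M, hM⟩ : ∃ M : ℕ, M = N - 4 * T - 1 := ⟨_, rfl⟩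
  have hMr : (M : ℝ) = N - 4 * T - 1 := by
    rw [hM, Nat.sub_sub, Nat.cast_sub g1]
    push_cast
    ring
  rw [← hM] at g2 g3 ⊢
  intro s σ₁ σ₂ hs hs1 hs2 hs3
  rw [← hn] at hs hs2 hs3 ⊢
  have rs1 : (s : ℝ) + k * N ≤ u + k * T := by exact_mod_cast hs1
  have rs2 : 2 * (σ₁ : ℝ) + s + k * N + 2 * n * (2 * T) ≤ 3 * u := by exact_mod_cast hs2
  have rs3 : 3 * (u : ℝ) ≤ 2 * σ₁ + s + k * N + 2 * n * (2 * T) + (m + 1) + 2 := by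
    exact_mod_cast hs3
  rw [abs_le] at hu
  have hN0 : (0 : ℝ) ≤ N := Nat.cast_nonneg N
  have hT0 : (0 : ℝ) ≤ T := Nat.cast_nonneg T
  have hm0 : (0 : ℝ) ≤ m := Nat.cast_nonneg m
  have hx : (0 : ℝ) ≤ ε * N := by positivity
  obtain ⟨X, hX⟩ : ∃ X : ℝ, X = ε * N := ⟨_, rfl⟩
  rw [← hX] at hu hT g3 hx
  refine hM₀ M g2 s σ₁ σ₂ hs ?_ ?_
  · -- lower bound
    have e1 : (c - k) * (M : ℝ) - s = c * N - k * N - s - (c - k) * (4 * T + 1) := by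
      rw [hMr]; ring
    rw [e1]
    have e2 : (c - k) * (4 * T + 1) ≤ (m + 1) * (4 * X + 1) := by
      apply mul_le_mul (by linarith) (by linarith) (by linarith) (by linarith)
    have e3 : (k : ℝ) * T ≤ (m + 1) * X := mul_le_mul hkd.le hT hT0 (by linarith)
    have e4 : -(X + (m + 1) * X + (m + 1) * (4 * X + 1)) ≤ c * N - k * N - s -
        (c - k) * (4 * T + 1) := by linarith
    have e5 : X + (m + 1) * X + (m + 1) * (4 * X + 1) ≤ C * (X + 1) := by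
      rw [hC]; nlinarith
    linarith
  · have e1 : 2 * (σ₁ : ℝ) + s - (2 * c + (c - k)) * M =
        (2 * σ₁ + s + k * N + 2 * n * (2 * T) - 3 * u) + 3 * (u - c * N) +
          (3 * c - k) * (4 * T + 1) - 4 * n * T := by
      rw [hMr]; ring
    rw [e1]
    have e2 : (3 * c - k) * (4 * T + 1) ≤ (3 * (m + 1)) * (4 * X + 1) := by
      apply mul_le_mul (by linarith) (by linarith) (by linarith) (by linarith)
    have e2' : 0 ≤ (3 * c - k) * (4 * T + 1) := mul_nonneg (by linarith) (by linarith)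
    have hnm : (n : ℝ) ≤ m + 1 := by rw [hnc]; linarith
    have hn0 : (0 : ℝ) ≤ n := Nat.cast_nonneg n
    have e3 : (n : ℝ) * T ≤ (m + 1) * X := mul_le_mul hnm hT hT0 (by linarith)
    have e3' : 0 ≤ (n : ℝ) * T := by positivity
    have e5 : (m : ℝ) + 3 + 3 * X + (3 * (m + 1)) * (4 * X + 1) + 4 * ((m + 1) * X) ≤
        C * (X + 1) := by
      rw [hC]; nlinarith
    rw [abs_le]
    constructor <;> linarith

theorem high_main {k : ℕ} (hk1 : 1 ≤ k) (hkc : (k : ℝ) ≤ m + 1 - 2 * c)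
    (hc3 : ((m : ℝ) + 1) / 3 < c) (hc2 : c < ((m : ℝ) + 1) / 2) (hR : RC (m + 1 - k)) {κ₃ : ℝ}
    (h1 : 0 ≤ κ₃) (h1' : κ₃ ≤ 1)
    (H : ∀ t : ℝ, 0 ≤ t → t ≤ m + 1 - 2 * c - k →
        Cube.f (m + 1 - k) (m + 1 - 2 * c - k - t) ≤ κ₃ * Cube.f (m + 1 - k) (c + t / 2))
    {δ : ℝ} (hδ : 0 < δ) :
    ∃ ε > 0, ∃ N₀ : ℕ, ∀ N ≥ N₀, ∀ u T : ℕ, |(u : ℝ) - c * N| ≤ ε * N → (T : ℝ) ≤ ε * N →
      RatHigh (m + 1) k N u T (2 * T) (N - 4 * T) (κ₃ + δ) := by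
  have hk1' : (1 : ℝ) ≤ k := by exact_mod_cast hk1
  have hkd : (k : ℝ) < m + 1 := by linarith
  have hkd' : k < m + 1 := by exact_mod_cast hkd
  obtain ⟨n, hn⟩ : ∃ n : ℕ, n = m + 1 - k := ⟨_, rfl⟩
  have hnc : (n : ℝ) = m + 1 - k := by
    rw [hn, Nat.cast_sub (by omega)]
    push_cast
    ring
  rw [← hn] at H hR
  have hn2 : 2 ≤ n := by
    have : (1 : ℝ) < n := by rw [hnc]; linarith
    exact_mod_cast this
  obtain ⟨e, he, M₀, hM₀⟩ := use hn2 hR (A := m + 1 - 2 * c - k) (c := c) (B := c) (by linarith)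
    (by rw [hnc]; ring) (by linarith) (by linarith) (by rw [hnc]; linarith) (by rw [hnc]; linarith)
    h1 h1' h1 h1' (fun t h0 ht => ⟨H t h0 ht, H t h0 ht⟩) hδ
  obtain ⟨C, hC⟩ : ∃ C : ℝ, C = 20 * (m + 3) := ⟨_, rfl⟩
  have hC0 : 0 ≤ C := by rw [hC]; positivity
  obtain ⟨ε, hε, N₀, hN₀⟩ := params hC0 he M₀
  refine ⟨ε, hε, N₀, ?_⟩
  intro N hN u T hu hT
  obtain ⟨g1, g2, g3⟩ := hN₀ N hN T (N - 4 * T) hT (by omega)
  obtain ⟨M, hM⟩ : ∃ M : ℕ, M = N - 4 * T := ⟨_, rfl⟩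
  have hMr : (M : ℝ) = N - 4 * T := by
    rw [hM, Nat.cast_sub (by omega)]
    push_cast
    ring
  rw [← hM] at g2 g3 ⊢
  intro s σ₁ σ₂ hs hs1 hs2 hs3
  rw [← hn] at hs hs1 hs2 hs3 ⊢
  have rs1 : (s : ℝ) + 2 * u ≤ n * N + k * T := by exact_mod_cast hs1
  have rs2 : 2 * (σ₁ : ℝ) + s + 2 * n * (2 * T) ≤ n * N := by exact_mod_cast hs2
  have rs3 : (n : ℝ) * N ≤ 2 * σ₁ + s + 2 * n * (2 * T) + (m + 1) := by
    exact_mod_cast hs3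
  rw [abs_le] at hu
  have hN0 : (0 : ℝ) ≤ N := Nat.cast_nonneg N
  have hT0 : (0 : ℝ) ≤ T := Nat.cast_nonneg T
  have hm0 : (0 : ℝ) ≤ m := Nat.cast_nonneg m
  have hx : (0 : ℝ) ≤ ε * N := by positivity
  obtain ⟨X, hX⟩ : ∃ X : ℝ, X = ε * N := ⟨_, rfl⟩
  rw [← hX] at hu hT g3 hx
  refine hM₀ M g2 s σ₁ σ₂ hs ?_ ?_
  · have e1 : (m + 1 - 2 * c - k) * (M : ℝ) - s =
        (n * N - 2 * (c * N) - s) - (m + 1 - 2 * c - k) * (4 * T) := by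
      rw [hMr, hnc]; ring
    rw [e1]
    have e2 : (m + 1 - 2 * c - k) * (4 * (T : ℝ)) ≤ (m + 1) * (4 * X) := by
      apply mul_le_mul (by linarith) (by linarith) (by linarith) (by linarith)
    have e3 : (k : ℝ) * T ≤ (m + 1) * X := mul_le_mul hkd.le hT hT0 (by linarith)
    have e5 : 2 * X + (m + 1) * X + (m + 1) * (4 * X) ≤ C * (X + 1) := by
      rw [hC]; nlinarith
    linarith
  · have e1 : 2 * (σ₁ : ℝ) + s - (2 * c + (m + 1 - 2 * c - k)) * M =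
        (2 * σ₁ + s + 2 * n * (2 * T) - n * N) := by
      rw [hMr, hnc]; ring
    rw [e1]
    have e5 : (m : ℝ) + 1 ≤ C * (X + 1) := by
      rw [hC]; nlinarith
    rw [abs_le]
    constructor <;> linarith

theorem low_vac {k : ℕ} (hkc : c < k) (κ₁ κ₂ : ℝ) :
    ∃ ε > 0, ∃ N₀ : ℕ, ∀ N ≥ N₀, ∀ u T : ℕ, |(u : ℝ) - c * N| ≤ ε * N → (T : ℝ) ≤ ε * N →
      RatLow (m + 1) k N u T (2 * T) (N - 4 * T - 1) κ₁ κ₂ := by
  have hk0 : (0 : ℝ) ≤ k := Nat.cast_nonneg k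
  refine ⟨(k - c) / (2 * (k + 2)), div_pos (by linarith) (by linarith), 1, ?_⟩
  intro N hN u T hu hT s σ₁ σ₂ hs hs1
  exfalso
  have rs1 : (s : ℝ) + k * N ≤ u + k * T := by exact_mod_cast hs1
  have hs0 : (0 : ℝ) ≤ s := Nat.cast_nonneg s
  have hN1 : (1 : ℝ) ≤ N := by exact_mod_cast hN
  rw [abs_le] at hu
  obtain ⟨ε, hε⟩ : ∃ ε : ℝ, ε = (k - c) / (2 * (k + 2)) := ⟨_, rfl⟩
  rw [← hε] at hu hT
  have h3 : ε * (2 * (k + 2)) = k - c := by rw [hε]; field_simp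
  have h4 : (k : ℝ) * T ≤ k * (ε * N) := mul_le_mul_of_nonneg_left hT hk0
  have h5 : (k - c) * N ≤ (k + 1) * (ε * N) := by linarith
  have hε0 : 0 < ε := by rw [hε]; exact div_pos (by linarith) (by linarith)
  rw [← h3] at h5
  nlinarith [mul_pos hε0 (by linarith : (0 : ℝ) < N)]

theorem high_vac {k : ℕ} (hkm : k ≤ m + 1) (hkc : m + 1 - 2 * c < k) (κ : ℝ) :
    ∃ ε > 0, ∃ N₀ : ℕ, ∀ N ≥ N₀, ∀ u T : ℕ, |(u : ℝ) - c * N| ≤ ε * N → (T : ℝ) ≤ ε * N →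
      RatHigh (m + 1) k N u T (2 * T) (N - 4 * T) κ := by
  have hk0 : (0 : ℝ) ≤ k := Nat.cast_nonneg k
  refine ⟨(k - (m + 1 - 2 * c)) / (2 * (k + 2)), div_pos (by linarith) (by linarith), 1, ?_⟩
  intro N hN u T hu hT s σ₁ σ₂ hs hs1
  exfalso
  have rs1 : (s : ℝ) + 2 * u ≤ (m + 1 - k) * N + k * T := by
    have h9 : ((m + 1 - k : ℕ) : ℝ) = m + 1 - k := by
      rw [Nat.cast_sub hkm]; push_cast; ring
    rw [← h9]
    exact_mod_cast hs1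
  have hs0 : (0 : ℝ) ≤ s := Nat.cast_nonneg s
  have hN1 : (1 : ℝ) ≤ N := by exact_mod_cast hN
  rw [abs_le] at hu
  obtain ⟨ε, hε⟩ : ∃ ε : ℝ, ε = (k - (m + 1 - 2 * c)) / (2 * (k + 2)) := ⟨_, rfl⟩
  rw [← hε] at hu hT
  have h3 : ε * (2 * (k + 2)) = k - (m + 1 - 2 * c) := by rw [hε]; field_simp
  have h4 : (k : ℝ) * T ≤ k * (ε * N) := mul_le_mul_of_nonneg_left hT hk0
  have h5 : (k - (m + 1 - 2 * c)) * N ≤ (k + 2) * (ε * N) := by linarith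
  have hε0 : 0 < ε := by rw [hε]; exact div_pos (by linarith) (by linarith)
  rw [← h3] at h5
  nlinarith [mul_pos hε0 (by linarith : (0 : ℝ) < N)]

end

end RatAll

/-- the conditions on the levels hold, given the estimate of the ratio of two levels -/
theorem rat_all_of {m : ℕ} (hm : 2 ≤ m) {c : ℝ} (hc : ∃ u κ₁ κ₂, Cube.Good m c u κ₁ κ₂)
    (hR : ∀ n, 2 ≤ n → RC n) :
    ∃ ε > 0, ∃ N₀ : ℕ, ∀ N ≥ N₀, ∀ u T : ℕ, |(u : ℝ) - c * N| ≤ ε * N → (T : ℝ) ≤ ε * N →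
      ∀ k, 1 ≤ k → k ≤ m + 1 → ∃ κ₁ κ₂ κ₃ : ℝ, 0 ≤ κ₁ ∧ 0 ≤ κ₂ ∧ 0 ≤ κ₃ ∧
      2 ^ k * κ₁ + 2 ^ (k + 1) * κ₃ ≤ 985 / 1000 ∧ 2 ^ k * κ₂ ≤ 985 / 1000 ∧
      RatLow (m + 1) k N u T (2 * T) (N - 4 * T - 1) κ₁ κ₂ ∧
      RatHigh (m + 1) k N u T (2 * T) (N - 4 * T) κ₃ := by
  have hnum := num_k hm hc
  obtain ⟨u₀, κ₁₀, κ₂₀, hG⟩ := hc
  have hc3 := hG.lt_c
  have hc2 := hG.c_lt
  have hcast : ((m + 1 : ℕ) : ℝ) = m + 1 := by push_cast; ring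
  rw [hcast] at hc3 hc2
  -- one `k`
  have hone : ∀ k, 1 ≤ k → k ≤ m + 1 → ∃ ε > 0, ∃ N₀ : ℕ, ∀ N ≥ N₀, ∀ u T : ℕ,
      |(u : ℝ) - c * N| ≤ ε * N → (T : ℝ) ≤ ε * N → ∃ κ₁ κ₂ κ₃ : ℝ, 0 ≤ κ₁ ∧ 0 ≤ κ₂ ∧ 0 ≤ κ₃ ∧
      2 ^ k * κ₁ + 2 ^ (k + 1) * κ₃ ≤ 985 / 1000 ∧ 2 ^ k * κ₂ ≤ 985 / 1000 ∧
      RatLow (m + 1) k N u T (2 * T) (N - 4 * T - 1) κ₁ κ₂ ∧
      RatHigh (m + 1) k N u T (2 * T) (N - 4 * T) κ₃ := by
    intro k hk1 hkm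
    rcases le_or_gt (k : ℝ) c with hkc | hkc
    · obtain ⟨κ₁, κ₂, κ₃, p1, p2, p3, q1, q2, q3, r1, r2, H, H'⟩ := hnum k hk1 hkc
      have hkd : (k : ℝ) < m + 1 := by
        have : (0 : ℝ) ≤ m := Nat.cast_nonneg m
        linarith
      have hkd' : k < m + 1 := by exact_mod_cast hkd
      have hn2 : 2 ≤ m + 1 - k := by
        have h3 : (1 : ℝ) < ((m + 1 - k : ℕ) : ℝ) := by
          rw [Nat.cast_sub (by omega), hcast]
          have : (2 : ℝ) ≤ m := by exact_mod_cast hm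
          linarith
        exact_mod_cast h3
      obtain ⟨δ, hδ⟩ : ∃ δ : ℝ, δ = 1 / 1000 / 2 ^ k := ⟨_, rfl⟩
      have hδ0 : 0 < δ := by rw [hδ]; positivity
      have hδk : 2 ^ k * δ = 1 / 1000 := by rw [hδ]; field_simp
      have hδk' : 2 ^ (k + 1) * δ = 2 / 1000 := by
        rw [pow_succ]; linarith
      obtain ⟨ε₁, hε₁, N₁, hN₁⟩ := RatAll.low_main hk1 hkc hc3 hc2 (hR _ hn2) p1 q1 p2 q2 H hδ0
      rcases le_or_gt (k : ℝ) (m + 1 - 2 * c) with hku | hku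
      · obtain ⟨ε₂, hε₂, N₂, hN₂⟩ := RatAll.high_main hk1 hku hc3 hc2 (hR _ hn2) p3 q3 H' hδ0
        refine ⟨min ε₁ ε₂, lt_min hε₁ hε₂, max N₁ N₂, ?_⟩
        intro N hN u T hu hT
        have hN0 : (0 : ℝ) ≤ N := Nat.cast_nonneg N
        have w1 := mul_le_mul_of_nonneg_right (min_le_left ε₁ ε₂) hN0
        have w2 := mul_le_mul_of_nonneg_right (min_le_right ε₁ ε₂) hN0
        refine ⟨κ₁ + δ, κ₂ + δ, κ₃ + δ, by linarith, by linarith, by linarith, ?_, ?_,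
          hN₁ N (le_trans (le_max_left _ _) hN) u T (hu.trans w1) (hT.trans w1),
          hN₂ N (le_trans (le_max_right _ _) hN) u T (hu.trans w2) (hT.trans w2)⟩
        · rw [mul_add, mul_add, hδk, hδk']; linarith
        · rw [mul_add, hδk]; linarith
      · obtain ⟨ε₂, hε₂, N₂, hN₂⟩ := RatAll.high_vac hkm hku κ₃
        refine ⟨min ε₁ ε₂, lt_min hε₁ hε₂, max N₁ N₂, ?_⟩
        intro N hN u T hu hT
        have hN0 : (0 : ℝ) ≤ N := Nat.cast_nonneg N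
        have w1 := mul_le_mul_of_nonneg_right (min_le_left ε₁ ε₂) hN0
        have w2 := mul_le_mul_of_nonneg_right (min_le_right ε₁ ε₂) hN0
        refine ⟨κ₁ + δ, κ₂ + δ, κ₃, by linarith, by linarith, by linarith, ?_, ?_,
          hN₁ N (le_trans (le_max_left _ _) hN) u T (hu.trans w1) (hT.trans w1),
          hN₂ N (le_trans (le_max_right _ _) hN) u T (hu.trans w2) (hT.trans w2)⟩
        · rw [mul_add, hδk]; linarith
        · rw [mul_add, hδk]; linarith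
    · obtain ⟨ε₁, hε₁, N₁, hN₁⟩ := RatAll.low_vac (m := m) hkc 0 0
      obtain ⟨ε₂, hε₂, N₂, hN₂⟩ := RatAll.high_vac (c := c) hkm (by linarith) 0
      refine ⟨min ε₁ ε₂, lt_min hε₁ hε₂, max N₁ N₂, ?_⟩
      intro N hN u T hu hT
      have hN0 : (0 : ℝ) ≤ N := Nat.cast_nonneg N
      have w1 := mul_le_mul_of_nonneg_right (min_le_left ε₁ ε₂) hN0
      have w2 := mul_le_mul_of_nonneg_right (min_le_right ε₁ ε₂) hN0
      exact ⟨0, 0, 0, le_rfl, le_rfl, le_rfl, by norm_num, by norm_num,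
        hN₁ N (le_trans (le_max_left _ _) hN) u T (hu.trans w1) (hT.trans w1),
        hN₂ N (le_trans (le_max_right _ _) hN) u T (hu.trans w2) (hT.trans w2)⟩
  -- all `k` up to a bound
  have hall : ∀ K, ∃ ε > 0, ∃ N₀ : ℕ, ∀ N ≥ N₀, ∀ u T : ℕ,
      |(u : ℝ) - c * N| ≤ ε * N → (T : ℝ) ≤ ε * N → ∀ k, 1 ≤ k → k ≤ K → k ≤ m + 1 →
      ∃ κ₁ κ₂ κ₃ : ℝ, 0 ≤ κ₁ ∧ 0 ≤ κ₂ ∧ 0 ≤ κ₃ ∧
      2 ^ k * κ₁ + 2 ^ (k + 1) * κ₃ ≤ 985 / 1000 ∧ 2 ^ k * κ₂ ≤ 985 / 1000 ∧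
      RatLow (m + 1) k N u T (2 * T) (N - 4 * T - 1) κ₁ κ₂ ∧
      RatHigh (m + 1) k N u T (2 * T) (N - 4 * T) κ₃ := by
    intro K
    induction K with
    | zero => exact ⟨1, one_pos, 0, fun N _ u T _ _ k hk hk' _ => by omega⟩
    | succ K ih =>
      obtain ⟨ε₁, hε₁, N₁, hN₁⟩ := ih
      by_cases hK : K + 1 ≤ m + 1
      · obtain ⟨ε₂, hε₂, N₂, hN₂⟩ := hone (K + 1) (by omega) hK
        refine ⟨min ε₁ ε₂, lt_min hε₁ hε₂, max N₁ N₂, ?_⟩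
        intro N hN u T hu hT k hk hkK hkm
        have hN0 : (0 : ℝ) ≤ N := Nat.cast_nonneg N
        have w1 := mul_le_mul_of_nonneg_right (min_le_left ε₁ ε₂) hN0
        have w2 := mul_le_mul_of_nonneg_right (min_le_right ε₁ ε₂) hN0
        rcases (by omega : k ≤ K ∨ k = K + 1) with h | rfl
        · exact hN₁ N (le_trans (le_max_left _ _) hN) u T (hu.trans w1) (hT.trans w1) k hk h hkm
        · exact hN₂ N (le_trans (le_max_right _ _) hN) u T (hu.trans w2) (hT.trans w2)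
      · exact ⟨ε₁, hε₁, N₁, fun N hN u T hu hT k hk hkK hkm =>
          hN₁ N hN u T hu hT k hk (by omega) hkm⟩
  obtain ⟨ε, hε, N₀, hN₀⟩ := hall (m + 1)
  exact ⟨ε, hε, N₀, fun N hN u T hu hT k hk hkm => hN₀ N hN u T hu hT k hk hkm hkm⟩

end Pool.Agent.Work.MP_0cd883_co.Exact
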