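import Pool.Agent.Work.MP_0cd883_co.Exact.Assembly
import Pool.Agent.Work.MP_0cd883_co.Exact.RatAll
import Pool.Agent.Work.MP_0cd883_co.Exact.LevCount

/-!
Part C: if the extra points of a sum-free set with respect to `Astar` are near the boundary of the
grid, then they are fewer than the holes.
-/

namespace Pool.Agent.Work.MP_0cd883_co.Exact

open Finset

theorem rat_all {m : ℕ} (hm : 2 ≤ m) {c : ℝ} (hc : ∃ u κ₁ κ₂, Cube.Good m c u κ₁ κ₂) :
    ∃ ε > 0, ∃ N₀ : ℕ, ∀ N ≥ N₀, ∀ u T : ℕ, |(u : ℝ) - c * N| ≤ ε * N → (T : ℝ) ≤ ε * N →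
      ∀ k, 1 ≤ k → k ≤ m + 1 → ∃ κ₁ κ₂ κ₃ : ℝ, 0 ≤ κ₁ ∧ 0 ≤ κ₂ ∧ 0 ≤ κ₃ ∧
      2 ^ k * κ₁ + 2 ^ (k + 1) * κ₃ ≤ 985 / 1000 ∧ 2 ^ k * κ₂ ≤ 985 / 1000 ∧
      RatLow (m + 1) k N u T (2 * T) (N - 4 * T - 1) κ₁ κ₂ ∧
      RatHigh (m + 1) k N u T (2 * T) (N - 4 * T) κ₃ :=
  rat_all_of hm hc fun _ hn => fun _ _ hf hδ => ratio_core hn hf hδ

theorem part_c {m : ℕ} (hm : 2 ≤ m) {c : ℝ} (hc : ∃ u κ₁ κ₂, Cube.Good m c u κ₁ κ₂) :
    ∃ ε > 0, ∃ N₀ : ℕ, ∀ N ≥ N₀, ∀ u : ℕ, |(u : ℝ) - c * N| ≤ ε * N →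
      ∀ A : Finset (Fin (m + 1) → ℕ), A ⊆ grid (m + 1) N → SumFree A →
      (∀ p ∈ A, ∑ j, p j < u → (∀ j, p j < N) → ∃ j, (N : ℝ) - p j ≤ ε * N) →
      (∀ p ∈ A, 2 * u ≤ ∑ j, p j → (∀ j, 2 ≤ p j) → ∃ j, (p j : ℝ) ≤ ε * N) →
      ((A \ Astar (m + 1) N u).card : ℝ) ≤ 995 / 1000 * (Astar (m + 1) N u \ A).card := by
  obtain ⟨ε₁, hε₁, N₁, hrat⟩ := rat_all hm hc
  obtain ⟨u', κ₁, κ₂, hG⟩ := hc
  have hc3 := hG.lt_c
  have hc2 := hG.c_lt
  set D : ℝ := ((m + 1 : ℕ) : ℝ) with hD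
  have hD3 : 3 ≤ D := by
    rw [hD]
    exact_mod_cast (by omega : 3 ≤ m + 1)
  have hc0 : 0 < c := by linarith
  -- the margin
  set η : ℝ := min (min (ε₁ / 2) (1 / 20)) (min ((c - D / 3) / 2) (min (c / (20 * D)) ((D / 2 - c) / (20 * D))))
    with hη
  have hη0 : 0 < η := by
    rw [hη]
    refine lt_min (lt_min (by positivity) (by norm_num)) (lt_min (by linarith) (lt_min ?_ ?_))
    · positivity
    · refine div_pos (by linarith) (by positivity)
  have hη1 : η ≤ ε₁ / 2 := (min_le_left _ _).trans (min_le_left _ _)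
  have hη2 : η ≤ 1 / 20 := (min_le_left _ _).trans (min_le_right _ _)
  have hη3 : η ≤ (c - D / 3) / 2 := (min_le_right _ _).trans (min_le_left _ _)
  have hη4 : η * (20 * D) ≤ c := by
    have : η ≤ c / (20 * D) :=
      (min_le_right _ _).trans ((min_le_right _ _).trans (min_le_left _ _))
    rwa [le_div_iff₀ (by positivity)] at this
  have hη5 : η * (20 * D) ≤ D / 2 - c := by
    have : η ≤ (D / 2 - c) / (20 * D) :=
      (min_le_right _ _).trans ((min_le_right _ _).trans (min_le_right _ _))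
    rwa [le_div_iff₀ (by positivity)] at this
  -- the last scale is `4 ^ (100 d) T ≤ η N`
  set R : ℕ := 100 * (m + 1) with hR
  set ε : ℝ := η / 4 ^ (R + 1) with hε
  have hε0 : 0 < ε := by positivity
  have hεη : ε * 4 ^ (R + 1) = η := by
    rw [hε]
    field_simp
  have h4R : (1 : ℝ) ≤ 4 ^ (R + 1) := one_le_pow₀ (by norm_num)
  have hεη' : ε ≤ η := by
    rw [← hεη]
    nlinarith
  obtain ⟨N₂, hN₂⟩ := exists_nat_ge (max (1 / ε) (max (4 / (c - D / 3)) (max (20 * (D + 2) / c)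
    (40 * D / (D / 2 - c)))))
  refine ⟨ε, hε0, max N₁ (N₂ + 20), fun N hN u hu A hA hs hl hh => ?_⟩
  have hN1 : N₁ ≤ N := (le_max_left _ _).trans hN
  have hN2 : N₂ + 20 ≤ N := (le_max_right _ _).trans hN
  have hNr : (N₂ : ℝ) ≤ N := by exact_mod_cast (by omega : N₂ ≤ N)
  have hN20 : (20 : ℝ) ≤ N := by exact_mod_cast (by omega : 20 ≤ N)
  have hN0 : (0 : ℝ) < N := by linarith
  have ha1 : 1 ≤ ε * N := by
    have h1 : 1 / ε ≤ N := (le_max_left _ _).trans (hN₂.trans hNr)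
    rw [div_le_iff₀ hε0] at h1
    linarith
  have ha2 : 4 ≤ (c - D / 3) * N := by
    have h1 : 4 / (c - D / 3) ≤ N :=
      (le_max_left _ _).trans ((le_max_right _ _).trans (hN₂.trans hNr))
    rw [div_le_iff₀ (by linarith)] at h1
    linarith
  have ha3 : 20 * (D + 2) ≤ c * N := by
    have h1 : 20 * (D + 2) / c ≤ N := (le_max_left _ _).trans
      ((le_max_right _ _).trans ((le_max_right _ _).trans (hN₂.trans hNr)))
    rw [div_le_iff₀ hc0] at h1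
    linarith
  have ha4 : 40 * D ≤ (D / 2 - c) * N := by
    have h1 : 40 * D / (D / 2 - c) ≤ N := (le_max_right _ _).trans
      ((le_max_right _ _).trans ((le_max_right _ _).trans (hN₂.trans hNr)))
    rw [div_le_iff₀ (by linarith)] at h1
    linarith
  -- the first threshold
  obtain ⟨T, hT⟩ : ∃ T : ℕ, Nat.ceil (ε * N) = T := ⟨_, rfl⟩
  have hT1 : ε * N ≤ T := by
    rw [← hT]
    exact Nat.le_ceil _
  have hT2 : (T : ℝ) ≤ 2 * (ε * N) := by
    have := Nat.ceil_lt_add_one (show 0 ≤ ε * N by positivity)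
    rw [hT] at this
    linarith
  have hT0 : 1 ≤ T := by
    have : (1 : ℝ) ≤ T := by linarith
    exact_mod_cast this
  have hu1 := (abs_le.1 (hu.trans (mul_le_mul_of_nonneg_right hεη' hN0.le))).1
  have hu2 := (abs_le.1 (hu.trans (mul_le_mul_of_nonneg_right hεη' hN0.le))).2
  have hscale : ∀ r < R, ((4 ^ r * T : ℕ) : ℝ) ≤ η * N := by
    intro r hr
    push_cast
    have h1 : (4 : ℝ) ^ r ≤ 4 ^ R := pow_le_pow_right₀ (by norm_num) hr.le
    have h2 : (4 : ℝ) ^ r * T ≤ 4 ^ R * (2 * (ε * N)) :=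
      mul_le_mul h1 hT2 (Nat.cast_nonneg _) (by positivity)
    have h3 : (4 : ℝ) ^ R * (2 * (ε * N)) = η * N / 2 := by
      rw [← hεη, pow_succ]
      ring
    have h4 : 0 ≤ η * N := by positivity
    linarith
  have hdN : (m + 1) * N + 1 ≤ 3 * u := by
    have h1 : D * N + 1 ≤ 3 * (u : ℝ) := by
      nlinarith [mul_le_mul_of_nonneg_right hη3 hN0.le]
    rw [hD] at h1
    exact_mod_cast h1
  have hmain : ∀ r < R, (((A.filter fun p => (∑ j, p j < u ∧ (∀ j, p j < N) ∧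
          (∃ j, N ≤ p j + 4 ^ r * T) ∧ ∀ j, N ≤ p j + 4 ^ r * T ∨ p j + 4 * (4 ^ r * T) ≤ N) ∨
        (2 * u ≤ ∑ j, p j ∧ (∀ j, 2 ≤ p j) ∧ (∃ j, p j ≤ 4 ^ r * T) ∧
          ∀ j, p j ≤ 4 ^ r * T ∨ 4 * (4 ^ r * T) ≤ p j)).card : ℕ) : ℝ)
      ≤ 985 / 1000 * (Astar (m + 1) N u \ A).card := by
    intro r hr
    obtain ⟨T', hT'⟩ : ∃ T' : ℕ, 4 ^ r * T = T' := ⟨_, rfl⟩
    have hb1 := hscale r hr
    rw [hT'] at hb1 ⊢
    have hT'1 : 1 ≤ T' := by
      rw [← hT']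
      exact Nat.mul_pos (pow_pos (by norm_num) r) hT0
    have hηN : η * N ≤ ε₁ * N := by nlinarith
    refine assembly hA hs hT'1 ?_ hdN ?_ ?_ fun k hk1 hk2 => ?_
    · have : 4 * (T' : ℝ) + 1 ≤ N := by nlinarith
      exact_mod_cast this
    · have h1 : 5 * (D * T') + D + 2 ≤ 2 * (u : ℝ) := by
        have h2 : D * T' ≤ D * (η * N) := mul_le_mul_of_nonneg_left hb1 (by linarith)
        have h3 : η * (20 * D) * N ≤ c * N := mul_le_mul_of_nonneg_right hη4 hN0.le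
        have h4 : η * N ≤ D * (η * N) := by
          have : 0 ≤ η * N := by positivity
          nlinarith
        nlinarith
      rw [hD] at h1
      exact_mod_cast h1
    · have h1 : 4 * (u : ℝ) + 5 * (D * T') + 2 * D ≤ 2 * (D * N) := by
        have h2 : D * T' ≤ D * (η * N) := mul_le_mul_of_nonneg_left hb1 (by linarith)
        have h3 : η * (20 * D) * N ≤ (D / 2 - c) * N := mul_le_mul_of_nonneg_right hη5 hN0.le
        have h4 : η * N ≤ D * (η * N) := by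
          have : 0 ≤ η * N := by positivity
          nlinarith
        nlinarith
      rw [hD] at h1
      exact_mod_cast h1
    · exact hrat N hN1 u T' (hu.trans (by nlinarith)) (hb1.trans hηN) k hk1 hk2
  have hfin := scales (by omega : 1 ≤ m + 1) hA (by norm_num : (0 : ℝ) ≤ 985 / 1000) hmain
    (fun p hp h1 h2 => by
      obtain ⟨j, hj⟩ := hl p hp h1 h2
      refine ⟨j, ?_⟩
      have : (N : ℝ) ≤ p j + T := by linarith
      exact_mod_cast this)
    (fun p hp h1 h2 => by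
      obtain ⟨j, hj⟩ := hh p hp h1 h2
      refine ⟨j, ?_⟩
      have : (p j : ℝ) ≤ T := by linarith
      exact_mod_cast this)
  have h0 : (0 : ℝ) ≤ (Astar (m + 1) N u \ A).card := Nat.cast_nonneg _
  linarith

end Pool.Agent.Work.MP_0cd883_co.Exact
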