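import Pool.Agent.Work.MP_0cd883_co.Rig.LowFormula

/-!
The numbers of points of the levels of `[n]^d`: symmetry and (strict) unimodality.
-/

namespace Pool.Agent.Work.MP_0cd883_co.Exact

open Finset

/-- the number of points of `[n]^d` with coordinate sum `s` -/
def pts (d n s : ℕ) : ℕ := ((grid d n).filter fun x => ∑ i, x i = s).card

/-- the same by recursion, for an integer level -/
def P (n : ℕ) : ℕ → ℤ → ℤ
  | 0, s => if s = 0 then 1 else 0
  | d + 1, s => ∑ t ∈ Icc 1 n, P n d (s - t)

theorem P_nonneg (n d : ℕ) : ∀ s : ℤ, 0 ≤ P n d s := by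
  induction d with
  | zero =>
    intro s
    unfold P
    split_ifs <;> norm_num
  | succ d ih =>
    intro s
    unfold P
    exact sum_nonneg fun t _ => ih _

theorem P_low (n d : ℕ) : ∀ s : ℤ, s < d → P n d s = 0 := by
  induction d with
  | zero =>
    intro s hs
    unfold P
    rw [if_neg]
    intro h
    rw [h] at hs
    exact absurd hs (by norm_num)
  | succ d ih =>
    intro s hs
    unfold P
    refine sum_eq_zero fun t ht => ih _ ?_
    have h1 := (mem_Icc.1 ht).1
    have h2 : (1 : ℤ) ≤ t := by exact_mod_cast h1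
    push_cast at hs
    linarith

theorem P_symm (n d : ℕ) : ∀ s : ℤ, P n d ((d : ℤ) * (n + 1) - s) = P n d s := by
  induction d with
  | zero =>
    intro s
    unfold P
    simp
  | succ d ih =>
    intro s
    unfold P
    refine sum_bij' (fun t _ => n + 1 - t) (fun t _ => n + 1 - t) ?_ ?_ ?_ ?_ ?_
    · intro t ht
      have := mem_Icc.1 ht
      exact mem_Icc.2 ⟨by omega, by omega⟩
    · intro t ht
      have := mem_Icc.1 ht
      exact mem_Icc.2 ⟨by omega, by omega⟩
    · intro t ht
      have := mem_Icc.1 ht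
      show n + 1 - (n + 1 - t) = t
      omega
    · intro t ht
      have := mem_Icc.1 ht
      show n + 1 - (n + 1 - t) = t
      omega
    · intro t ht
      have h1 := mem_Icc.1 ht
      have h2 : ((n + 1 - t : ℕ) : ℤ) = (n : ℤ) + 1 - t := by
        rw [Nat.cast_sub (by omega)]
        push_cast
        ring
      rw [h2, ← ih]
      congr 1
      push_cast
      ring

theorem tele (f : ℤ → ℤ) (s : ℤ) (n : ℕ) :
    ∑ t ∈ Icc 1 n, f (s + 1 - t) - ∑ t ∈ Icc 1 n, f (s - t) = f s - f (s - n) := by
  induction n with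
  | zero => simp
  | succ n ih =>
    rw [sum_Icc_succ_top (by omega), sum_Icc_succ_top (by omega)]
    have h1 : s + 1 - ((n + 1 : ℕ) : ℤ) = s - n := by
      push_cast
      ring
    rw [h1]
    linarith

theorem P_step (n d : ℕ) (s : ℤ) :
    P n (d + 1) (s + 1) - P n (d + 1) s = P n d s - P n d (s - n) :=
  tele (P n d) s n

/-- monotonicity up to the centre, in a form adapted to the symmetry -/
theorem mono_of_step {f : ℤ → ℤ} {C : ℤ} (hs : ∀ s, f (C - s) = f s)
    (h : ∀ i, 2 * i + 2 ≤ C → f i ≤ f (i + 1)) {s t : ℤ} (hst : s ≤ t) (hC : s + t ≤ C) :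
    f s ≤ f t := by
  have chain : ∀ k : ℕ, ∀ s : ℤ, 2 * (s + k) ≤ C → f s ≤ f (s + k) := by
    intro k
    induction k with
    | zero => intro s _; simp
    | succ k ih =>
      intro s hsk
      push_cast at hsk ⊢
      have h1 := ih s (by linarith)
      have h2 := h (s + k) (by linarith)
      rw [← add_assoc]
      exact h1.trans h2
  rcases le_or_gt (2 * t) C with h2 | h2
  · have h3 := chain (t - s).toNat s (by rw [Int.toNat_of_nonneg (by linarith)]; linarith)
    rwa [Int.toNat_of_nonneg (by linarith), add_sub_cancel] at h3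
  · rw [← hs t]
    have h3 := chain (C - t - s).toNat s (by rw [Int.toNat_of_nonneg (by linarith)]; linarith)
    rwa [Int.toNat_of_nonneg (by linarith), add_sub_cancel] at h3

theorem P_mono (n d : ℕ) : ∀ s t : ℤ, s ≤ t → s + t ≤ (d : ℤ) * (n + 1) → 1 ≤ d →
    P n d s ≤ P n d t := by
  induction d with
  | zero => intro s t _ _ h; omega
  | succ d ih =>
    intro s t hst hC _
    refine mono_of_step (P_symm n (d + 1)) ?_ hst hC
    intro i hi
    rcases Nat.eq_zero_or_pos d with rfl | hd
    · -- dimension one
      have h1 := P_step n 0 i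
      have h2 : P n 0 (i - n) ≤ P n 0 i := by
        have h3 : P n 0 (i - n) = 0 := by
          show (if i - (n : ℤ) = 0 then (1 : ℤ) else 0) = 0
          rw [if_neg]
          intro h4
          push_cast at hi
          have : i = n := by linarith
          have h5 : (0 : ℤ) ≤ n := Nat.cast_nonneg n
          linarith
        rw [h3]
        exact P_nonneg n 0 i
      linarith
    · have h1 := P_step n d i
      have h2 := ih (i - n) i (by
        have h5 : (0 : ℤ) ≤ n := Nat.cast_nonneg n
        linarith) (by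
        push_cast at hi
        have h6 : ((d : ℤ) + 1) * (n + 1) = (d : ℤ) * (n + 1) + (n + 1) := by ring
        rw [h6] at hi
        linarith) hd
      linarith

theorem P_one (n : ℕ) {t : ℤ} (h1 : 1 ≤ t) (h2 : t ≤ n) : P n 1 t = 1 := by
  have h0 : t.toNat ∈ Icc 1 n := by
    rw [mem_Icc]
    omega
  show ∑ a ∈ Icc 1 n, P n 0 (t - a) = 1
  rw [sum_eq_single_of_mem t.toNat h0]
  · show (if t - ((t.toNat : ℕ) : ℤ) = 0 then (1 : ℤ) else 0) = 1
    rw [if_pos]
    omega
  · intro b _ hb
    show (if t - (b : ℤ) = 0 then (1 : ℤ) else 0) = 0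
    rw [if_neg]
    intro h
    apply hb
    omega

/-- the strict step implies the strict inequality between levels -/
theorem P_strict_of {n e : ℕ} (he : 1 ≤ e)
    (hS : ∀ i : ℤ, (e : ℤ) ≤ i + 1 → 2 * i + 2 ≤ (e : ℤ) * (n + 1) → P n e i < P n e (i + 1))
    {s t : ℤ} (hst : s < t) (hC : s + t < (e : ℤ) * (n + 1)) (ht : (e : ℤ) ≤ t)
    (ht2 : t ≤ (e : ℤ) * n) : P n e s < P n e t := by
  rcases le_or_gt (2 * t) ((e : ℤ) * (n + 1)) with h2 | h2
  · have h3 := P_mono n e s (t - 1) (by linarith) (by linarith) he
    have h4 := hS (t - 1) (by linarith) (by linarith)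
    rw [sub_add_cancel] at h4
    exact lt_of_le_of_lt h3 h4
  · rw [← P_symm n e t]
    have h5 : (e : ℤ) * (n + 1) = e * n + e := by ring
    have h3 := P_mono n e s ((e : ℤ) * (n + 1) - t - 1) (by linarith) (by linarith) he
    have h4 := hS ((e : ℤ) * (n + 1) - t - 1) (by linarith) (by linarith)
    rw [sub_add_cancel] at h4
    exact lt_of_le_of_lt h3 h4

theorem P_lt_step {n : ℕ} (hn : 1 ≤ n) {e : ℕ} (he : 2 ≤ e) : ∀ i : ℤ, (e : ℤ) ≤ i + 1 →
    2 * i + 2 ≤ (e : ℤ) * (n + 1) → P n e i < P n e (i + 1) := by
  have hn' : (1 : ℤ) ≤ n := by exact_mod_cast hn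
  induction e, he using Nat.le_induction with
  | base =>
    intro i h1 h2
    push_cast at h1 h2
    have h3 := P_step n 1 i
    rw [P_one n (by linarith) (by linarith), P_low n 1 (i - n) (by push_cast; linarith)] at h3
    show P n (1 + 1) i < P n (1 + 1) (i + 1)
    linarith
  | succ e he ih =>
    intro i h1 h2
    push_cast at h1 h2
    have h3 := P_step n e i
    have h6 : ((e : ℤ) + 1) * (n + 1) = (e : ℤ) * (n + 1) + (n + 1) := by ring
    have he' : (2 : ℤ) ≤ e := by exact_mod_cast he
    have h4 := P_strict_of (by omega) ih (s := i - n) (t := i) (by linarith) (by linarith)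
      (by linarith) (by nlinarith)
    linarith

theorem P_lt {n : ℕ} (hn : 1 ≤ n) {e : ℕ} (he : 2 ≤ e) {s t : ℤ} (hst : s < t)
    (hC : s + t < (e : ℤ) * (n + 1)) (ht : (e : ℤ) ≤ t) (ht2 : t ≤ (e : ℤ) * n) :
    P n e s < P n e t :=
  P_strict_of (by omega) (P_lt_step hn he) hst hC ht ht2

theorem P_pos {n : ℕ} (hn : 1 ≤ n) {e : ℕ} (he : 2 ≤ e) {t : ℤ} (ht : (e : ℤ) ≤ t)
    (ht2 : t ≤ (e : ℤ) * n) : 0 < P n e t := by
  have he' : (2 : ℤ) ≤ e := by exact_mod_cast he
  have hn' : (1 : ℤ) ≤ n := by exact_mod_cast hn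
  refine lt_of_le_of_lt (P_nonneg n e (-t - 1)) (P_lt hn he (by linarith) ?_ ht ht2)
  nlinarith

/-- the recursion computes the numbers of points -/
theorem pts_eq (n d : ℕ) : ∀ s : ℕ, (pts d n s : ℤ) = P n d s := by
  classical
  induction d with
  | zero =>
    intro s
    show (((grid 0 n).filter fun x => ∑ i, x i = s).card : ℤ) = if (s : ℤ) = 0 then 1 else 0
    by_cases h : s = 0
    · subst h
      simp [grid]
    · rw [if_neg (by exact_mod_cast h)]
      have : ((grid 0 n).filter fun x => ∑ i, x i = s) = ∅ := by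
        rw [filter_eq_empty_iff]
        intro x _ hx
        rw [Fin.sum_univ_zero] at hx
        exact h hx.symm
      rw [this]
      simp
  | succ d ih =>
    intro s
    have h1 : pts (d + 1) n s = ∑ t ∈ Icc 1 n, if t ≤ s then pts d n (s - t) else 0 := by
      unfold pts
      rw [card_eq_sum_card_fiberwise (f := fun x : Fin (d + 1) → ℕ => x 0) (t := Icc 1 n)]
      · refine sum_congr rfl (fun t ht => ?_)
        split_ifs with hts
        · refine card_bij' (fun x _ => Fin.tail x) (fun y _ => Fin.cons t y) ?_ ?_ ?_ ?_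
          · intro x hx
            rw [mem_filter, mem_filter] at hx
            obtain ⟨⟨hx1, hx2⟩, hx3⟩ := hx
            rw [mem_filter]
            have hx1' := Fintype.mem_piFinset.1 hx1
            refine ⟨Fintype.mem_piFinset.2 (fun i => hx1' i.succ), ?_⟩
            rw [Fin.sum_univ_succ] at hx2
            have h5 : ∑ i, Fin.tail x i = ∑ i : Fin d, x i.succ := rfl
            rw [h5]
            omega
          · intro y hy
            rw [mem_filter] at hy
            obtain ⟨hy1, hy2⟩ := hy
            have hy1' := Fintype.mem_piFinset.1 hy1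
            rw [mem_filter, mem_filter]
            refine ⟨⟨Fintype.mem_piFinset.2 (fun i => ?_), ?_⟩, ?_⟩
            · refine Fin.cases ?_ (fun j => ?_) i
              · rw [Fin.cons_zero]
                exact ht
              · rw [Fin.cons_succ]
                exact hy1' j
            · rw [Fin.sum_univ_succ, Fin.cons_zero]
              simp only [Fin.cons_succ]
              omega
            · exact Fin.cons_zero _ _
          · intro x hx
            rw [mem_filter] at hx
            have hx3 := hx.2
            rw [← hx3]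
            exact Fin.cons_self_tail x
          · intro y hy
            exact Fin.tail_cons _ _
        · rw [card_eq_zero, filter_eq_empty_iff]
          intro x hx h3
          rw [mem_filter] at hx
          have h4 : x 0 ≤ ∑ i, x i := single_le_sum (fun i _ => Nat.zero_le _) (mem_univ _)
          omega
      · intro x hx
        rw [mem_coe, mem_filter] at hx
        exact mem_coe.2 (Fintype.mem_piFinset.1 hx.1 0)
    rw [h1]
    push_cast
    show _ = ∑ t ∈ Icc 1 n, P n d ((s : ℤ) - t)
    refine sum_congr rfl fun t ht => ?_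
    split_ifs with hts
    · rw [ih, Nat.cast_sub hts]
    · rw [P_low n d]
      have : (s : ℤ) < t := by exact_mod_cast (not_le.1 hts)
      have h0 : (0 : ℤ) ≤ d := Nat.cast_nonneg d
      linarith

/-- the count up to a level -/
theorem low_sub {d : ℕ} (n s : ℕ) : Cube.low d n (s + 1) = Cube.low d n s + pts d n (s + 1) := by
  classical
  unfold Cube.low pts
  rw [← card_union_of_disjoint]
  · congr 1
    ext x
    simp only [mem_filter, mem_union]
    constructor
    · rintro ⟨h1, h2⟩
      rcases Nat.lt_or_ge (∑ i, x i) (s + 1) with h | h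
      · exact Or.inl ⟨h1, by omega⟩
      · exact Or.inr ⟨h1, by omega⟩
    · rintro (⟨h1, h2⟩ | ⟨h1, h2⟩)
      · exact ⟨h1, by omega⟩
      · exact ⟨h1, by omega⟩
  · rw [disjoint_left]
    intro x hx hx'
    rw [mem_filter] at hx hx'
    omega

theorem pts_zero {d : ℕ} (hd : 1 ≤ d) (n : ℕ) : pts d n 0 = 0 := by
  have h := pts_eq n d 0
  rw [P_low n d] at h
  · exact_mod_cast h
  · exact_mod_cast (by omega : 0 < d)

end Pool.Agent.Work.MP_0cd883_co.Exact
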