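import Mathlib

/-! Rigidity on a parallelogram of lines (degenerate hexagon), helper33's lemma (RD). -/

namespace Pool.Agent.Work.MP_0cd883_co.Exact

open Finset
open scoped Pointwise

/-- `#{F > s + t} ≤ #{f > s} + #{g > t}` as soon as `{f ≤ s}` and `{g ≤ t}` are non-empty. -/
theorem rd_count (p q : ℕ) (F f g : ℕ → ℤ)
    (h : ∀ y ≤ p, ∀ w ≤ q, F (y + w) ≤ f y + g w) (s t : ℤ)
    (hs : ∃ y ≤ p, f y ≤ s) (ht : ∃ w ≤ q, g w ≤ t) :
    ((range (p + q + 1)).filter (fun x => s + t < F x)).card ≤
      ((range (p + 1)).filter (fun y => s < f y)).card +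
      ((range (q + 1)).filter (fun w => t < g w)).card := by
  classical
  set T2 := (range (p + 1)).filter (fun y => ¬ s < f y) with hT2
  set T3 := (range (q + 1)).filter (fun w => ¬ t < g w) with hT3
  have h2 : T2.Nonempty := by
    obtain ⟨y, hy, hfy⟩ := hs
    exact ⟨y, by simp only [hT2, mem_filter, mem_range]; exact ⟨by omega, by omega⟩⟩
  have h3 : T3.Nonempty := by
    obtain ⟨w, hw, hgw⟩ := ht
    exact ⟨w, by simp only [hT3, mem_filter, mem_range]; exact ⟨by omega, by omega⟩⟩
  have hcd : T2.card + T3.card - 1 ≤ (T2 + T3).card :=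
    cauchy_davenport_add_of_linearOrder_isCancelAdd h2 h3
  have hsub : (T2 + T3) ⊆ (range (p + q + 1)).filter (fun x => ¬ s + t < F x) := by
    intro x hx
    rw [Finset.mem_add] at hx
    obtain ⟨y, hy, w, hw, rfl⟩ := hx
    simp only [hT2, hT3, mem_filter, mem_range] at hy hw ⊢
    have := h y (by omega) w (by omega)
    exact ⟨by omega, by omega⟩
  have hc := card_le_card hsub
  have e1 := card_filter_add_card_filter_not (s := range (p + q + 1)) (fun x => s + t < F x)
  have e2 := card_filter_add_card_filter_not (s := range (p + 1)) (fun y => s < f y)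
  have e3 := card_filter_add_card_filter_not (s := range (q + 1)) (fun w => t < g w)
  rw [card_range] at e1 e2 e3
  have := h2.card_pos
  have := h3.card_pos
  simp only [hT2, hT3] at *
  omega

/-- sum of `(f - s)^+` over `[0, n)` -/
def exc (n : ℕ) (f : ℕ → ℤ) (s : ℤ) : ℤ := ∑ y ∈ range n, max (f y - s) 0

/-- number of points of `[0, n)` with `f > s` -/
def tl (n : ℕ) (f : ℕ → ℤ) (s : ℤ) : ℕ := ((range n).filter (fun y => s < f y)).card

theorem exc_step (n : ℕ) (f : ℕ → ℤ) (s : ℤ) : exc n f s = tl n f s + exc n f (s + 1) := by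
  unfold exc tl
  rw [card_filter, Nat.cast_sum, ← sum_add_distrib]
  refine sum_congr rfl fun y _ => ?_
  by_cases h : s < f y
  · rw [if_pos h, max_eq_left (by omega), max_eq_left (by omega)]; push_cast; omega
  · rw [if_neg h, max_eq_right (by omega), max_eq_right (by omega)]; simp

theorem exc_nonneg (n : ℕ) (f : ℕ → ℤ) (s : ℤ) : 0 ≤ exc n f s :=
  sum_nonneg fun _ _ => le_max_right _ _

theorem exc_eq_zero (n : ℕ) (f : ℕ → ℤ) (s : ℤ) (h : tl n f s = 0) : exc n f s = 0 := by
  unfold tl at h
  rw [card_eq_zero, filter_eq_empty_iff] at h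
  exact sum_eq_zero fun y hy => max_eq_right (by have := h hy; omega)

theorem tl_anti (n : ℕ) (f : ℕ → ℤ) {s t : ℤ} (h : s ≤ t) : tl n f t ≤ tl n f s :=
  card_le_card fun y hy => by
    rw [mem_filter] at hy ⊢
    exact ⟨hy.1, by omega⟩

/-- The greedy path bound: for thresholds `s ≥ min f`, `t ≥ min g`. -/
theorem rd_greedy (p q : ℕ) (F f g : ℕ → ℤ)
    (h : ∀ y ≤ p, ∀ w ≤ q, F (y + w) ≤ f y + g w) :
    ∀ (n : ℕ) (s t : ℤ), (∃ y ≤ p, f y ≤ s) → (∃ w ≤ q, g w ≤ t) →
      exc (p + 1) f s + exc (q + 1) g t ≤ n →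
      (exc (p + q + 1) F (s + t) : ℝ) ≤
        (p + q + 2) * ((exc (p + 1) f s : ℝ) / (p + 1) + (exc (q + 1) g t : ℝ) / (q + 1)) -
        min ((p : ℝ) + 1) (q + 1) *
          max ((tl (p + 1) f s : ℝ) / (p + 1)) ((tl (q + 1) g t : ℝ) / (q + 1)) := by
  intro n
  induction n with
  | zero =>
    intro s t hs ht hn
    have e1 := exc_nonneg (p + 1) f s
    have e2 := exc_nonneg (q + 1) g t
    have f1 := exc_step (p + 1) f s
    have f2 := exc_step (q + 1) g t
    have g1 := exc_nonneg (p + 1) f (s + 1)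
    have g2 := exc_nonneg (q + 1) g (t + 1)
    have z1 : tl (p + 1) f s = 0 := by push_cast at hn; omega
    have z2 : tl (q + 1) g t = 0 := by push_cast at hn; omega
    have hc := rd_count p q F f g h s t hs ht
    have z3 : tl (p + q + 1) F (s + t) = 0 := by
      unfold tl at z1 z2 ⊢
      omega
    rw [exc_eq_zero _ _ _ z3, exc_eq_zero _ _ _ z1, exc_eq_zero _ _ _ z2, z1, z2]
    simp
  | succ n ih =>
    intro s t hs ht hn
    have e1 := exc_nonneg (p + 1) f s
    have e2 := exc_nonneg (q + 1) g t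
    have f1 := exc_step (p + 1) f s
    have f2 := exc_step (q + 1) g t
    have f3 := exc_step (p + q + 1) F (s + t)
    have g1 := exc_nonneg (p + 1) f (s + 1)
    have g2 := exc_nonneg (q + 1) g (t + 1)
    have hc := rd_count p q F f g h s t hs ht
    have hc' : (tl (p + q + 1) F (s + t) : ℝ) ≤ tl (p + 1) f s + tl (q + 1) g t := by
      unfold tl
      exact_mod_cast hc
    have f1' : (exc (p + 1) f s : ℝ) = tl (p + 1) f s + exc (p + 1) f (s + 1) := by
      exact_mod_cast f1
    have f2' : (exc (q + 1) g t : ℝ) = tl (q + 1) g t + exc (q + 1) g (t + 1) := by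
      exact_mod_cast f2
    have f3' : (exc (p + q + 1) F (s + t) : ℝ) = tl (p + q + 1) F (s + t) +
        exc (p + q + 1) F (s + t + 1) := by
      exact_mod_cast f3
    have hp : (0 : ℝ) < p + 1 := by positivity
    have hq : (0 : ℝ) < q + 1 := by positivity
    by_cases z1 : tl (p + 1) f s = 0 ∧ tl (q + 1) g t = 0
    · obtain ⟨z1, z2⟩ := z1
      have z3 : tl (p + q + 1) F (s + t) = 0 := by
        unfold tl at z1 z2 ⊢
        omega
      rw [exc_eq_zero _ _ _ z3, exc_eq_zero _ _ _ z1, exc_eq_zero _ _ _ z2, z1, z2]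
      simp
    rcases le_total ((tl (q + 1) g t : ℝ) / (q + 1)) ((tl (p + 1) f s : ℝ) / (p + 1)) with hm | hm
    · have hpos : 0 < tl (p + 1) f s := by
        rcases Nat.eq_zero_or_pos (tl (p + 1) f s) with h0 | h0
        · exfalso
          rw [h0] at hm
          simp only [Nat.cast_zero, zero_div] at hm
          have : (0 : ℝ) ≤ (tl (q + 1) g t : ℝ) / (q + 1) := by positivity
          have h2 : (tl (q + 1) g t : ℝ) / (q + 1) = 0 := le_antisymm hm this
          rw [div_eq_zero_iff] at h2
          rcases h2 with h2 | h2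
          · exact z1 ⟨h0, by exact_mod_cast h2⟩
          · exact absurd h2 (by positivity)
        · exact h0
      have := ih (s + 1) t (by obtain ⟨y, hy, h1⟩ := hs; exact ⟨y, hy, by omega⟩) ht
        (by push_cast at hn; omega)
      rw [show s + 1 + t = s + t + 1 by ring] at this
      rw [max_eq_left hm]
      have hmax : (tl (q + 1) g t : ℝ) / (q + 1) ≤
        max ((tl (p + 1) f (s + 1) : ℝ) / (p + 1)) ((tl (q + 1) g t : ℝ) / (q + 1)) :=
        le_max_right _ _
      set α := (tl (p + 1) f s : ℝ) / (p + 1) with hα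
      set β := (tl (q + 1) g t : ℝ) / (q + 1) with hβ
      set μ := max ((tl (p + 1) f (s + 1) : ℝ) / (p + 1)) β with hμ
      have eα : (tl (p + 1) f s : ℝ) = (p + 1) * α := by rw [hα]; field_simp
      have eβ : (tl (q + 1) g t : ℝ) = (q + 1) * β := by rw [hβ]; field_simp
      have e4 : (exc (p + 1) f s : ℝ) / (p + 1) = α + (exc (p + 1) f (s + 1) : ℝ) / (p + 1) := by
        rw [f1', add_div]
      rw [f3', e4]
      set m := min ((p : ℝ) + 1) (q + 1) with hm'
      have hm1 : m ≤ q + 1 := min_le_right _ _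
      have hm0 : 0 ≤ m := le_min hp.le hq.le
      have hmμ : μ ≤ α := max_le (by
        rw [hα]
        exact div_le_div_of_nonneg_right (by exact_mod_cast tl_anti (p + 1) f (by omega)) hp.le) hm
      have k1 : m * (α - μ) ≤ (q + 1) * (α - β) := by
        calc m * (α - μ) ≤ (q + 1) * (α - μ) :=
              mul_le_mul_of_nonneg_right hm1 (by linarith)
          _ ≤ (q + 1) * (α - β) := mul_le_mul_of_nonneg_left (by linarith) hq.le
      have k2 : (tl (p + q + 1) F (s + t) : ℝ) ≤ (p + 1) * α + (q + 1) * β := by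
        rw [← eα, ← eβ]; exact hc'
      nlinarith [this, k1, k2]
    · have hpos : 0 < tl (q + 1) g t := by
        rcases Nat.eq_zero_or_pos (tl (q + 1) g t) with h0 | h0
        · exfalso
          rw [h0] at hm
          simp only [Nat.cast_zero, zero_div] at hm
          have : (0 : ℝ) ≤ (tl (p + 1) f s : ℝ) / (p + 1) := by positivity
          have h2 : (tl (p + 1) f s : ℝ) / (p + 1) = 0 := le_antisymm hm this
          rw [div_eq_zero_iff] at h2
          rcases h2 with h2 | h2
          · exact z1 ⟨by exact_mod_cast h2, h0⟩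
          · exact absurd h2 (by positivity)
        · exact h0
      have := ih s (t + 1) hs (by obtain ⟨y, hy, h1⟩ := ht; exact ⟨y, hy, by omega⟩)
        (by push_cast at hn; omega)
      rw [show s + (t + 1) = s + t + 1 by ring] at this
      rw [max_eq_right hm]
      have hmax : (tl (p + 1) f s : ℝ) / (p + 1) ≤
        max ((tl (p + 1) f s : ℝ) / (p + 1)) ((tl (q + 1) g (t + 1) : ℝ) / (q + 1)) :=
        le_max_left _ _
      set α := (tl (p + 1) f s : ℝ) / (p + 1) with hα
      set β := (tl (q + 1) g t : ℝ) / (q + 1) with hβ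
      set μ := max α ((tl (q + 1) g (t + 1) : ℝ) / (q + 1)) with hμ
      have eα : (tl (p + 1) f s : ℝ) = (p + 1) * α := by rw [hα]; field_simp
      have eβ : (tl (q + 1) g t : ℝ) = (q + 1) * β := by rw [hβ]; field_simp
      have e4 : (exc (q + 1) g t : ℝ) / (q + 1) = β + (exc (q + 1) g (t + 1) : ℝ) / (q + 1) := by
        rw [f2', add_div]
      rw [f3', e4]
      set m := min ((p : ℝ) + 1) (q + 1) with hm'
      have hm1 : m ≤ p + 1 := min_le_left _ _
      have hm0 : 0 ≤ m := le_min hp.le hq.le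
      have hmμ : μ ≤ β := max_le hm (by
        rw [hβ]
        exact div_le_div_of_nonneg_right (by exact_mod_cast tl_anti (q + 1) g (by omega)) hq.le)
      have k1 : m * (β - μ) ≤ (p + 1) * (β - α) := by
        calc m * (β - μ) ≤ (p + 1) * (β - μ) :=
              mul_le_mul_of_nonneg_right hm1 (by linarith)
          _ ≤ (p + 1) * (β - α) := mul_le_mul_of_nonneg_left (by linarith) hp.le
      have k2 : (tl (p + q + 1) F (s + t) : ℝ) ≤ (p + 1) * α + (q + 1) * β := by
        rw [← eα, ← eβ]; exact hc'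
      nlinarith [this, k1, k2]

/-- Rigidity on a parallelogram: if `F (y + w) ≤ f y + g w`, `f, g ≥ -K`, then there are `a, b`
such that `avg f + avg g - avg F` is at least `λ/4` times the proportion of exceptions to
`f = a`, `g = b`, `F = a + b`, up to an error of the order of the averages divided by the length. -/
theorem rd_piece (p q : ℕ) (F f g : ℕ → ℤ) (K : ℝ)
    (h : ∀ y ≤ p, ∀ w ≤ q, F (y + w) ≤ f y + g w)
    (hf : ∀ y ≤ p, -K ≤ f y) (hg : ∀ w ≤ q, -K ≤ g w) :
    ∃ a b : ℤ,
      min ((p : ℝ) + 1) (q + 1) / (p + q + 1) / 4 *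
        ((((range (p + 1)).filter (fun y => f y ≠ a)).card : ℝ) / (p + 1) +
         (((range (q + 1)).filter (fun w => g w ≠ b)).card : ℝ) / (q + 1) +
         (((range (p + q + 1)).filter (fun s => F s ≠ a + b)).card : ℝ) / (p + q + 1)) -
        ((∑ y ∈ range (p + 1), |(f y : ℝ)|) / (p + 1) +
          (∑ w ∈ range (q + 1), |(g w : ℝ)|) / (q + 1) + 2 * K) / (p + q + 1) ≤
      (∑ y ∈ range (p + 1), (f y : ℝ)) / (p + 1) + (∑ w ∈ range (q + 1), (g w : ℝ)) / (q + 1) -
        (∑ s ∈ range (p + q + 1), (F s : ℝ)) / (p + q + 1) := by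
  classical
  obtain ⟨y0, hy0, hmin2⟩ := exists_min_image (range (p + 1)) f ⟨0, by simp⟩
  obtain ⟨w0, hw0, hmin3⟩ := exists_min_image (range (q + 1)) g ⟨0, by simp⟩
  rw [mem_range] at hy0 hw0
  refine ⟨f y0, g w0, ?_⟩
  set a := f y0 with ha
  set b := g w0 with hb
  have hp : (0 : ℝ) < p + 1 := by positivity
  have hq : (0 : ℝ) < q + 1 := by positivity
  have hpq : (0 : ℝ) < p + q + 1 := by positivity
  have hgr := rd_greedy p q F f g h (exc (p + 1) f a + exc (q + 1) g b).toNat a b
    ⟨y0, by omega, le_refl _⟩ ⟨w0, by omega, le_refl _⟩ (Int.self_le_toNat _)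
  have hcnt := rd_count p q F f g h a b ⟨y0, by omega, le_refl _⟩ ⟨w0, by omega, le_refl _⟩
  -- averages through the minimum
  have ef : (∑ y ∈ range (p + 1), (f y : ℝ)) = (p + 1) * a + exc (p + 1) f a := by
    unfold exc
    rw [Int.cast_sum, ← sub_eq_iff_eq_add']
    have : ((p : ℝ) + 1) * a = ∑ y ∈ range (p + 1), (a : ℝ) := by
      rw [sum_const, card_range, nsmul_eq_mul]; push_cast; ring
    rw [this, ← sum_sub_distrib]
    refine sum_congr rfl fun y hy => ?_
    rw [max_eq_left (by have := hmin2 y hy; omega)]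
    push_cast; ring
  have eg : (∑ w ∈ range (q + 1), (g w : ℝ)) = (q + 1) * b + exc (q + 1) g b := by
    unfold exc
    rw [Int.cast_sum, ← sub_eq_iff_eq_add']
    have : ((q : ℝ) + 1) * b = ∑ y ∈ range (q + 1), (b : ℝ) := by
      rw [sum_const, card_range, nsmul_eq_mul]; push_cast; ring
    rw [this, ← sum_sub_distrib]
    refine sum_congr rfl fun y hy => ?_
    rw [max_eq_left (by have := hmin3 y hy; omega)]
    push_cast; ring
  -- F: positive part minus number of points below
  have eF : (∑ s ∈ range (p + q + 1), (F s : ℝ)) ≤ (p + q + 1) * (a + b) +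
      exc (p + q + 1) F (a + b) -
      ((range (p + q + 1)).filter (fun s => F s < a + b)).card := by
    have : ∑ s ∈ range (p + q + 1), F s ≤ ∑ s ∈ range (p + q + 1),
        ((a + b) + max (F s - (a + b)) 0 - (if F s < a + b then 1 else 0)) := by
      refine sum_le_sum fun s _ => ?_
      split_ifs with h1
      · rw [max_eq_right (by omega)]; omega
      · rw [max_eq_left (by omega)]; omega
    rw [sum_sub_distrib, sum_add_distrib, sum_const, card_range, nsmul_eq_mul] at this
    have h2 : (∑ s ∈ range (p + q + 1), if F s < a + b then (1 : ℤ) else 0) =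
      (((range (p + q + 1)).filter (fun s => F s < a + b)).card : ℤ) := by
      rw [card_filter]; push_cast; rfl
    rw [h2] at this
    unfold exc
    have h3 : ((∑ s ∈ range (p + q + 1), F s : ℤ) : ℝ) ≤ _ := Int.cast_le.2 this
    push_cast at h3 ⊢
    linarith
  -- counts
  have n2 : ((range (p + 1)).filter (fun y => f y ≠ a)).card = tl (p + 1) f a := by
    unfold tl
    congr 1
    refine filter_congr fun y hy => ?_
    have := hmin2 y hy
    constructor
    · intro h1; omega
    · intro h1; omega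
  have n3 : ((range (q + 1)).filter (fun w => g w ≠ b)).card = tl (q + 1) g b := by
    unfold tl
    congr 1
    refine filter_congr fun y hy => ?_
    have := hmin3 y hy
    constructor
    · intro h1; omega
    · intro h1; omega
  have nF : ((range (p + q + 1)).filter (fun s => F s ≠ a + b)).card ≤
      tl (p + 1) f a + tl (q + 1) g b +
      ((range (p + q + 1)).filter (fun s => F s < a + b)).card := by
    have : ((range (p + q + 1)).filter (fun s => F s ≠ a + b)) ⊆
      ((range (p + q + 1)).filter (fun s => a + b < F s)) ∪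
      ((range (p + q + 1)).filter (fun s => F s < a + b)) := by
      intro s hs
      rw [mem_filter] at hs
      rw [mem_union, mem_filter, mem_filter]
      rcases lt_or_gt_of_ne hs.2 with h1 | h1
      · exact Or.inr ⟨hs.1, h1⟩
      · exact Or.inl ⟨hs.1, h1⟩
    have h1 := card_le_card this
    have h2 := card_union_le ((range (p + q + 1)).filter (fun s => a + b < F s))
      ((range (p + q + 1)).filter (fun s => F s < a + b))
    unfold tl
    omega
  have nF' : (((range (p + q + 1)).filter (fun s => F s ≠ a + b)).card : ℝ) ≤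
      tl (p + 1) f a + tl (q + 1) g b +
      ((range (p + q + 1)).filter (fun s => F s < a + b)).card := by exact_mod_cast nF
  rw [n2, n3]
  -- bounds of the averages of f - a, g - b
  have Ef : (exc (p + 1) f a : ℝ) / (p + 1) ≤ (∑ y ∈ range (p + 1), |(f y : ℝ)|) / (p + 1) + K := by
    have h1 : (exc (p + 1) f a : ℝ) / (p + 1) = (∑ y ∈ range (p + 1), (f y : ℝ)) / (p + 1) - a := by
      rw [ef]; field_simp; ring
    have h2 := hf y0 (by omega)
    have h3 : (∑ y ∈ range (p + 1), (f y : ℝ)) ≤ ∑ y ∈ range (p + 1), |(f y : ℝ)| :=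
      sum_le_sum fun y _ => le_abs_self _
    have h4 := div_le_div_of_nonneg_right h3 hp.le
    rw [h1]
    linarith
  have Eg : (exc (q + 1) g b : ℝ) / (q + 1) ≤ (∑ y ∈ range (q + 1), |(g y : ℝ)|) / (q + 1) + K := by
    have h1 : (exc (q + 1) g b : ℝ) / (q + 1) = (∑ y ∈ range (q + 1), (g y : ℝ)) / (q + 1) - b := by
      rw [eg]; field_simp; ring
    have h2 := hg w0 (by omega)
    have h3 : (∑ y ∈ range (q + 1), (g y : ℝ)) ≤ ∑ y ∈ range (q + 1), |(g y : ℝ)| :=
      sum_le_sum fun y _ => le_abs_self _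
    have h4 := div_le_div_of_nonneg_right h3 hq.le
    rw [h1]
    linarith
  set m := min ((p : ℝ) + 1) (q + 1) with hm
  set X := (exc (p + 1) f a : ℝ) / (p + 1) with hX
  set Y := (exc (q + 1) g b : ℝ) / (q + 1) with hY
  set α := (tl (p + 1) f a : ℝ) / (p + 1) with hα
  set β := (tl (q + 1) g b : ℝ) / (q + 1) with hβ
  set B := (((range (p + q + 1)).filter (fun s => F s < a + b)).card : ℝ) with hB
  set Z := (exc (p + q + 1) F (a + b) : ℝ) with hZ
  have hm0 : 0 < m := lt_min hp hq
  have hmpq : m ≤ p + q + 1 := (min_le_left _ _).trans (by linarith [Nat.cast_nonneg (α := ℝ) q])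
  have eα : (tl (p + 1) f a : ℝ) = (p + 1) * α := by rw [hα]; field_simp
  have eβ : (tl (q + 1) g b : ℝ) = (q + 1) * β := by rw [hβ]; field_simp
  have hα0 : 0 ≤ α := by positivity
  have hβ0 : 0 ≤ β := by positivity
  have hB0 : 0 ≤ B := Nat.cast_nonneg _
  set μ := max α β with hμ
  have hαμ : α ≤ μ := le_max_left _ _
  have hβμ : β ≤ μ := le_max_right _ _
  have hμ0 : 0 ≤ μ := hα0.trans hαμ
  -- lower bound of S
  have hS : (m * μ + B) / (p + q + 1) - (X + Y) / (p + q + 1) ≤
      (∑ y ∈ range (p + 1), (f y : ℝ)) / (p + 1) + (∑ w ∈ range (q + 1), (g w : ℝ)) / (q + 1) -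
        (∑ s ∈ range (p + q + 1), (F s : ℝ)) / (p + q + 1) := by
    have h1 : (∑ y ∈ range (p + 1), (f y : ℝ)) / (p + 1) = a + X := by
      rw [ef, add_div, mul_div_cancel_left₀ _ hp.ne']
    have h2 : (∑ w ∈ range (q + 1), (g w : ℝ)) / (q + 1) = b + Y := by
      rw [eg, add_div, mul_div_cancel_left₀ _ hq.ne']
    have h3 : (∑ s ∈ range (p + q + 1), (F s : ℝ)) / (p + q + 1) ≤ (a + b) + (Z - B) / (p + q + 1) := by
      rw [div_le_iff₀ hpq, add_mul, div_mul_cancel₀ _ hpq.ne']
      linarith
    have h4 : Z / (p + q + 1) ≤ (X + Y) + (X + Y) / (p + q + 1) - m * μ / (p + q + 1) := by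
      rw [div_le_iff₀ hpq, sub_mul, add_mul, div_mul_cancel₀ _ hpq.ne', div_mul_cancel₀ _ hpq.ne']
      nlinarith [hgr]
    rw [h1, h2]
    have h5 : (Z - B) / (p + q + 1) = Z / (p + q + 1) - B / (p + q + 1) := sub_div _ _ _
    have h6 : (m * μ + B) / (p + q + 1) = m * μ / (p + q + 1) + B / (p + q + 1) := add_div _ _ _
    rw [h6]
    linarith
  -- upper bound of the proportions
  have hN : m / (p + q + 1) / 4 * (α + β +
      (((range (p + q + 1)).filter (fun s => F s ≠ a + b)).card : ℝ) / (p + q + 1)) ≤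
      (m * μ + B) / (p + q + 1) := by
    have h1 : (((range (p + q + 1)).filter (fun s => F s ≠ a + b)).card : ℝ) / (p + q + 1) ≤
        2 * μ + B / (p + q + 1) := by
      rw [div_le_iff₀ hpq, add_mul, div_mul_cancel₀ _ hpq.ne']
      have h2 : (p + 1 : ℝ) * α + (q + 1) * β ≤ (p + 1 + (q + 1)) * μ := by
        nlinarith [mul_le_mul_of_nonneg_left hαμ hp.le, mul_le_mul_of_nonneg_left hβμ hq.le]
      have h3 : ((p : ℝ) + 1 + (q + 1)) * μ ≤ 2 * μ * (p + q + 1) := by
        nlinarith [mul_nonneg hμ0 (Nat.cast_nonneg (α := ℝ) p), mul_nonneg hμ0 (Nat.cast_nonneg (α := ℝ) q)]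
      rw [eα, eβ] at nF'
      linarith
    have h4 : α + β + (((range (p + q + 1)).filter (fun s => F s ≠ a + b)).card : ℝ) / (p + q + 1) ≤
        4 * μ + B / (p + q + 1) := by linarith
    have h5 : 0 ≤ m / (p + q + 1) / 4 := by positivity
    have h6 : m / (p + q + 1) ≤ 1 := by
      rw [div_le_one hpq]; exact hmpq
    calc _ ≤ m / (p + q + 1) / 4 * (4 * μ + B / (p + q + 1)) := mul_le_mul_of_nonneg_left h4 h5
      _ = m * μ / (p + q + 1) + m / (p + q + 1) / 4 * (B / (p + q + 1)) := by ring
      _ ≤ m * μ / (p + q + 1) + 1 * (B / (p + q + 1)) := by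
          have h7 : 0 ≤ B / (p + q + 1) := div_nonneg hB0 hpq.le
          have : m / (p + q + 1) / 4 ≤ 1 := by linarith [h5]
          nlinarith
      _ = (m * μ + B) / (p + q + 1) := by rw [add_div]; ring
  have hE : (X + Y) / (p + q + 1) ≤ ((∑ y ∈ range (p + 1), |(f y : ℝ)|) / (p + 1) +
      (∑ w ∈ range (q + 1), |(g w : ℝ)|) / (q + 1) + 2 * K) / (p + q + 1) :=
    div_le_div_of_nonneg_right (by linarith) hpq.le
  linarith

end Pool.Agent.Work.MP_0cd883_co.Exact
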