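import Pool.Agent.Work.MP_0cd883_co.Exact.CoupleSum

/-!
Sums over the lines in one direction, for the points of a given type (helper25).
-/

namespace Pool.Agent.Work.MP_0cd883_co.Exact

open Finset

/-- the point with the coordinates `a (ξ t)` on `K'` and `b (x t)` elsewhere -/
def gl {d : ℕ} (K' : Finset (Fin d)) (a b : ℕ → ℕ) (ξ x : Fin d → ℕ) : Fin d → ℕ :=
  fun t => if t ∈ K' then a (ξ t) else b (x t)

theorem gl_mem {d : ℕ} {K' : Finset (Fin d)} {a b : ℕ → ℕ} {ξ x : Fin d → ℕ} {t : Fin d}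
    (h : t ∈ K') : gl K' a b ξ x t = a (ξ t) := if_pos h

theorem gl_not_mem {d : ℕ} {K' : Finset (Fin d)} {a b : ℕ → ℕ} {ξ x : Fin d → ℕ} {t : Fin d}
    (h : t ∉ K') : gl K' a b ξ x t = b (x t) := if_neg h

theorem sum_filter_triple {d : ℕ} (X Y : Finset (Fin d → ℕ)) (S : Finset ℕ)
    (P : (Fin d → ℕ) → (Fin d → ℕ) → ℕ → Prop) [∀ ξ x l, Decidable (P ξ x l)] :
    ((X ×ˢ Y ×ˢ S).filter fun q => P q.1 q.2.1 q.2.2).card =
      ∑ ξ ∈ X, ∑ x ∈ Y, (S.filter fun l => P ξ x l).card := by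
  rw [card_filter, sum_product]
  refine sum_congr rfl (fun ξ _ => ?_)
  rw [sum_product]
  refine sum_congr rfl (fun x _ => ?_)
  rw [card_filter]

/-- a set whose points all lie on the lines -/
theorem cover_le {d : ℕ} {K' J : Finset (Fin d)} {i : Fin d} {sξ sx sl : Finset ℕ}
    {a b c : ℕ → ℕ} {E : Finset (Fin d → ℕ)}
    (hcov : ∀ p ∈ E, ∃ ξ ∈ bx K' sξ, ∃ x ∈ bx J sx, ∃ l ∈ sl,
      Function.update (gl K' a b ξ x) i (c l) = p) :
    E.card ≤ ∑ ξ ∈ bx K' sξ, ∑ x ∈ bx J sx,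
      (sl.filter fun l => Function.update (gl K' a b ξ x) i (c l) ∈ E).card := by
  classical
  rw [← sum_filter_triple (bx K' sξ) (bx J sx) sl
    (fun ξ x l => Function.update (gl K' a b ξ x) i (c l) ∈ E)]
  refine (card_le_card (t := ((bx K' sξ ×ˢ bx J sx ×ˢ sl).filter fun q =>
    Function.update (gl K' a b q.1 q.2.1) i (c q.2.2) ∈ E).image
      (fun q => Function.update (gl K' a b q.1 q.2.1) i (c q.2.2))) ?_).trans card_image_le
  intro p hp
  obtain ⟨ξ, hξ, x, hx, l, hl, rfl⟩ := hcov p hp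
  rw [mem_image]
  exact ⟨(ξ, x, l), mem_filter.2 ⟨mem_product.2 ⟨hξ, mem_product.2 ⟨hx, hl⟩⟩, hp⟩, rfl⟩

/-- every point is met at most `2 ^ #K'` times -/
theorem mult_le {d : ℕ} {K' J : Finset (Fin d)} {i : Fin d} {sξ sx sl : Finset ℕ}
    {a b c : ℕ → ℕ} {H Z : Finset (Fin d → ℕ)} (hKJ : Disjoint K' J) (hiK : i ∉ K') (hiJ : i ∉ J)
    (ha : ∀ m ∈ sξ, ∀ m' ∈ sξ, a m = a m' → m % 2 = m' % 2 → m = m')
    (hb : ∀ m ∈ sx, ∀ m' ∈ sx, b m = b m' → m = m')
    (hc : ∀ m ∈ sl, ∀ m' ∈ sl, c m = c m' → m = m')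
    (hZ : ∀ ξ ∈ bx K' sξ, ∀ x ∈ bx J sx, ∀ l ∈ sl,
      Function.update (gl K' a b ξ x) i (c l) ∈ H → Function.update (gl K' a b ξ x) i (c l) ∈ Z) :
    ∑ ξ ∈ bx K' sξ, ∑ x ∈ bx J sx,
      (sl.filter fun l => Function.update (gl K' a b ξ x) i (c l) ∈ H).card ≤
      2 ^ K'.card * Z.card := by
  classical
  rw [← sum_filter_triple (bx K' sξ) (bx J sx) sl
    (fun ξ x l => Function.update (gl K' a b ξ x) i (c l) ∈ H)]
  refine card_le_mul_card_image_of_maps_to
    (f := fun q => Function.update (gl K' a b q.1 q.2.1) i (c q.2.2)) ?_ _ ?_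
  · intro q hq
    rw [mem_filter, mem_product, mem_product] at hq
    exact hZ _ hq.1.1 _ hq.1.2.1 _ hq.1.2.2 hq.2
  · intro v hv
    rw [← card_powerset]
    refine card_le_card_of_injOn (fun q => K'.filter fun t => q.1 t % 2 = 0) ?_ ?_
    · intro q hq
      rw [mem_coe, mem_powerset]
      exact filter_subset _ _
    · rintro ⟨ξ, x, l⟩ hq ⟨ξ', x', l'⟩ hq' h
      rw [mem_coe, mem_filter, mem_filter, mem_product, mem_product] at hq hq'
      obtain ⟨⟨⟨hξ, hx, hl⟩, -⟩, hv1⟩ := hq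
      obtain ⟨⟨⟨hξ', hx', hl'⟩, -⟩, hv2⟩ := hq'
      simp only at hξ hx hl hξ' hx' hl' hv1 hv2 h
      rw [mem_bx] at hξ hx hξ' hx'
      have h3 : ∀ t, t ≠ i → gl K' a b ξ x t = gl K' a b ξ' x' t := by
        intro t ht
        have h4 := congrFun hv1 t
        have h5 := congrFun hv2 t
        rw [Function.update_of_ne ht] at h4 h5
        rw [h4, h5]
      have h6 : ξ = ξ' := by
        funext t
        by_cases ht : t ∈ K'
        · have hti : t ≠ i := fun h => hiK (h ▸ ht)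
          have h7 := h3 t hti
          rw [gl_mem ht, gl_mem ht] at h7
          refine ha _ (hξ.1 t ht) _ (hξ'.1 t ht) h7 ?_
          have h8 : t ∈ K'.filter (fun t => ξ t % 2 = 0) ↔ t ∈ K'.filter (fun t => ξ' t % 2 = 0) := by
            rw [h]
          rw [mem_filter, mem_filter] at h8
          have h9 : ξ t % 2 = 0 ↔ ξ' t % 2 = 0 :=
            ⟨fun h => (h8.1 ⟨ht, h⟩).2, fun h => (h8.2 ⟨ht, h⟩).2⟩
          omega
        · rw [hξ.2 t ht, hξ'.2 t ht]
      have h7 : x = x' := by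
        funext t
        by_cases ht : t ∈ J
        · have hti : t ≠ i := fun h => hiJ (h ▸ ht)
          have htK : t ∉ K' := fun h => (disjoint_left.1 hKJ h) ht
          have h8 := h3 t hti
          rw [gl_not_mem htK, gl_not_mem htK] at h8
          exact hb _ (hx.1 t ht) _ (hx'.1 t ht) h8
        · rw [hx.2 t ht, hx'.2 t ht]
      have h8 : l = l' := by
        have h9 := congrFun hv1 i
        have h10 := congrFun hv2 i
        rw [Function.update_self] at h9 h10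
        exact hc _ hl _ hl' (h9.trans h10.symm)
      rw [h6, h7, h8]

/-- the sum of the coordinates other than `i` -/
theorem sum_gl {d : ℕ} {K : Finset (Fin d)} {i : Fin d} (hi : i ∈ K) (a b : ℕ → ℕ)
    (ξ x : Fin d → ℕ) : ∑ j ∈ univ.erase i, (gl (K.erase i) a b ξ x j : ℤ) =
      ∑ j ∈ K.erase i, (a (ξ j) : ℤ) + ∑ j ∈ univ \ K, (b (x j) : ℤ) := by
  classical
  have h1 : (univ.erase i : Finset (Fin d)) = K.erase i ∪ (univ \ K) := by
    ext t
    simp only [mem_erase, mem_univ, and_true, mem_union, mem_sdiff, true_and]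
    constructor
    · intro h
      by_cases ht : t ∈ K
      · exact Or.inl ⟨h, ht⟩
      · exact Or.inr ht
    · rintro (h | h)
      · exact h.1
      · exact fun h' => h (h' ▸ hi)
  have h2 : Disjoint (K.erase i) (univ \ K) := by
    rw [disjoint_left]
    intro t ht ht'
    exact (mem_sdiff.1 ht').2 (mem_of_mem_erase ht)
  rw [h1, sum_union h2]
  congr 1
  · exact sum_congr rfl (fun j hj => by rw [gl_mem hj])
  · refine sum_congr rfl (fun j hj => ?_)
    rw [gl_not_mem (fun h => (mem_sdiff.1 hj).2 (mem_of_mem_erase h))]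

theorem bx_sum {d : ℕ} {J : Finset (Fin d)} {s : Finset ℕ} {x : Fin d → ℕ} (hx : x ∈ bx J s) :
    ∑ t, x t = ∑ t ∈ J, x t :=
  (sum_subset (subset_univ J) (fun t _ ht => (mem_bx.1 hx).2 t ht)).symm

end Pool.Agent.Work.MP_0cd883_co.Exact
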